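import Pool.Agent.Lib.MP_7548d4_gt.Defs

/-!
# Averaging over the orthogonal group
-/

set_option autoImplicit false
open MeasureTheory Metric Set Filter Topology Pointwise

namespace Pool.Agent.Lib.MP_7548d4_gt

/-- the action of an isometry on the sphere -/
noncomputable def taskD_act {n : ℕ} (V : EE n ≃ₗᵢ[ℝ] EE n) (θ : SS n) : SS n :=
  ⟨V θ, by simp⟩

theorem taskD_act_coe {n : ℕ} (V : EE n ≃ₗᵢ[ℝ] EE n) (θ : SS n) :
    ((taskD_act V θ : SS n) : EE n) = V θ := rfl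

theorem taskD_continuous_act {n : ℕ} (V : EE n ≃ₗᵢ[ℝ] EE n) : Continuous (taskD_act V) :=
  Continuous.subtype_mk (V.continuous.comp continuous_subtype_val) _

/-- the surface measure is invariant under linear isometries -/
theorem taskD_map_sig {n : ℕ} (V : EE n ≃ₗᵢ[ℝ] EE n) :
    (sig n).map (taskD_act V) = sig n := by
  have hm : Measurable (taskD_act V) := (taskD_continuous_act V).measurable
  ext s hs
  rw [Measure.map_apply hm hs]
  unfold sig
  rw [Measure.toSphere_apply' _ (hm hs), Measure.toSphere_apply' _ hs]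
  congr 1
  have hset : Ioo (0 : ℝ) 1 • ((fun θ : SS n => (θ : EE n)) '' (taskD_act V ⁻¹' s)) =
      V ⁻¹' (Ioo (0 : ℝ) 1 • ((fun θ : SS n => (θ : EE n)) '' s)) := by
    ext x
    simp only [Set.mem_smul, mem_image, mem_preimage, Subtype.exists]
    constructor
    · rintro ⟨r, hr, y, ⟨a, ha, has, rfl⟩, rfl⟩
      exact ⟨r, hr, V a, ⟨V a, by simpa [mem_sphere_zero_iff_norm] using ha, has, rfl⟩,
        (map_smul V r a).symm⟩
    · rintro ⟨r, hr, y, ⟨a, ha, has, rfl⟩, h⟩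
      refine ⟨r, hr, V.symm a, ⟨V.symm a, by simpa [mem_sphere_zero_iff_norm] using ha, ?_, rfl⟩,
        ?_⟩
      · have : taskD_act V ⟨V.symm a, by simpa [mem_sphere_zero_iff_norm] using ha⟩ = ⟨a, ha⟩ := by
          apply Subtype.ext
          rw [taskD_act_coe]
          simp
        rw [this]
        exact has
      · rw [← map_smul, h]
        simp
  have hset' : Ioo (0 : ℝ) 1 • ((↑) '' (taskD_act V ⁻¹' s) : Set (EE n)) =
      V ⁻¹' (Ioo (0 : ℝ) 1 • ((↑) '' s : Set (EE n))) := hset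
  rw [hset']
  exact (V.measurePreserving).measure_preimage_equiv (f := V.toHomeomorph.toMeasurableEquiv) _

theorem taskD_exists_isometry {n : ℕ} (x y : EE n) (h : ‖x‖ = ‖y‖) :
    ∃ V : EE n ≃ₗᵢ[ℝ] EE n, V x = y :=
  ⟨Submodule.reflection (ℝ ∙ (x - y))ᗮ, Submodule.reflection_sub h⟩

instance taskD_continuousStar (n : ℕ) : ContinuousStar (EE n →L[ℝ] EE n) :=
  ⟨(ContinuousLinearMap.adjoint (𝕜 := ℝ) (E := EE n) (F := EE n)).continuous⟩

/-- the orthogonal group -/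
abbrev taskD_OO (n : ℕ) : Type := unitary (EE n →L[ℝ] EE n)

theorem taskD_isCompact (n : ℕ) :
    IsCompact ((unitary (EE n →L[ℝ] EE n) : Submonoid (EE n →L[ℝ] EE n)) :
      Set (EE n →L[ℝ] EE n)) := by
  have : ProperSpace (EE n →L[ℝ] EE n) := FiniteDimensional.proper ℝ _
  refine Metric.isCompact_of_isClosed_isBounded isClosed_unitary ?_
  refine (Metric.isBounded_closedBall (x := (0 : EE n →L[ℝ] EE n)) (r := 1)).subset ?_
  intro u hu
  rw [mem_closedBall_zero_iff]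
  refine ContinuousLinearMap.opNorm_le_bound _ zero_le_one fun x => ?_
  rw [one_mul]
  exact (ContinuousLinearMap.norm_map_of_mem_unitary hu x).le

theorem taskD_compactSpace (n : ℕ) : CompactSpace (taskD_OO n) :=
  isCompact_iff_compactSpace.mp (taskD_isCompact n)

theorem taskD_avg {n : ℕ} (hn : 1 ≤ n) {Ω : Type} [MeasurableSpace Ω] (ν : Measure Ω)
    [IsProbabilityMeasure ν] (U : Ω → (EE n ≃ₗᵢ[ℝ] EE n))
    (hmeas : Measurable (fun p : Ω × EE n => U p.1 p.2)) (φ : EE n → ENNReal) (hφ : Measurable φ)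
    (hinv : ∀ (V : EE n ≃ₗᵢ[ℝ] EE n) (z : EE n),
      ∫⁻ ω, φ (U ω (V z)) ∂ν = ∫⁻ ω, φ (U ω z) ∂ν) (x : EE n) :
    ∫⁻ ω, φ (U ω x) ∂ν = (sig n univ)⁻¹ * ∫⁻ θ : SS n, φ (‖x‖ • (θ : EE n)) ∂(sig n) := by
  have hconst : ∀ θ : SS n, ∫⁻ ω, φ (U ω (‖x‖ • (θ : EE n))) ∂ν = ∫⁻ ω, φ (U ω x) ∂ν := by
    intro θ
    obtain ⟨V, hV⟩ := taskD_exists_isometry x (‖x‖ • (θ : EE n)) (by
      rw [norm_smul, norm_norm, norm_eq_of_mem_sphere, mul_one])
    rw [← hV]
    exact hinv V x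
  have hsigma : ∀ V : EE n ≃ₗᵢ[ℝ] EE n, ∫⁻ θ : SS n, φ (V (‖x‖ • (θ : EE n))) ∂(sig n) =
      ∫⁻ θ : SS n, φ (‖x‖ • (θ : EE n)) ∂(sig n) := by
    intro V
    conv_rhs => rw [← taskD_map_sig V]
    rw [lintegral_map (f := fun θ : SS n => φ (‖x‖ • (θ : EE n)))
      (hφ.comp ((measurable_const_smul ‖x‖).comp measurable_subtype_coe))
      (taskD_continuous_act V).measurable]
    refine lintegral_congr fun θ => ?_
    rw [taskD_act_coe, map_smul]
  have hsw : ∫⁻ θ : SS n, ∫⁻ ω, φ (U ω (‖x‖ • (θ : EE n))) ∂ν ∂(sig n) =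
      ∫⁻ ω, ∫⁻ θ : SS n, φ (U ω (‖x‖ • (θ : EE n))) ∂(sig n) ∂ν := by
    have hpair : Measurable (fun q : SS n × Ω => (q.2, ‖x‖ • (q.1 : EE n))) :=
      measurable_snd.prodMk
        ((measurable_const_smul ‖x‖).comp (measurable_subtype_coe.comp measurable_fst))
    have hmm : Measurable (Function.uncurry fun (θ : SS n) (ω : Ω) =>
        φ (U ω (‖x‖ • (θ : EE n)))) := hφ.comp (hmeas.comp hpair)
    exact lintegral_lintegral_swap hmm.aemeasurable
  have h1 : ∫⁻ θ : SS n, ∫⁻ ω, φ (U ω (‖x‖ • (θ : EE n))) ∂ν ∂(sig n) =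
      (∫⁻ ω, φ (U ω x) ∂ν) * sig n univ := by
    rw [lintegral_congr hconst, lintegral_const]
  have h2 : ∫⁻ ω, ∫⁻ θ : SS n, φ (U ω (‖x‖ • (θ : EE n))) ∂(sig n) ∂ν =
      ∫⁻ θ : SS n, φ (‖x‖ • (θ : EE n)) ∂(sig n) := by
    rw [lintegral_congr (fun ω => hsigma (U ω)), lintegral_const, measure_univ, mul_one]
  rw [h1, h2] at hsw
  have : Nonempty (Fin n) := ⟨⟨0, hn⟩⟩
  have h0 : sig n univ ≠ 0 := by
    intro h
    have := Measure.measure_univ_eq_zero.mp h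
    unfold sig at this
    exact Measure.toSphere_ne_zero _ this
  have htop : sig n univ ≠ ⊤ := measure_ne_top _ _
  rw [← hsw, mul_comm (∫⁻ ω, φ (U ω x) ∂ν), ← mul_assoc, ENNReal.inv_mul_cancel h0 htop, one_mul]

theorem taskD_haar (n : ℕ) : ∃ (Ω : Type) (_ : MeasurableSpace Ω)
    (ν : Measure Ω) (U : Ω → (EE n ≃ₗᵢ[ℝ] EE n)), IsProbabilityMeasure ν ∧
    Measurable (fun p : Ω × EE n => U p.1 p.2) ∧
    ∀ (φ : EE n → ENNReal) (V : EE n ≃ₗᵢ[ℝ] EE n) (z : EE n),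
      ∫⁻ ω, φ (U ω (V z)) ∂ν = ∫⁻ ω, φ (U ω z) ∂ν := by
  have : ProperSpace (EE n →L[ℝ] EE n) := FiniteDimensional.proper ℝ _
  have : CompactSpace (taskD_OO n) := taskD_compactSpace n
  let mΩ : MeasurableSpace (taskD_OO n) := borel _
  have : BorelSpace (taskD_OO n) := ⟨rfl⟩
  let K0 : TopologicalSpace.PositiveCompacts (taskD_OO n) := ⊤
  have hν : Measure.haarMeasure K0 univ = 1 := Measure.haarMeasure_self (K₀ := K0)
  have hcont : Continuous (fun p : taskD_OO n × EE n =>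
      ((p.1⁻¹ : taskD_OO n) : EE n →L[ℝ] EE n) p.2) :=
    Continuous.clm_apply (continuous_subtype_val.comp (continuous_inv.comp continuous_fst))
      continuous_snd
  refine ⟨taskD_OO n, mΩ, Measure.haarMeasure K0, fun ω => Unitary.linearIsometryEquiv ω⁻¹, ⟨hν⟩,
    hcont.measurable, ?_⟩
  intro φ V z
  set v : taskD_OO n := Unitary.linearIsometryEquiv.symm V with hv
  have hV : Unitary.linearIsometryEquiv v = V := by simp [hv]
  have h1 : ∀ ω : taskD_OO n, Unitary.linearIsometryEquiv ω⁻¹ (V z) =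
      Unitary.linearIsometryEquiv (v⁻¹ * ω)⁻¹ z := by
    intro ω
    rw [mul_inv_rev, inv_inv, map_mul, hV]
    rfl
  simp_rw [h1]
  exact lintegral_mul_left_eq_self
    (fun ω : taskD_OO n => φ (Unitary.linearIsometryEquiv ω⁻¹ z)) v⁻¹

theorem exists_orth_avg (n : ℕ) (hn : 1 ≤ n) : ∃ (Ω : Type) (_ : MeasurableSpace Ω)
    (ν : Measure Ω) (U : Ω → (EE n ≃ₗᵢ[ℝ] EE n)), IsProbabilityMeasure ν ∧
    Measurable (fun p : Ω × EE n => U p.1 p.2) ∧
    ∀ (x : EE n) (φ : EE n → ENNReal), Measurable φ →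
      ∫⁻ ω, φ (U ω x) ∂ν = (sig n univ)⁻¹ * ∫⁻ θ : SS n, φ (‖x‖ • (θ : EE n)) ∂(sig n) := by
  obtain ⟨Ω, mΩ, ν, U, hν, hmeas, hinv⟩ := taskD_haar n
  exact ⟨Ω, mΩ, ν, U, hν, hmeas, fun x φ hφ => taskD_avg hn ν U hmeas φ hφ (hinv φ) x⟩

end Pool.Agent.Lib.MP_7548d4_gt
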