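import Pool.Agent.Lib.MP_7548d4_gt.Defs

set_option autoImplicit false
open MeasureTheory Metric Set Filter Topology

namespace Pool.Agent.Lib.MP_7548d4_gt

section TaskB
variable {n : ℕ}

theorem taskB_nonempty (hn : 1 ≤ n) : Nonempty (Fin n) := ⟨⟨0, hn⟩⟩

theorem lintegral_polar (hn : 1 ≤ n) (φ : EE n → ENNReal) (hφ : Measurable φ) :
    ∫⁻ x, φ x = ∫⁻ θ : SS n, (∫⁻ r in Ioi (0 : ℝ),
      ENNReal.ofReal (r ^ (n - 1)) * φ (r • (θ : EE n))) ∂(sig n) := by
  have := taskB_nonempty hn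
  have hmp := (volume : Measure (EE n)).measurePreserving_homeomorphUnitSphereProd
  rw [finrank_euclideanSpace_fin] at hmp
  have h1 : ∫⁻ x, φ x = ∫⁻ x : ({(0)}ᶜ : Set (EE n)), φ (x : EE n)
      ∂((volume : Measure (EE n)).comap Subtype.val) := by
    rw [lintegral_subtype_comap (measurableSet_singleton _).compl, restrict_compl_singleton]
  have h2 : ∫⁻ x : ({(0)}ᶜ : Set (EE n)), φ (x : EE n)
      ∂((volume : Measure (EE n)).comap Subtype.val) =
      ∫⁻ p : SS n × Ioi (0 : ℝ), φ (p.2.1 • (p.1 : EE n))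
        ∂((volume : Measure (EE n)).toSphere.prod (Measure.volumeIoiPow (n - 1))) := by
    have := hmp.lintegral_comp_emb (Homeomorph.measurableEmbedding _)
      (fun p : SS n × Ioi (0 : ℝ) => φ (p.2.1 • (p.1 : EE n)))
    rw [← this]
    apply lintegral_congr
    intro x
    congr 1
    have := (homeomorphUnitSphereProd (EE n)).symm_apply_apply x
    conv_lhs => rw [← this]
    rfl
  rw [h1, h2, lintegral_prod]
  · apply lintegral_congr
    intro θ
    unfold Measure.volumeIoiPow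
    rw [lintegral_withDensity_eq_lintegral_mul]
    · rw [← lintegral_subtype_comap measurableSet_Ioi]
      rfl
    · fun_prop
    · fun_prop
  · fun_prop

theorem volume_closedBall_kap (p : ℕ) (hp : 1 ≤ p) (r : ℝ) (hr : 0 ≤ r) :
    volume (closedBall (0 : EE p) r) = ENNReal.ofReal (kap p * r ^ p) := by
  have := taskB_nonempty hp
  rw [EuclideanSpace.volume_closedBall, Fintype.card_fin, ← ENNReal.ofReal_pow hr,
    ← ENNReal.ofReal_mul (by positivity)]
  congr 1
  unfold kap
  have h : √Real.pi ^ p = Real.pi ^ ((p : ℝ) / 2) := by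
    rw [Real.sqrt_eq_rpow, ← Real.rpow_natCast (Real.pi ^ (1 / 2 : ℝ)) p,
      ← Real.rpow_mul Real.pi_pos.le]
    congr 1
    ring
  rw [h, mul_comm, add_comm]

theorem kap_pos (p : ℕ) : 0 < kap p := by
  unfold kap
  apply div_pos (Real.rpow_pos_of_pos Real.pi_pos _)
  apply Real.Gamma_pos_of_pos
  positivity

theorem sig_univ (hn : 1 ≤ n) : sig n univ = ENNReal.ofReal (n * kap n) := by
  have := taskB_nonempty hn
  unfold sig
  rw [Measure.toSphere_apply_univ, ← Measure.addHaar_closedBall_eq_addHaar_ball,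
    volume_closedBall_kap n hn 1 zero_le_one, finrank_euclideanSpace_fin, one_pow, mul_one,
    ENNReal.ofReal_mul (by positivity), ENNReal.ofReal_natCast]

theorem taskB_inner (hn : 1 ≤ n) (ρ : ℝ) (hρ : 0 ≤ ρ) :
    ∫⁻ r in Ioi (0 : ℝ), ENNReal.ofReal (r ^ (n - 1)) * (if r ≤ ρ then 1 else 0) =
      ENNReal.ofReal (ρ ^ n / n) := by
  have h1 : ∀ r : ℝ, ENNReal.ofReal (r ^ (n - 1)) * (if r ≤ ρ then 1 else 0) =
      (Iic ρ).indicator (fun r => ENNReal.ofReal (r ^ (n - 1))) r := by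
    intro r
    by_cases h : r ≤ ρ
    · rw [if_pos h, mul_one, indicator_of_mem (by simpa using h)]
    · rw [if_neg h, mul_zero, indicator_of_notMem (by simpa using h)]
  simp_rw [h1]
  rw [lintegral_indicator measurableSet_Iic, Measure.restrict_restrict measurableSet_Iic,
    show Iic ρ ∩ Ioi 0 = Ioc 0 ρ by ext x; simp [and_comm],
    ← ofReal_integral_eq_lintegral_ofReal]
  · rw [← intervalIntegral.integral_of_le hρ, integral_pow, Nat.sub_add_cancel hn,
      zero_pow (by omega), sub_zero]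
    congr 2
    rw [Nat.cast_sub hn]
    simp
  · exact (intervalIntegral.intervalIntegrable_pow _).1
  · filter_upwards [ae_restrict_mem measurableSet_Ioc] with y hy
    exact pow_nonneg hy.1.le _

theorem taskB_scale (a : ℝ) (ha : 0 < a) (F : ℝ → ENNReal) :
    ∫⁻ r in Ioi (0 : ℝ), F (a * r) = ENNReal.ofReal a⁻¹ * ∫⁻ r in Ioi (0 : ℝ), F r := by
  have himg : (fun r : ℝ => a * r) '' Ioi 0 = Ioi 0 := by
    ext x
    simp only [mem_image, mem_Ioi]
    constructor
    · rintro ⟨y, hy, rfl⟩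
      positivity
    · intro hx
      exact ⟨a⁻¹ * x, by positivity, by field_simp⟩
  have h := lintegral_image_eq_lintegral_abs_deriv_mul (s := Ioi (0 : ℝ)) (f := fun r => a * r)
    (f' := fun _ => a) measurableSet_Ioi
    (fun x _ => by simpa using ((hasDerivAt_id x).const_mul a).hasDerivWithinAt)
    (fun x _ y _ hxy => by simpa [ha.ne'] using hxy) F
  rw [himg] at h
  rw [h, lintegral_const_mul' _ _ ENNReal.ofReal_ne_top, ← mul_assoc,
    ← ENNReal.ofReal_mul (by positivity), abs_of_pos ha, inv_mul_cancel₀ ha.ne',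
    ENNReal.ofReal_one, one_mul]

theorem taskB_gauss (hn : 1 ≤ n) (b : ℝ) (hb : 0 < b) :
    ∫⁻ r in Ioi (0 : ℝ), ENNReal.ofReal (r ^ (n - 1)) * ENNReal.ofReal (Real.exp (-(b * r ^ 2))) =
      ENNReal.ofReal (b ^ (-((n : ℝ) / 2)) * (1 / 2) * Real.Gamma ((n : ℝ) / 2)) := by
  have h0 : ∀ r ∈ Ioi (0 : ℝ), ENNReal.ofReal (r ^ (n - 1)) *
      ENNReal.ofReal (Real.exp (-(b * r ^ 2))) =
      ENNReal.ofReal (r ^ ((n : ℝ) - 1) * Real.exp (-b * r ^ (2 : ℝ))) := by
    intro r hr
    have hr' : 0 < r := hr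
    rw [← ENNReal.ofReal_mul (by positivity), Real.rpow_two, neg_mul,
      show (n : ℝ) - 1 = ((n - 1 : ℕ) : ℝ) by rw [Nat.cast_sub hn]; simp, Real.rpow_natCast]
  rw [setLIntegral_congr_fun measurableSet_Ioi h0, ← ofReal_integral_eq_lintegral_ofReal]
  · have hn' : (-1 : ℝ) < (n : ℝ) - 1 := by
      have : (1 : ℝ) ≤ n := by exact_mod_cast hn
      linarith
    rw [integral_rpow_mul_exp_neg_mul_rpow two_pos hn' hb]
    congr 3
    · congr 1; ring
    · ring
  · have hn' : (-1 : ℝ) < (n : ℝ) - 1 := by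
      have : (1 : ℝ) ≤ n := by exact_mod_cast hn
      linarith
    exact integrableOn_rpow_mul_exp_neg_mul_rpow hn' (by norm_num) hb
  · filter_upwards [ae_restrict_mem measurableSet_Ioi] with y hy
    have hy' : (0 : ℝ) < y := hy
    positivity

theorem taskB_mem_iff {K : Set (EE n)} (hK : IsStarBody K) (θ : SS n) {t : ℝ} (ht : 0 ≤ t) :
    t • (θ : EE n) ∈ K ↔ t ≤ radial K θ := by
  set T : Set ℝ := {t : ℝ | 0 ≤ t ∧ t • (θ : EE n) ∈ K} with hT
  have hrad : radial K θ = sSup T := rfl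
  have hpos : 0 < radial K θ := hK.pos θ θ.2
  have hne : T.Nonempty := by
    by_contra h
    rw [not_nonempty_iff_eq_empty] at h
    rw [hrad, h, Real.sSup_empty] at hpos
    exact lt_irrefl _ hpos
  have hθ : ‖(θ : EE n)‖ = 1 := by simp
  have hbdd : BddAbove T := by
    obtain ⟨R, hR⟩ := hK.compact.isBounded.exists_norm_le
    refine ⟨R, ?_⟩
    rintro s ⟨hs, hs'⟩
    have := hR _ hs'
    rwa [norm_smul, hθ, mul_one, Real.norm_of_nonneg hs] at this
  have hcl : IsClosed T := by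
    have : T = Ici 0 ∩ (fun s : ℝ => s • (θ : EE n)) ⁻¹' K := by
      ext s; simp [hT]
    rw [this]
    exact isClosed_Ici.inter (hK.compact.isClosed.preimage (by fun_prop))
  have hmem : sSup T ∈ T := hcl.csSup_mem hne hbdd
  constructor
  · intro h
    exact le_csSup hbdd ⟨ht, h⟩
  · intro h
    have h2 := hK.star.smul_mem hmem.2 (t := t / sSup T) (div_nonneg ht hmem.1)
      (div_le_one_of_le₀ h hmem.1)
    rwa [smul_smul, div_mul_cancel₀ _ (by rw [← hrad]; exact hpos.ne')] at h2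

theorem taskB_continuous_radial {K : Set (EE n)} (hK : IsStarBody K) :
    Continuous fun θ : SS n => radial K θ := by
  have := hK.cont
  rw [continuousOn_iff_continuous_domRestrict] at this
  exact this

theorem taskB_volume (hn : 1 ≤ n) {K : Set (EE n)} (hKm : MeasurableSet K) (ρ : SS n → ℝ)
    (hρ : ∀ θ, 0 ≤ ρ θ) (hK : ∀ θ : SS n, ∀ r : ℝ, 0 < r → (r • (θ : EE n) ∈ K ↔ r ≤ ρ θ)) :
    volume K = ∫⁻ θ : SS n, ENNReal.ofReal (ρ θ ^ n / n) ∂(sig n) := by
  rw [← lintegral_indicator_one hKm, lintegral_polar hn _ (measurable_one.indicator hKm)]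
  apply lintegral_congr
  intro θ
  rw [← taskB_inner hn (ρ θ) (hρ θ)]
  apply setLIntegral_congr_fun measurableSet_Ioi
  intro r hr
  have := hK θ r hr
  by_cases h : r ≤ ρ θ
  · simp [h, this.2 h]
  · simp [h, mt this.1 h]

/-- volume of a star body -/
theorem volume_star (hn : 1 ≤ n) {K : Set (EE n)} (hK : IsStarBody K) :
    ∫ θ : SS n, radial K θ ^ n ∂(sig n) = n * (volume K).toReal := by
  have h0 : ∀ θ : SS n, 0 < radial K θ := fun θ => hK.pos θ θ.2
  have hc := taskB_continuous_radial hK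
  rw [taskB_volume hn hK.compact.measurableSet (fun θ => radial K θ) (fun θ => (h0 θ).le)
    (fun θ r hr => taskB_mem_iff hK θ hr.le)]
  have hn' : (n : ℝ) ≠ 0 := by
    have : n ≠ 0 := by omega
    exact_mod_cast this
  rw [← integral_eq_lintegral_of_nonneg_ae, integral_div, mul_div_cancel₀ _ hn']
  · exact Eventually.of_forall fun θ => by have := h0 θ; positivity
  · exact (by fun_prop : Continuous fun θ : SS n => radial K θ ^ n / n).aestronglyMeasurable

/-- Gaussian integral with respect to a gauge -/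
theorem lintegral_exp_gauge (hn : 1 ≤ n) (N : EE n → ℝ) (hN : Continuous N) (c C : ℝ) (hc : 0 < c)
    (hN1 : ∀ x, c * ‖x‖ ≤ N x) (hN2 : ∀ x, N x ≤ C * ‖x‖)
    (hhom : ∀ r : ℝ, 0 ≤ r → ∀ x, N (r • x) = r * N x) (t : ℝ) (ht : 0 < t) :
    ∫⁻ x, ENNReal.ofReal (Real.exp (-(t * N x ^ 2))) = volume {x | N x ≤ 1} *
      ENNReal.ofReal (Real.Gamma (1 + (n : ℝ) / 2) * t ^ (-((n : ℝ) / 2))) := by
  have hpos : ∀ θ : SS n, 0 < N θ := by
    intro θ
    have hθ : ‖(θ : EE n)‖ = 1 := by simp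
    have := hN1 θ
    rw [hθ, mul_one] at this
    exact hc.trans_le this
  have hn0 : 0 < n := by omega
  have hn' : (0 : ℝ) < n := by exact_mod_cast hn0
  rw [lintegral_polar hn _ (by fun_prop), taskB_volume hn
    (show MeasurableSet {x | N x ≤ 1} from hN.measurable measurableSet_Iic)
    (fun θ => (N θ)⁻¹) (fun θ => (inv_pos.2 (hpos θ)).le)]
  · rw [← lintegral_mul_const' _ _ ENNReal.ofReal_ne_top]
    apply lintegral_congr
    intro θ
    have h1 : ∀ r ∈ Ioi (0 : ℝ), ENNReal.ofReal (r ^ (n - 1)) *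
        ENNReal.ofReal (Real.exp (-(t * N (r • (θ : EE n)) ^ 2))) =
        ENNReal.ofReal (r ^ (n - 1)) *
          ENNReal.ofReal (Real.exp (-((t * N θ ^ 2) * r ^ 2))) := by
      intro r hr
      rw [hhom r (le_of_lt hr)]
      congr 4
      ring
    rw [setLIntegral_congr_fun measurableSet_Ioi h1, taskB_gauss hn _ (by have := hpos θ; positivity),
      ← ENNReal.ofReal_mul (by have := hpos θ; positivity)]
    congr 1
    have h2 : (t * N θ ^ 2) ^ (-((n : ℝ) / 2)) = t ^ (-((n : ℝ) / 2)) * (N θ)⁻¹ ^ n := by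
      rw [Real.mul_rpow ht.le (by positivity)]
      congr 1
      rw [← Real.rpow_natCast (N θ) 2, ← Real.rpow_mul (hpos θ).le, inv_pow, ← Real.rpow_natCast,
        ← Real.rpow_neg (hpos θ).le]
      congr 1
      push_cast
      ring
    rw [h2, add_comm, Real.Gamma_add_one (by positivity)]
    field_simp
  · intro θ r hr
    change N (r • (θ : EE n)) ≤ 1 ↔ _
    rw [hhom r hr.le, ← le_div_iff₀ (hpos θ), one_div]

/-- linear change of variables on the sphere -/
theorem sphere_cov (hn : 1 ≤ n) (b : ℕ) (hb : b ≤ n) (B : EE n ≃L[ℝ] EE n) (H : EE n → ENNReal)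
    (hH : Measurable H)
    (hhom : ∀ r : ℝ, 0 < r → ∀ x, H (r • x) = ENNReal.ofReal ((r ^ b)⁻¹) * H x) :
    ∫⁻ θ : SS n, H (B (θ : EE n)) ∂(sig n) =
      ENNReal.ofReal (|LinearMap.det ((B : EE n →L[ℝ] EE n) : EE n →ₗ[ℝ] EE n)|⁻¹) *
        ∫⁻ θ : SS n, H θ * ENNReal.ofReal ((‖B.symm (θ : EE n)‖ ^ (n - b))⁻¹) ∂(sig n) := by
  set χ : ℝ → ENNReal := (Icc (1 : ℝ) 2).indicator 1 with hχ
  have hχm : Measurable χ := measurable_one.indicator measurableSet_Icc
  have hBm : Measurable B := B.continuous.measurable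
  have hBm' : Measurable B.symm := B.symm.continuous.measurable
  set w : ℝ → ENNReal := fun r => ENNReal.ofReal (r ^ (n - 1)) * ENNReal.ofReal ((r ^ b)⁻¹) with hw
  have hwm : Measurable w := by fun_prop
  set I : ENNReal := ∫⁻ r in Ioi (0 : ℝ), w r * χ r with hI
  have hIeq : I = ∫⁻ r in Icc (1 : ℝ) 2, w r := by
    rw [hI]
    have : ∀ r, w r * χ r = (Icc (1 : ℝ) 2).indicator w r := by
      intro r
      by_cases h : r ∈ Icc (1 : ℝ) 2
      · rw [hχ, indicator_of_mem h, indicator_of_mem h]; simp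
      · rw [hχ, indicator_of_notMem h, indicator_of_notMem h]; simp
    simp_rw [this]
    rw [lintegral_indicator measurableSet_Icc, Measure.restrict_restrict measurableSet_Icc,
      inter_eq_left.2]
    intro x hx
    exact lt_of_lt_of_le one_pos hx.1
  have hI0 : I ≠ 0 := by
    rw [hIeq]
    have : (∫⁻ _ in Icc (1 : ℝ) 2, ENNReal.ofReal ((2 ^ b)⁻¹)) ≤ ∫⁻ r in Icc (1 : ℝ) 2, w r := by
      apply setLIntegral_mono hwm
      intro r hr
      rw [hw]
      have hr1 : (1 : ℝ) ≤ r := hr.1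
      have hr2 : r ≤ 2 := hr.2
      calc ENNReal.ofReal ((2 ^ b)⁻¹) = ENNReal.ofReal 1 * ENNReal.ofReal ((2 ^ b)⁻¹) := by simp
        _ ≤ ENNReal.ofReal (r ^ (n - 1)) * ENNReal.ofReal ((r ^ b)⁻¹) := by
          apply mul_le_mul'
          · exact ENNReal.ofReal_le_ofReal (one_le_pow₀ hr1)
          · apply ENNReal.ofReal_le_ofReal
            have : r ^ b ≤ 2 ^ b := by gcongr
            gcongr
    intro h
    rw [h, lintegral_const, nonpos_iff_eq_zero, mul_eq_zero] at this
    rcases this with h | h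
    · rw [ENNReal.ofReal_eq_zero] at h
      have : (0 : ℝ) < (2 ^ b)⁻¹ := by positivity
      linarith
    · rw [Measure.restrict_apply_univ, Real.volume_Icc, ENNReal.ofReal_eq_zero] at h
      norm_num at h
  have hI1 : I ≠ ⊤ := by
    rw [hIeq]
    have : ∫⁻ r in Icc (1 : ℝ) 2, w r ≤ ∫⁻ _ in Icc (1 : ℝ) 2, ENNReal.ofReal (2 ^ (n - 1)) := by
      apply setLIntegral_mono measurable_const
      intro r hr
      rw [hw]
      have hr1 : (1 : ℝ) ≤ r := hr.1
      have hr2 : r ≤ 2 := hr.2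
      calc ENNReal.ofReal (r ^ (n - 1)) * ENNReal.ofReal ((r ^ b)⁻¹)
          ≤ ENNReal.ofReal (2 ^ (n - 1)) * ENNReal.ofReal 1 := by
            gcongr
            exact inv_le_one_of_one_le₀ (one_le_pow₀ hr1)
        _ = _ := by simp
    refine ne_top_of_le_ne_top ?_ this
    rw [lintegral_const, Measure.restrict_apply_univ, Real.volume_Icc]
    exact ENNReal.mul_ne_top ENNReal.ofReal_ne_top ENNReal.ofReal_ne_top
  have hnorm : ∀ θ : SS n, ‖(θ : EE n)‖ = 1 := fun θ => by simp
  -- first computation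
  have e1 : ∫⁻ x, H (B x) * χ ‖x‖ = (∫⁻ θ : SS n, H (B (θ : EE n)) ∂(sig n)) * I := by
    rw [lintegral_polar hn _ (by fun_prop), ← lintegral_mul_const' _ _ hI1]
    apply lintegral_congr
    intro θ
    rw [hI, ← lintegral_const_mul _ (by fun_prop)]
    apply setLIntegral_congr_fun measurableSet_Ioi
    intro r hr
    have hr' : (0 : ℝ) < r := hr
    simp only [hw]
    rw [map_smul, hhom r hr', norm_smul, hnorm, mul_one, Real.norm_of_nonneg hr'.le]
    ring
  -- second computation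
  have e2 : ∫⁻ x, H (B x) * χ ‖x‖ =
      ENNReal.ofReal (|LinearMap.det ((B : EE n →L[ℝ] EE n) : EE n →ₗ[ℝ] EE n)|⁻¹) *
        ∫⁻ y, H y * χ ‖B.symm y‖ := by
    have hdet : LinearMap.det ((B : EE n →L[ℝ] EE n) : EE n →ₗ[ℝ] EE n) ≠ 0 := by
      have := (LinearEquiv.isUnit_det' B.toLinearEquiv).ne_zero
      exact this
    have hmap := Measure.map_linearMap_addHaar_eq_smul_addHaar (volume : Measure (EE n)) hdet
    have h3 : ∫⁻ x, H (B x) * χ ‖x‖ = ∫⁻ y, H y * χ ‖B.symm y‖
        ∂(Measure.map ((B : EE n →L[ℝ] EE n) : EE n →ₗ[ℝ] EE n) volume) := by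
      have : Measurable fun y => H y * χ ‖B.symm y‖ := by fun_prop
      rw [lintegral_map this
        (show Measurable ⇑((B : EE n →L[ℝ] EE n) : EE n →ₗ[ℝ] EE n) from hBm)]
      apply lintegral_congr
      intro x
      change _ = H (B x) * χ ‖B.symm (B x)‖
      rw [B.symm_apply_apply]
    rw [h3, hmap, lintegral_smul_measure, abs_inv]
    rfl
  have e3 : ∫⁻ y, H y * χ ‖B.symm y‖ = (∫⁻ θ : SS n,
      H θ * ENNReal.ofReal ((‖B.symm (θ : EE n)‖ ^ (n - b))⁻¹) ∂(sig n)) * I := by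
    rw [lintegral_polar hn _ (by fun_prop), ← lintegral_mul_const' _ _ hI1]
    apply lintegral_congr
    intro θ
    set a : ℝ := ‖B.symm (θ : EE n)‖ with ha
    have ha0 : 0 < a := by
      rw [ha, norm_pos_iff]
      intro h
      have h4 : (θ : EE n) = 0 := by
        have := congrArg B h
        rwa [B.apply_symm_apply, map_zero] at this
      have := hnorm θ
      rw [h4, norm_zero] at this
      exact zero_ne_one this
    have h5 : ∀ r ∈ Ioi (0 : ℝ), ENNReal.ofReal (r ^ (n - 1)) * (H (r • (θ : EE n)) *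
        χ ‖B.symm (r • (θ : EE n))‖) =
        H θ * (ENNReal.ofReal (a * (a ^ (n - b))⁻¹) * (w (a * r) * χ (a * r))) := by
      intro r hr
      have hr' : (0 : ℝ) < r := hr
      rw [map_smul, hhom r hr', norm_smul, Real.norm_of_nonneg hr'.le, ← ha, mul_comm r a]
      have h6 : ENNReal.ofReal (r ^ (n - 1)) * ENNReal.ofReal ((r ^ b)⁻¹) =
          ENNReal.ofReal (a * (a ^ (n - b))⁻¹) * w (a * r) := by
        simp only [hw]
        rw [← ENNReal.ofReal_mul (by positivity), ← ENNReal.ofReal_mul (by positivity),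
          ← ENNReal.ofReal_mul (by positivity)]
        congr 1
        rw [mul_pow, mul_pow]
        have h7 : a ^ n = a ^ (n - b) * a ^ b := by rw [← pow_add]; congr 1; omega
        have h8 : a ^ n = a * a ^ (n - 1) := by rw [← pow_succ']; congr 1; omega
        have h9 : a * a ^ (n - 1) = a ^ (n - b) * a ^ b := by rw [← h8, h7]
        field_simp
        linear_combination (-1 : ℝ) * h9
      calc ENNReal.ofReal (r ^ (n - 1)) * (ENNReal.ofReal ((r ^ b)⁻¹) * H θ * χ (a * r))
          = H θ * ((ENNReal.ofReal (r ^ (n - 1)) * ENNReal.ofReal ((r ^ b)⁻¹)) * χ (a * r)) := by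
            ring
        _ = _ := by rw [h6]; ring
    rw [setLIntegral_congr_fun measurableSet_Ioi h5, lintegral_const_mul _ (by fun_prop),
      lintegral_const_mul _ (by fun_prop), taskB_scale a ha0 (fun r => w r * χ r), ← hI,
      ← mul_assoc (ENNReal.ofReal _) (ENNReal.ofReal _), ← ENNReal.ofReal_mul (by positivity),
      mul_assoc (H θ)]
    congr 3
    field_simp
  rw [e1, e3, ← mul_assoc] at e2
  exact (ENNReal.mul_left_inj hI0 hI1).1 e2

end TaskB

end Pool.Agent.Lib.MP_7548d4_gt
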