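import Pool.Agent.Lib.MP_7548d4_gt.Defs

/-!
# Task E: the section condition for linear images
-/

set_option autoImplicit false
open MeasureTheory Metric Set Filter Topology

namespace Pool.Agent.Lib.MP_7548d4_gt

/-- volumes of sections, in terms of an orthonormal basis of the subspace -/
theorem taskE_volume {n k : ℕ} (H : Submodule ℝ (EE n)) (b : OrthonormalBasis (Fin k) ℝ H)
    (L : Set (EE n)) (M : EE k →ₗ[ℝ] EE n) (hM : ∀ y, M y ∈ H)
    (hdet : (Matrix.of fun i j : Fin k => inner ℝ (b i : EE n)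
      (M (EuclideanSpace.single j (1 : ℝ)))).det ≠ 0) :
    volume {y : EE k | M y ∈ L} =
      ENNReal.ofReal |(Matrix.of fun i j : Fin k => inner ℝ (b i : EE n)
        (M (EuclideanSpace.single j (1 : ℝ)))).det|⁻¹ * volume {x : H | (x : EE n) ∈ L} := by
  set A : Matrix (Fin k) (Fin k) ℝ := Matrix.of fun i j : Fin k => inner ℝ (b i : EE n)
        (M (EuclideanSpace.single j (1 : ℝ))) with hA
  set M' : EE k →ₗ[ℝ] H := M.codRestrict H hM with hM'
  set f : EE k →ₗ[ℝ] EE k := (b.repr.toLinearEquiv : H →ₗ[ℝ] EE k) ∘ₗ M' with hf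
  have hfdet : LinearMap.det f = A.det := by
    rw [← LinearMap.det_toMatrix (EuclideanSpace.basisFun (Fin k) ℝ).toBasis f]
    congr 1
    ext i j
    rw [LinearMap.toMatrix_apply]
    simp only [OrthonormalBasis.coe_toBasis, OrthonormalBasis.coe_toBasis_repr_apply,
      EuclideanSpace.basisFun_apply, EuclideanSpace.basisFun_repr, hf, LinearMap.comp_apply,
      LinearEquiv.coe_coe, LinearIsometryEquiv.coe_toLinearEquiv, hA, Matrix.of_apply]
    rw [OrthonormalBasis.repr_apply_apply]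
    rfl
  have h1 : {y : EE k | M y ∈ L} = f ⁻¹' {x : EE k | ((b.repr.symm x : H) : EE n) ∈ L} := by
    ext y
    simp only [mem_ofPred_eq, mem_preimage, hf, LinearMap.comp_apply, LinearEquiv.coe_coe,
      LinearIsometryEquiv.coe_toLinearEquiv, LinearIsometryEquiv.symm_apply_apply]
    rfl
  rw [h1, Measure.addHaar_preimage_linearMap volume (by rw [hfdet]; exact hdet), hfdet, abs_inv]
  congr 1
  have h2 : {x : EE k | ((b.repr.symm x : H) : EE n) ∈ L} =
      b.repr.symm ⁻¹' {x : H | (x : EE n) ∈ L} := rfl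
  rw [h2]
  exact (LinearIsometryEquiv.measurePreserving b.repr.symm).measure_preimage_emb
    b.repr.symm.toHomeomorph.measurableEmbedding _

/-- the family made of two orthonormal systems of orthogonal subspaces -/
theorem taskE_basis {n k l : ℕ} (hn : n = k + l) (u : Fin k → EE n) (v : Fin l → EE n)
    (hu : Orthonormal ℝ u) (hv : Orthonormal ℝ v) (huv : ∀ i j, inner ℝ (u i) (v j) = 0) :
    ∃ b : OrthonormalBasis (Fin k ⊕ Fin l) ℝ (EE n), (∀ i, b (Sum.inl i) = u i) ∧
      ∀ j, b (Sum.inr j) = v j := by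
  have ho : Orthonormal ℝ (Sum.elim u v) := by
    rw [orthonormal_iff_ite] at hu hv ⊢
    rintro (i | i) (j | j)
    · simpa using hu i j
    · simpa using huv i j
    · simpa [real_inner_comm] using huv j i
    · simpa using hv i j
  have hcard : Module.finrank ℝ (EE n) = Fintype.card (Fin k ⊕ Fin l) := by
    simp [hn]
  let b := OrthonormalBasis.mk ho (by
    have := (LinearIndependent.span_eq_top_of_card_eq_finrank' ho.linearIndependent hcard.symm)
    rw [this])
  refine ⟨b, fun i => ?_, fun j => ?_⟩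
  · simp [b]
  · simp [b]

theorem section_linear {n k l : ℕ} (hn : n = k + l) {K L : Set (EE n)}
    (h : IsKIntersectionBody k K L) (ι₁ : EE k →ₗᵢ[ℝ] EE n) (ι₂ : EE l →ₗᵢ[ℝ] EE n)
    (hι : ∀ y z, inner ℝ (ι₁ y) (ι₂ z) = 0) (B : EE n ≃L[ℝ] EE n) :
    ENNReal.ofReal |LinearMap.det ((B : EE n →L[ℝ] EE n) : EE n →ₗ[ℝ] EE n)| *
      volume {y : EE k | B (ι₁ y) ∈ L} =
      volume {z : EE l | ContinuousLinearMap.adjoint (B.symm : EE n →L[ℝ] EE n) (ι₂ z) ∈ K} := by
  set M : EE k →ₗ[ℝ] EE n := ((B : EE n →L[ℝ] EE n) : EE n →ₗ[ℝ] EE n) ∘ₗ ι₁.toLinearMap with hM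
  set N : EE l →ₗ[ℝ] EE n := (ContinuousLinearMap.adjoint (B.symm : EE n →L[ℝ] EE n) :
    EE n →ₗ[ℝ] EE n) ∘ₗ ι₂.toLinearMap with hN
  have hMa : ∀ y, M y = B (ι₁ y) := fun y => rfl
  have hNa : ∀ z, N z = ContinuousLinearMap.adjoint (B.symm : EE n →L[ℝ] EE n) (ι₂ z) :=
    fun z => rfl
  have hMN : ∀ x z, inner ℝ (B x) (N z) = inner ℝ x (ι₂ z) := by
    intro x z
    rw [hNa, ContinuousLinearMap.adjoint_inner_right]
    simp
  set H : Submodule ℝ (EE n) := LinearMap.range M with hH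
  have hMinj : Function.Injective M := B.injective.comp ι₁.injective
  have hfinH : Module.finrank ℝ H = k := by
    rw [hH, LinearMap.finrank_range_of_inj hMinj]
    simp
  have hfinHp : Module.finrank ℝ Hᗮ = l := by
    have := Submodule.finrank_add_finrank_orthogonal H
    rw [hfinH] at this
    simp only [finrank_euclideanSpace, Fintype.card_fin] at this
    omega
  have hNmem : ∀ z, N z ∈ Hᗮ := by
    intro z
    rw [Submodule.mem_orthogonal]
    rintro _ ⟨y, rfl⟩
    rw [hMa, hMN, hι]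
  have hMmem : ∀ y, M y ∈ H := fun y => LinearMap.mem_range_self M y
  let bH : OrthonormalBasis (Fin k) ℝ H := (stdOrthonormalBasis ℝ H).reindex (finCongr hfinH)
  let bP : OrthonormalBasis (Fin l) ℝ Hᗮ := (stdOrthonormalBasis ℝ Hᗮ).reindex (finCongr hfinHp)
  set A₁ : Matrix (Fin k) (Fin k) ℝ := Matrix.of fun i j : Fin k => inner ℝ (bH i : EE n)
    (M (EuclideanSpace.single j (1 : ℝ))) with hA₁
  set A₂ : Matrix (Fin l) (Fin l) ℝ := Matrix.of fun i j : Fin l => inner ℝ (bP i : EE n)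
    (N (EuclideanSpace.single j (1 : ℝ))) with hA₂
  set D : Matrix (Fin l) (Fin l) ℝ := Matrix.of fun i j : Fin l => inner ℝ (bP i : EE n)
    (B (ι₂ (EuclideanSpace.single j (1 : ℝ)))) with hD
  -- the two orthonormal bases
  have hsk : Orthonormal ℝ (fun i : Fin k => EuclideanSpace.single i (1 : ℝ)) :=
    EuclideanSpace.orthonormal_single
  have hsl : Orthonormal ℝ (fun i : Fin l => EuclideanSpace.single i (1 : ℝ)) :=
    EuclideanSpace.orthonormal_single
  obtain ⟨b₁, hb₁l, hb₁r⟩ := taskE_basis hn (fun i => ι₁ (EuclideanSpace.single i (1 : ℝ)))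
    (fun j => ι₂ (EuclideanSpace.single j (1 : ℝ))) (hsk.comp_linearIsometry ι₁)
    (hsl.comp_linearIsometry ι₂) (fun i j => hι _ _)
  obtain ⟨b₂, hb₂l, hb₂r⟩ := taskE_basis hn (fun i => (bH i : EE n)) (fun j => (bP j : EE n))
    (bH.orthonormal.comp_linearIsometry H.subtypeₗᵢ)
    (bP.orthonormal.comp_linearIsometry Hᗮ.subtypeₗᵢ)
    (fun i j => Submodule.inner_right_of_mem_orthogonal (bH i).2 (bP j).2)
  -- D^T A₂ = 1
  have hDA : D.transpose * A₂ = 1 := by
    ext i j
    rw [Matrix.mul_apply]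
    simp only [Matrix.transpose_apply, hD, hA₂, Matrix.of_apply]
    have h1 := b₂.sum_inner_mul_inner (B (ι₂ (EuclideanSpace.single i (1 : ℝ))))
      (N (EuclideanSpace.single j (1 : ℝ)))
    rw [hMN, Fintype.sum_sum_type] at h1
    simp only [hb₂l, hb₂r] at h1
    have h2 : ∀ a : Fin k, inner ℝ (bH a : EE n) (N (EuclideanSpace.single j (1 : ℝ))) = 0 :=
      fun a => Submodule.inner_right_of_mem_orthogonal (bH a).2 (hNmem _)
    simp only [h2, mul_zero, Finset.sum_const_zero, zero_add] at h1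
    rw [ι₂.inner_map_map] at h1
    rw [Matrix.one_apply]
    have h3 := (orthonormal_iff_ite.1 hsl) i j
    rw [h3] at h1
    rw [← h1]
    refine Finset.sum_congr rfl fun a _ => ?_
    rw [real_inner_comm]
  have hDA' : D.det * A₂.det = 1 := by
    have := congrArg Matrix.det hDA
    rwa [Matrix.det_mul, Matrix.det_transpose, Matrix.det_one] at this
  -- the determinant of B
  have hBdet : |LinearMap.det ((B : EE n →L[ℝ] EE n) : EE n →ₗ[ℝ] EE n)| = |A₁.det * D.det| := by
    have h1 : LinearMap.toMatrix b₁.toBasis b₂.toBasis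
        ((B : EE n →L[ℝ] EE n) : EE n →ₗ[ℝ] EE n) =
        Matrix.fromBlocks A₁ (Matrix.of fun i j => inner ℝ (bH i : EE n)
          (B (ι₂ (EuclideanSpace.single j (1 : ℝ))))) 0 D := by
      ext i j
      rw [LinearMap.toMatrix_apply]
      simp only [OrthonormalBasis.coe_toBasis, OrthonormalBasis.coe_toBasis_repr_apply,
        OrthonormalBasis.repr_apply_apply]
      rcases i with i | i <;> rcases j with j | j
      · simp only [hb₁l, hb₂l, Matrix.fromBlocks_apply₁₁, hA₁, Matrix.of_apply]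
        rfl
      · simp only [hb₁r, hb₂l, Matrix.fromBlocks_apply₁₂, Matrix.of_apply]
        rfl
      · simp only [hb₁l, hb₂r, Matrix.fromBlocks_apply₂₁, Matrix.zero_apply]
        exact Submodule.inner_left_of_mem_orthogonal (hMmem _) (bP i).2
      · simp only [hb₁r, hb₂r, Matrix.fromBlocks_apply₂₂, hD, Matrix.of_apply]
        rfl
    have h2 := congrArg Matrix.det h1
    rw [Matrix.det_fromBlocks_zero₂₁] at h2
    have h4 : LinearMap.toMatrix b₁.toBasis b₂.toBasis
        ((B : EE n →L[ℝ] EE n) : EE n →ₗ[ℝ] EE n) =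
        b₂.toBasis.toMatrix b₁.toBasis * LinearMap.toMatrix b₁.toBasis b₁.toBasis
        ((B : EE n →L[ℝ] EE n) : EE n →ₗ[ℝ] EE n) := by
      rw [basis_toMatrix_mul_linearMap_toMatrix]
    rw [← h2, h4, Matrix.det_mul, LinearMap.det_toMatrix, abs_mul, ← Module.Basis.det_apply]
    have h3 := b₂.det_to_matrix_orthonormalBasis_real b₁
    rcases h3 with h3 | h3
    · rw [OrthonormalBasis.coe_toBasis, h3]
      simp
    · rw [OrthonormalBasis.coe_toBasis, h3]
      simp
  have hB0 : LinearMap.det ((B : EE n →L[ℝ] EE n) : EE n →ₗ[ℝ] EE n) ≠ 0 :=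
    B.toLinearEquiv.isUnit_det'.ne_zero
  have hD0 : D.det ≠ 0 := left_ne_zero_of_mul_eq_one hDA'
  have hA20 : A₂.det ≠ 0 := right_ne_zero_of_mul_eq_one hDA'
  have hA10 : A₁.det ≠ 0 := by
    intro h0
    rw [h0, zero_mul, abs_zero, abs_eq_zero] at hBdet
    exact hB0 hBdet
  have e1 : volume {y : EE k | M y ∈ L} =
      ENNReal.ofReal |A₁.det|⁻¹ * volume {x : H | (x : EE n) ∈ L} :=
    taskE_volume H bH L M hMmem hA10
  have e2 : volume {z : EE l | N z ∈ K} =
      ENNReal.ofReal |A₂.det|⁻¹ * volume {x : Hᗮ | (x : EE n) ∈ K} :=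
    taskE_volume Hᗮ bP K N hNmem hA20
  change _ * volume {y : EE k | M y ∈ L} = volume {z : EE l | N z ∈ K}
  rw [e1, e2, h H hfinH, ← mul_assoc, ← ENNReal.ofReal_mul (abs_nonneg _), hBdet]
  congr 2
  have h5 : |A₁.det| ≠ 0 := abs_ne_zero.2 hA10
  have h6 : |A₂.det| ≠ 0 := abs_ne_zero.2 hA20
  have h7 : |D.det| * |A₂.det| = 1 := by rw [← abs_mul, hDA', abs_one]
  rw [abs_mul]
  field_simp
  exact h7

end Pool.Agent.Lib.MP_7548d4_gt
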