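import Pool.Agent.Lib.MP_7548d4_gt.Defs

/-!
# Radial functions and gauges of star bodies
-/

set_option autoImplicit false
open MeasureTheory Metric Set Filter Topology
open scoped Pointwise

namespace Pool.Agent.Lib.MP_7548d4_gt

variable {n : ℕ} {K : Set (EE n)}

theorem radial_smul (K : Set (EE n)) {c : ℝ} (hc : 0 < c) (x : EE n) :
    radial K (c • x) = c⁻¹ * radial K x := by
  unfold radial
  have h : {t : ℝ | 0 ≤ t ∧ t • (c • x) ∈ K} = c⁻¹ • {t : ℝ | 0 ≤ t ∧ t • x ∈ K} := by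
    ext t
    rw [Set.mem_smul_set_iff_inv_smul_mem₀ (inv_ne_zero hc.ne'), inv_inv]
    simp only [mem_ofPred_eq, smul_smul, smul_eq_mul]
    rw [mul_comm t c]
    constructor
    · rintro ⟨h1, h2⟩
      exact ⟨by positivity, h2⟩
    · rintro ⟨h1, h2⟩
      exact ⟨by
        by_contra h0
        push Not at h0
        exact absurd h1 (not_le.mpr (mul_neg_of_pos_of_neg hc h0)), h2⟩
  rw [h, Real.sSup_smul_of_nonneg (inv_nonneg.mpr hc.le), smul_eq_mul]

theorem taskA_unit {x : EE n} (hx : x ≠ 0) : ‖x‖⁻¹ • x ∈ sphere (0 : EE n) 1 := by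
  rw [mem_sphere_zero_iff_norm, norm_smul, norm_inv, norm_norm,
    inv_mul_cancel₀ (norm_ne_zero_iff.mpr hx)]

theorem taskA_radial_eq (K : Set (EE n)) {x : EE n} (hx : x ≠ 0) :
    radial K x = ‖x‖⁻¹ * radial K (‖x‖⁻¹ • x) := by
  have h := norm_pos_iff.mpr hx
  rw [radial_smul K (inv_pos.mpr h), inv_inv, ← mul_assoc, inv_mul_cancel₀ h.ne', one_mul]

theorem IsStarBody.radial_pos (hK : IsStarBody K) {x : EE n} (hx : x ≠ 0) : 0 < radial K x := by
  rw [taskA_radial_eq K hx]
  exact mul_pos (inv_pos.mpr (norm_pos_iff.mpr hx)) (hK.pos _ (taskA_unit hx))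

theorem IsStarBody.smul_mem_iff (hK : IsStarBody K) {x : EE n} (hx : x ≠ 0) {t : ℝ} (ht : 0 ≤ t) :
    t • x ∈ K ↔ t ≤ radial K x := by
  have hpos := hK.radial_pos hx
  obtain ⟨R, hR⟩ := hK.compact.isBounded.exists_norm_le
  have hbdd : BddAbove {t : ℝ | 0 ≤ t ∧ t • x ∈ K} := by
    refine ⟨R / ‖x‖, ?_⟩
    rintro s ⟨hs0, hs⟩
    rw [le_div_iff₀ (norm_pos_iff.mpr hx)]
    have := hR _ hs
    rwa [norm_smul, Real.norm_of_nonneg hs0] at this
  have hclosed : IsClosed {t : ℝ | 0 ≤ t ∧ t • x ∈ K} := by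
    have h1 : IsClosed {t : ℝ | t • x ∈ K} :=
      hK.compact.isClosed.preimage (continuous_id.smul continuous_const)
    exact isClosed_Ici.inter h1
  have hne : {t : ℝ | 0 ≤ t ∧ t • x ∈ K}.Nonempty := by
    by_contra h
    rw [Set.not_nonempty_iff_eq_empty] at h
    unfold radial at hpos
    rw [h, Real.sSup_empty] at hpos
    exact lt_irrefl _ hpos
  constructor
  · intro h
    exact le_csSup hbdd ⟨ht, h⟩
  · intro h
    have hmem : radial K x • x ∈ K := (hclosed.csSup_mem hne hbdd).2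
    have h2 := hK.star hmem (a := 1 - t / radial K x) (b := t / radial K x)
      (by rw [sub_nonneg, div_le_one hpos]; exact h) (by positivity) (by ring)
    rwa [smul_zero, zero_add, smul_smul, div_mul_cancel₀ _ hpos.ne'] at h2

theorem radial_neg (hs : ∀ x ∈ K, -x ∈ K) (x : EE n) : radial K (-x) = radial K x := by
  unfold radial
  congr 1
  ext t
  simp only [mem_ofPred_eq, smul_neg]
  constructor
  · rintro ⟨h1, h2⟩
    exact ⟨h1, by simpa using hs _ h2⟩
  · rintro ⟨h1, h2⟩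
    exact ⟨h1, hs _ h2⟩

theorem taskA_cont_unit : ContinuousOn (fun x : EE n => ‖x‖⁻¹ • x) {x : EE n | x ≠ 0} := by
  have h1 : ContinuousOn (fun x : EE n => ‖x‖⁻¹) {x : EE n | x ≠ 0} := by
    apply ContinuousOn.inv₀ continuous_norm.continuousOn
    intro x hx
    exact norm_ne_zero_iff.mpr hx
  exact h1.smul continuousOn_id

theorem IsStarBody.continuousOn_radial (hK : IsStarBody K) :
    ContinuousOn (radial K) {x : EE n | x ≠ 0} := by
  have h1 : ContinuousOn (fun x : EE n => ‖x‖⁻¹ * radial K (‖x‖⁻¹ • x)) {x : EE n | x ≠ 0} := by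
    apply ContinuousOn.mul
    · apply ContinuousOn.inv₀ continuous_norm.continuousOn
      intro x hx
      exact norm_ne_zero_iff.mpr hx
    · exact hK.cont.comp taskA_cont_unit (fun x hx => taskA_unit hx)
  exact h1.congr (fun x hx => taskA_radial_eq K hx)

theorem gau_zero (K : Set (EE n)) : gau K 0 = 0 := by
  unfold gau radial
  by_cases h : (0 : EE n) ∈ K
  · have h1 : {t : ℝ | 0 ≤ t ∧ t • (0 : EE n) ∈ K} = Ici 0 := by
      ext t
      simp [h]
    rw [h1, Real.sSup_of_not_bddAbove (not_bddAbove_Ici 0), inv_zero]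
  · have h1 : {t : ℝ | 0 ≤ t ∧ t • (0 : EE n) ∈ K} = ∅ := by
      ext t
      simp [h]
    rw [h1, Real.sSup_empty, inv_zero]

theorem gau_smul (K : Set (EE n)) {c : ℝ} (hc : 0 ≤ c) (x : EE n) :
    gau K (c • x) = c * gau K x := by
  rcases hc.eq_or_lt with h | h
  · rw [← h, zero_smul, gau_zero, zero_mul]
  · unfold gau
    rw [radial_smul K h, mul_inv, inv_inv]

theorem taskA_gau_eq (K : Set (EE n)) (x : EE n) :
    gau K x = ‖x‖ * gau K (‖x‖⁻¹ • x) := by
  by_cases hx : x = 0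
  · rw [hx, gau_zero, norm_zero, zero_mul]
  · rw [gau_smul K (inv_nonneg.mpr (norm_nonneg x)), ← mul_assoc,
      mul_inv_cancel₀ (norm_ne_zero_iff.mpr hx), one_mul]

theorem taskA_gau_nonneg (hK : IsStarBody K) (x : EE n) : 0 ≤ gau K x := by
  by_cases hx : x = 0
  · rw [hx, gau_zero]
  · exact inv_nonneg.mpr (hK.radial_pos hx).le

theorem taskA_gau_le (hK : IsStarBody K) : ∃ C : ℝ, 0 < C ∧ ∀ x, gau K x ≤ C * ‖x‖ := by
  have hc : ContinuousOn (gau K) (sphere (0 : EE n) 1) := by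
    apply ContinuousOn.inv₀ hK.cont
    intro x hx
    exact (hK.pos x hx).ne'
  obtain ⟨C, hC⟩ := (isCompact_sphere (0 : EE n) 1).exists_bound_of_continuousOn hc
  refine ⟨max C 1, lt_max_of_lt_right one_pos, fun x => ?_⟩
  by_cases hx : x = 0
  · rw [hx, gau_zero, norm_zero, mul_zero]
  · rw [taskA_gau_eq K x, mul_comm]
    apply mul_le_mul_of_nonneg_right _ (norm_nonneg x)
    exact ((Real.le_norm_self _).trans (hC _ (taskA_unit hx))).trans (le_max_left _ _)

theorem IsStarBody.continuous_gau (hK : IsStarBody K) : Continuous (gau K) := by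
  rw [continuous_iff_continuousAt]
  intro x
  by_cases hx : x = 0
  · rw [hx]
    obtain ⟨C, hC0, hC⟩ := taskA_gau_le hK
    unfold ContinuousAt
    rw [gau_zero]
    apply squeeze_zero (fun y => taskA_gau_nonneg hK y) hC
    have : Continuous (fun y : EE n => C * ‖y‖) := continuous_const.mul continuous_norm
    have h2 := this.tendsto 0
    simpa using h2
  · have hopen : IsOpen {x : EE n | x ≠ 0} := isOpen_ne
    have h1 : ContinuousOn (gau K) {x : EE n | x ≠ 0} := by
      apply ContinuousOn.inv₀ hK.continuousOn_radial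
      intro y hy
      exact (hK.radial_pos hy).ne'
    exact h1.continuousAt (hopen.mem_nhds hx)

theorem IsStarBody.gau_bounds (hn : 1 ≤ n) (hK : IsStarBody K) : ∃ c C : ℝ, 0 < c ∧ 0 < C ∧
    (∀ x, c * ‖x‖ ≤ gau K x) ∧ ∀ x, gau K x ≤ C * ‖x‖ := by
  obtain ⟨C, hC0, hC⟩ := taskA_gau_le hK
  obtain ⟨R, hR⟩ := (isCompact_sphere (0 : EE n) 1).exists_bound_of_continuousOn hK.cont
  refine ⟨(max R 1)⁻¹, C, inv_pos.mpr (lt_max_of_lt_right one_pos), hC0, fun x => ?_, hC⟩
  by_cases hx : x = 0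
  · rw [hx, gau_zero, norm_zero, mul_zero]
  · rw [taskA_gau_eq K x, mul_comm]
    apply mul_le_mul_of_nonneg_left _ (norm_nonneg x)
    unfold gau
    apply inv_anti₀ (hK.pos _ (taskA_unit hx))
    exact ((Real.le_norm_self _).trans (hR _ (taskA_unit hx))).trans (le_max_left _ _)

theorem IsStarBody.mem_iff_gau (hn : 1 ≤ n) (hK : IsStarBody K) (x : EE n) :
    x ∈ K ↔ gau K x ≤ 1 := by
  by_cases hx : x = 0
  · rw [hx, gau_zero]
    refine ⟨fun _ => zero_le_one, fun _ => ?_⟩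
    have hne : ∃ y : EE n, y ≠ 0 := by
      refine ⟨EuclideanSpace.single ⟨0, hn⟩ 1, ?_⟩
      intro h
      have := congrArg norm h
      simp at this
    obtain ⟨y, hy⟩ := hne
    have := (hK.smul_mem_iff hy le_rfl).mpr (hK.radial_pos hy).le
    rwa [zero_smul] at this
  · have h1 := hK.smul_mem_iff hx zero_le_one
    rw [one_smul] at h1
    rw [h1]
    unfold gau
    rw [inv_le_one₀ (hK.radial_pos hx)]

end Pool.Agent.Lib.MP_7548d4_gt
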