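import Pool.Agent.Lib.MP_7548d4_gt.Defs
import Pool.Agent.Lib.MP_7548d4_gt.Polar
import Pool.Agent.Lib.MP_7548d4_gt.Star
import Pool.Agent.Lib.MP_7548d4_gt.OrthAvg
import Pool.Agent.Lib.MP_7548d4_gt.SectionLin

set_option autoImplicit false
open MeasureTheory Metric Set Filter Topology

namespace Pool.Agent.Lib.MP_7548d4_gt

section TaskF

theorem taskF_det_adjoint {n : ℕ} (A : EE n →L[ℝ] EE n) :
    LinearMap.det ((ContinuousLinearMap.adjoint A : EE n →L[ℝ] EE n) : EE n →ₗ[ℝ] EE n) =
      LinearMap.det (A : EE n →ₗ[ℝ] EE n) := by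
  have h1 := ContinuousLinearMap.adjoint_toLinearMap A
  have b := stdOrthonormalBasis ℝ (EE n)
  rw [← h1, ← LinearMap.det_toMatrix b.toBasis, LinearMap.toMatrix_adjoint,
    Matrix.det_conjTranspose, LinearMap.det_toMatrix]
  simp

theorem taskF_det_isometry {n : ℕ} (U : EE n ≃ₗᵢ[ℝ] EE n) :
    |LinearMap.det ((U.toContinuousLinearEquiv : EE n →L[ℝ] EE n) : EE n →ₗ[ℝ] EE n)| = 1 := by
  have h1 := LinearMap.normDet_eq_norm_det (U.toLinearIsometry.toLinearMap)
  rw [LinearIsometry.normDet_eq_one, Real.norm_eq_abs] at h1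
  exact h1.symm

/-- the inverse adjoint as an equivalence -/
noncomputable def taskF_ia {n : ℕ} (B : EE n ≃L[ℝ] EE n) : EE n ≃L[ℝ] EE n :=
  ContinuousLinearEquiv.equivOfInverse
    (ContinuousLinearMap.adjoint (B.symm : EE n →L[ℝ] EE n))
    (ContinuousLinearMap.adjoint (B : EE n →L[ℝ] EE n))
    (fun x => by
      have h := ContinuousLinearMap.adjoint_comp (B.symm : EE n →L[ℝ] EE n)
        (B : EE n →L[ℝ] EE n)
      have h2 : (B.symm : EE n →L[ℝ] EE n) ∘L (B : EE n →L[ℝ] EE n) =
        ContinuousLinearMap.id ℝ (EE n) := by ext x; simp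
      rw [h2, ContinuousLinearMap.adjoint_id] at h
      exact (congrArg (fun f : EE n →L[ℝ] EE n => f x) h).symm)
    (fun x => by
      have h := ContinuousLinearMap.adjoint_comp (B : EE n →L[ℝ] EE n)
        (B.symm : EE n →L[ℝ] EE n)
      have h2 : (B : EE n →L[ℝ] EE n) ∘L (B.symm : EE n →L[ℝ] EE n) =
        ContinuousLinearMap.id ℝ (EE n) := by ext x; simp
      rw [h2, ContinuousLinearMap.adjoint_id] at h
      exact (congrArg (fun f : EE n →L[ℝ] EE n => f x) h).symm)

theorem taskF_ia_apply {n : ℕ} (B : EE n ≃L[ℝ] EE n) (x : EE n) :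
    taskF_ia B x = ContinuousLinearMap.adjoint (B.symm : EE n →L[ℝ] EE n) x := rfl

theorem taskF_ia_symm_apply {n : ℕ} (B : EE n ≃L[ℝ] EE n) (x : EE n) :
    (taskF_ia B).symm x = ContinuousLinearMap.adjoint (B : EE n →L[ℝ] EE n) x := rfl

theorem taskF_det_ia {n : ℕ} (B : EE n ≃L[ℝ] EE n) :
    |LinearMap.det ((taskF_ia B : EE n →L[ℝ] EE n) : EE n →ₗ[ℝ] EE n)|⁻¹ =
      |LinearMap.det ((B : EE n →L[ℝ] EE n) : EE n →ₗ[ℝ] EE n)| := by
  have h1 : LinearMap.det ((taskF_ia B : EE n →L[ℝ] EE n) : EE n →ₗ[ℝ] EE n) =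
      LinearMap.det ((B.symm : EE n →L[ℝ] EE n) : EE n →ₗ[ℝ] EE n) :=
    taskF_det_adjoint (B.symm : EE n →L[ℝ] EE n)
  have h2 : LinearMap.det ((B.symm : EE n →L[ℝ] EE n) : EE n →ₗ[ℝ] EE n) *
      LinearMap.det ((B : EE n →L[ℝ] EE n) : EE n →ₗ[ℝ] EE n) = 1 := by
    rw [← LinearMap.det_comp]
    have : ((B.symm : EE n →L[ℝ] EE n) : EE n →ₗ[ℝ] EE n) ∘ₗ
        ((B : EE n →L[ℝ] EE n) : EE n →ₗ[ℝ] EE n) = LinearMap.id := by
      ext x; simp
    rw [this, LinearMap.det_id]
  rw [h1, ← abs_inv, inv_eq_of_mul_eq_one_right h2]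

theorem taskF_measurable_radial {n : ℕ} {K : Set (EE n)} (hK : IsStarBody K) :
    Measurable (radial K) := by
  refine measurable_of_measurable_on_compl_singleton 0 ?_
  exact (continuousOn_iff_continuous_domRestrict.1 hK.continuousOn_radial).measurable

/-- the set of vectors `y` with `‖y‖ • x ∈ K` -/
theorem taskF_vol {n p : ℕ} (hp : 1 ≤ p) {K : Set (EE n)} (hK : IsStarBody K) {x : EE n}
    (hx : x ≠ 0) :
    volume {y : EE p | ‖y‖ • x ∈ K} = ENNReal.ofReal (kap p) * ENNReal.ofReal (radial K x ^ p) := by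
  have h1 : {y : EE p | ‖y‖ • x ∈ K} = closedBall (0 : EE p) (radial K x) := by
    ext y
    rw [mem_closedBall_zero_iff]
    exact hK.smul_mem_iff hx (norm_nonneg y)
  rw [h1, volume_closedBall_kap p hp _ (hK.radial_pos hx).le, ENNReal.ofReal_mul (kap_pos p).le]

/-- averaging the volume of the sections over the orthogonal group -/
theorem taskF_avg {n p : ℕ} (hp : 1 ≤ p) {K : Set (EE n)} (hK : IsStarBody K)
    (B : EE n ≃L[ℝ] EE n) (ι : EE p →ₗᵢ[ℝ] EE n) {Ω : Type} [MeasurableSpace Ω]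
    (ν : Measure Ω) [IsProbabilityMeasure ν] (U : Ω → (EE n ≃ₗᵢ[ℝ] EE n))
    (hU : Measurable (fun p : Ω × EE n => U p.1 p.2))
    (hav : ∀ (x : EE n) (φ : EE n → ENNReal), Measurable φ →
      ∫⁻ ω, φ (U ω x) ∂ν = (sig n univ)⁻¹ * ∫⁻ θ : SS n, φ (‖x‖ • (θ : EE n)) ∂(sig n)) :
    ∫⁻ ω, volume {y : EE p | B (U ω (ι y)) ∈ K} ∂ν =
      (sig n univ)⁻¹ * (ENNReal.ofReal (kap p) *
        ∫⁻ θ : SS n, ENNReal.ofReal (radial K (B (θ : EE n)) ^ p) ∂(sig n)) := by
  have hKm : MeasurableSet K := hK.compact.isClosed.measurableSet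
  have hBm : Measurable B := B.continuous.measurable
  have hιm : Measurable ι := ι.continuous.measurable
  set χ : EE n → ENNReal := K.indicator 1 with hχ
  have hχm : Measurable χ := measurable_one.indicator hKm
  have e1 : ∀ ω, volume {y : EE p | B (U ω (ι y)) ∈ K} = ∫⁻ y : EE p, χ (B (U ω (ι y))) := by
    intro ω
    have hm : MeasurableSet {y : EE p | B (U ω (ι y)) ∈ K} :=
      (hBm.comp ((U ω).continuous.measurable.comp hιm)) hKm
    rw [← lintegral_indicator_one hm]
    rfl
  simp only [e1]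
  rw [lintegral_lintegral_swap]
  · have e2 : ∀ y : EE p, ∫⁻ ω, χ (B (U ω (ι y))) ∂ν =
        (sig n univ)⁻¹ * ∫⁻ θ : SS n, χ (B (‖y‖ • (θ : EE n))) ∂(sig n) := by
      intro y
      rw [hav (ι y) (fun x => χ (B x)) (hχm.comp hBm), ι.norm_map]
    simp only [e2]
    rw [lintegral_const_mul]
    · congr 1
      rw [lintegral_lintegral_swap]
      · rw [← lintegral_const_mul']
        · apply lintegral_congr
          intro θ
          have hθ : B (θ : EE n) ≠ 0 := by
            intro h0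
            have h1 : (θ : EE n) = 0 := by
              have := congrArg B.symm h0
              simpa using this
            have h2 : ‖(θ : EE n)‖ = 1 := by simp
            rw [h1, norm_zero] at h2
            exact zero_ne_one h2
          rw [← taskF_vol hp hK hθ]
          have hm : MeasurableSet {y : EE p | ‖y‖ • B (θ : EE n) ∈ K} :=
            (measurable_norm.smul_const (B (θ : EE n))) hKm
          rw [← lintegral_indicator_one hm]
          apply lintegral_congr
          intro y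
          rw [map_smul]
          rfl
        · exact ENNReal.ofReal_ne_top
      · refine (hχm.comp ?_).aemeasurable
        refine hBm.comp ?_
        exact (measurable_norm.comp measurable_fst).smul
          (measurable_subtype_coe.comp measurable_snd)
    · refine Measurable.lintegral_prod_right' (f := fun q : EE p × SS n =>
        χ (B (‖q.1‖ • (q.2 : EE n)))) ?_
      refine hχm.comp (hBm.comp ?_)
      exact (measurable_norm.comp measurable_fst).smul
        (measurable_subtype_coe.comp measurable_snd)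
  · refine (hχm.comp (hBm.comp ?_)).aemeasurable
    exact hU.comp (measurable_fst.prodMk (hιm.comp measurable_snd))

/-- embeddings with orthogonal ranges -/
theorem taskF_embeddings {n k l : ℕ} (hn : n = k + l) :
    ∃ (ι₁ : EE k →ₗᵢ[ℝ] EE n) (ι₂ : EE l →ₗᵢ[ℝ] EE n), ∀ y z, inner ℝ (ι₁ y) (ι₂ z) = 0 := by
  subst hn
  refine ⟨{ toFun := fun y => WithLp.toLp 2 (Fin.append (y : Fin k → ℝ) (fun _ => 0)),
            map_add' := ?_, map_smul' := ?_, norm_map' := ?_ },
          { toFun := fun z => WithLp.toLp 2 (Fin.append (fun _ => 0) (z : Fin l → ℝ)),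
            map_add' := ?_, map_smul' := ?_, norm_map' := ?_ }, ?_⟩
  · intro x y
    ext i
    refine Fin.addCases (fun i => ?_) (fun i => ?_) i <;> simp
  · intro c x
    ext i
    refine Fin.addCases (fun i => ?_) (fun i => ?_) i <;> simp
  · intro x
    simp [EuclideanSpace.norm_eq, Fin.sum_univ_add]
  · intro x y
    ext i
    refine Fin.addCases (fun i => ?_) (fun i => ?_) i <;> simp
  · intro c x
    ext i
    refine Fin.addCases (fun i => ?_) (fun i => ?_) i <;> simp
  · intro x
    simp [EuclideanSpace.norm_eq, Fin.sum_univ_add]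
  · intro y z
    simp [PiLp.inner_apply, Fin.sum_univ_add]

theorem average_identity {n k l : ℕ} (hn : n = k + l) (hk : 1 ≤ k) (hl : 1 ≤ l)
    {K L : Set (EE n)} (hK : IsStarBody K) (hL : IsStarBody L)
    (h : IsKIntersectionBody k K L) (B : EE n ≃L[ℝ] EE n) :
    kap k * ∫ θ : SS n, radial L θ ^ k * Efun l B θ ∂(sig n) =
      kap l * ∫ θ : SS n, radial K θ ^ l * Ehat k B θ ∂(sig n) := by
  have hn1 : 1 ≤ n := by omega
  obtain ⟨ι₁, ι₂, hι⟩ := taskF_embeddings hn
  obtain ⟨Ω, mΩ, ν, U, hν, hU, hav⟩ := exists_orth_avg n hn1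
  set dB : ℝ := |LinearMap.det ((B : EE n →L[ℝ] EE n) : EE n →ₗ[ℝ] EE n)| with hdB
  have hdB0 : 0 < dB := by
    rw [hdB, abs_pos]
    exact (LinearEquiv.isUnit_det' B.toLinearEquiv).ne_zero
  -- the pointwise identity
  have h1 : ∀ ω, ENNReal.ofReal dB * volume {y : EE k | B (U ω (ι₁ y)) ∈ L} =
      volume {z : EE l | taskF_ia B (U ω (ι₂ z)) ∈ K} := by
    intro ω
    have h2 := section_linear hn h ι₁ ι₂ hι ((U ω).toContinuousLinearEquiv.trans B)
    have h3 : |LinearMap.det ((((U ω).toContinuousLinearEquiv.trans B : EE n ≃L[ℝ] EE n) :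
        EE n →L[ℝ] EE n) : EE n →ₗ[ℝ] EE n)| = dB := by
      have : ((((U ω).toContinuousLinearEquiv.trans B : EE n ≃L[ℝ] EE n) :
          EE n →L[ℝ] EE n) : EE n →ₗ[ℝ] EE n) = ((B : EE n →L[ℝ] EE n) : EE n →ₗ[ℝ] EE n) ∘ₗ
          (((U ω).toContinuousLinearEquiv : EE n →L[ℝ] EE n) : EE n →ₗ[ℝ] EE n) := rfl
      rw [this, LinearMap.det_comp, abs_mul, taskF_det_isometry, mul_one]
    rw [h3] at h2
    have h4 : ∀ x, ContinuousLinearMap.adjoint
        (((U ω).toContinuousLinearEquiv.trans B).symm : EE n →L[ℝ] EE n) x =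
        taskF_ia B (U ω x) := by
      intro x
      have h5 : (((U ω).toContinuousLinearEquiv.trans B).symm : EE n →L[ℝ] EE n) =
          ((U ω).symm.toContinuousLinearEquiv : EE n →L[ℝ] EE n) ∘L
            (B.symm : EE n →L[ℝ] EE n) := rfl
      rw [h5, ContinuousLinearMap.adjoint_comp, taskF_ia_apply]
      have h6 : ContinuousLinearMap.adjoint
          ((U ω).symm.toContinuousLinearEquiv : EE n →L[ℝ] EE n) =
          ((U ω).toContinuousLinearEquiv : EE n →L[ℝ] EE n) := by
        have := LinearIsometryEquiv.adjoint_eq_symm (U ω).symm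
        rw [LinearIsometryEquiv.symm_symm] at this
        exact this
      rw [h6]
      rfl
    simp only [h4] at h2
    exact h2
  -- integrate
  have h2 : ENNReal.ofReal dB * ∫⁻ ω, volume {y : EE k | B (U ω (ι₁ y)) ∈ L} ∂ν =
      ∫⁻ ω, volume {z : EE l | taskF_ia B (U ω (ι₂ z)) ∈ K} ∂ν := by
    rw [← lintegral_const_mul' _ _ ENNReal.ofReal_ne_top]
    exact lintegral_congr h1
  rw [taskF_avg hk hL B ι₁ ν U hU hav, taskF_avg hl hK (taskF_ia B) ι₂ ν U hU hav] at h2
  -- change of variables on the sphere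
  have hc1 := sphere_cov hn1 k (by omega) B (fun x => ENNReal.ofReal (radial L x ^ k))
    ((taskF_measurable_radial hL).pow_const k).ennreal_ofReal (fun r hr x => by
      rw [radial_smul L hr, mul_pow, inv_pow, ENNReal.ofReal_mul (by positivity)])
  have hc2 := sphere_cov hn1 l (by omega) (taskF_ia B) (fun x => ENNReal.ofReal (radial K x ^ l))
    ((taskF_measurable_radial hK).pow_const l).ennreal_ofReal (fun r hr x => by
      rw [radial_smul K hr, mul_pow, inv_pow, ENNReal.ofReal_mul (by positivity)])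
  have hnk : n - k = l := by omega
  have hnl : n - l = k := by omega
  rw [hnk] at hc1
  rw [hnl, taskF_det_ia] at hc2
  simp only [taskF_ia_symm_apply] at hc2
  rw [hc1, hc2, ← hdB] at h2
  -- positivity of the radial functions on the sphere
  have hpos : ∀ (M : Set (EE n)), IsStarBody M → ∀ θ : SS n, 0 < radial M θ :=
    fun M hM θ => hM.pos θ θ.2
  have hne : ∀ θ : SS n, (θ : EE n) ≠ 0 := by
    intro θ h1
    have h2 : ‖(θ : EE n)‖ = 1 := by simp
    rw [h1, norm_zero] at h2
    exact zero_ne_one h2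
  have hI1 : ∫ θ : SS n, radial L θ ^ k * Efun l B θ ∂(sig n) =
      (∫⁻ θ : SS n, ENNReal.ofReal (radial L θ ^ k) *
        ENNReal.ofReal ((‖B.symm (θ : EE n)‖ ^ l)⁻¹) ∂(sig n)).toReal := by
    rw [integral_eq_lintegral_of_nonneg_ae]
    · congr 1
      apply lintegral_congr
      intro θ
      rw [← ENNReal.ofReal_mul (by have := hpos L hL θ; positivity)]
      rfl
    · refine Eventually.of_forall fun θ => ?_
      have := hpos L hL θ
      unfold Efun
      positivity
    · refine Measurable.aestronglyMeasurable ?_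
      refine ((((taskF_measurable_radial hL).pow_const k)).comp measurable_subtype_coe).mul ?_
      unfold Efun
      exact (((B.symm.continuous.measurable.comp measurable_subtype_coe).norm).pow_const l).inv
  have hI2 : ∫ θ : SS n, radial K θ ^ l * Ehat k B θ ∂(sig n) =
      (ENNReal.ofReal dB * ∫⁻ θ : SS n, ENNReal.ofReal (radial K θ ^ l) *
        ENNReal.ofReal ((‖ContinuousLinearMap.adjoint (B : EE n →L[ℝ] EE n) (θ : EE n)‖ ^ k)⁻¹)
        ∂(sig n)).toReal := by
    rw [integral_eq_lintegral_of_nonneg_ae, ← lintegral_const_mul' _ _ ENNReal.ofReal_ne_top]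
    · congr 1
      apply lintegral_congr
      intro θ
      rw [← ENNReal.ofReal_mul (by have := hpos K hK θ; positivity), ← ENNReal.ofReal_mul hdB0.le]
      congr 1
      unfold Ehat
      ring
    · refine Eventually.of_forall fun θ => ?_
      have := hpos K hK θ
      unfold Ehat
      positivity
    · refine Measurable.aestronglyMeasurable ?_
      refine ((((taskF_measurable_radial hK).pow_const l)).comp measurable_subtype_coe).mul ?_
      unfold Ehat
      exact ((((ContinuousLinearMap.continuous _).measurable.comp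
        measurable_subtype_coe).norm).pow_const k).inv.const_mul _
  rw [hI1, hI2]
  set I1 := ∫⁻ θ : SS n, ENNReal.ofReal (radial L θ ^ k) *
        ENNReal.ofReal ((‖B.symm (θ : EE n)‖ ^ l)⁻¹) ∂(sig n) with hI1'
  set I2 := ∫⁻ θ : SS n, ENNReal.ofReal (radial K θ ^ l) *
        ENNReal.ofReal ((‖ContinuousLinearMap.adjoint (B : EE n →L[ℝ] EE n) (θ : EE n)‖ ^ k)⁻¹)
        ∂(sig n) with hI2'
  -- cancel the total mass
  have hs0 : (sig n univ)⁻¹ ≠ 0 := ENNReal.inv_ne_zero.2 (measure_ne_top _ _)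
  have hs1 : (sig n univ)⁻¹ ≠ ⊤ := by
    rw [ENNReal.inv_ne_top, sig_univ hn1]
    have := kap_pos n
    have hn' : (0 : ℝ) < n := by exact_mod_cast hn1
    simp only [ne_eq, ENNReal.ofReal_eq_zero, not_le]
    positivity
  have hdd : ENNReal.ofReal dB * ENNReal.ofReal dB⁻¹ = 1 := by
    rw [← ENNReal.ofReal_mul hdB0.le, mul_inv_cancel₀ hdB0.ne', ENNReal.ofReal_one]
  have h3 : (sig n univ)⁻¹ * (ENNReal.ofReal (kap k) * I1) =
      (sig n univ)⁻¹ * (ENNReal.ofReal (kap l) * (ENNReal.ofReal dB * I2)) := by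
    rw [← h2]
    calc (sig n univ)⁻¹ * (ENNReal.ofReal (kap k) * I1) =
        (ENNReal.ofReal dB * ENNReal.ofReal dB⁻¹) *
          ((sig n univ)⁻¹ * (ENNReal.ofReal (kap k) * I1)) := by rw [hdd, one_mul]
      _ = _ := by ring
  have h4 := (ENNReal.mul_right_inj hs0 hs1).1 h3
  have h5 := congrArg ENNReal.toReal h4
  rw [ENNReal.toReal_mul, ENNReal.toReal_mul (a := ENNReal.ofReal (kap l)),
    ENNReal.toReal_ofReal (kap_pos k).le, ENNReal.toReal_ofReal (kap_pos l).le] at h5
  exact h5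
end TaskF

end Pool.Agent.Lib.MP_7548d4_gt
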