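import Pool.Agent.Lib.MP_7548d4_gt.Defs

set_option autoImplicit false
open MeasureTheory Metric Set Filter Topology

namespace Pool.Agent.Lib.MP_7548d4_gt

section TaskC

theorem taskC_exp (F : ℝ → ENNReal) :
    ∫⁻ r in Ioi (0 : ℝ), F r * ENNReal.ofReal r⁻¹ = ∫⁻ u : ℝ, F (Real.exp u) := by
  have himg : Real.exp '' univ = Ioi 0 := by rw [image_univ, Real.range_exp]
  have h := lintegral_image_eq_lintegral_abs_deriv_mul (s := univ) (f := Real.exp)
    (f' := Real.exp) MeasurableSet.univ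
    (fun x _ => (Real.hasDerivAt_exp x).hasDerivWithinAt)
    Real.exp_injective.injOn (fun r => F r * ENNReal.ofReal r⁻¹)
  rw [himg, Measure.restrict_univ] at h
  rw [h]
  apply lintegral_congr
  intro u
  have hu := Real.exp_pos u
  rw [abs_of_pos hu, mul_comm, mul_assoc, ← ENNReal.ofReal_mul (by positivity),
    inv_mul_cancel₀ hu.ne', ENNReal.ofReal_one, mul_one]

theorem taskC_mul (F : ℝ → ENNReal) (c : ℝ) (hc : 0 < c) :
    ∫⁻ u : ℝ, F (Real.exp u * c) = ∫⁻ u : ℝ, F (Real.exp u) := by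
  have h : ∀ u, F (Real.exp u * c) = F (Real.exp (u + Real.log c)) := by
    intro u
    rw [Real.exp_add, Real.exp_log hc]
  simp_rw [h]
  exact lintegral_add_right_eq_self (fun u => F (Real.exp u)) (Real.log c)

theorem taskC_inv (F : ℝ → ENNReal) (c : ℝ) (hc : 0 < c) :
    ∫⁻ u : ℝ, F (Real.exp (-u) * c) = ∫⁻ u : ℝ, F (Real.exp u) := by
  rw [← taskC_mul F c hc]
  exact lintegral_neg_eq_self (fun u => F (Real.exp u * c))

theorem cut_lemma {X : Type*} [NormedAddCommGroup X] [NormedSpace ℝ X] [FiniteDimensional ℝ X]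
    [MeasurableSpace X] [BorelSpace X] (μ : Measure X) [μ.IsAddHaarMeasure]
    (H : X → ENNReal) (hH : Measurable H)
    (hhom : ∀ r : ℝ, 0 < r → ∀ x, H (r • x) = ENNReal.ofReal ((r ^ Module.finrank ℝ X)⁻¹) * H x)
    (p p' : X → ℝ) (hp : Measurable p) (hp' : Measurable p')
    (hp0 : ∀ᵐ x ∂μ, 0 < p x) (hp0' : ∀ᵐ x ∂μ, 0 < p' x)
    (hph : ∀ r : ℝ, 0 < r → ∀ x, p (r • x) = r * p x)
    (hph' : ∀ r : ℝ, 0 < r → ∀ x, p' (r • x) = r * p' x)
    (ψ : ℝ → ENNReal) (hψ : Measurable ψ)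
    (hψ0 : ∫⁻ r in Ioi (0 : ℝ), ψ r * ENNReal.ofReal r⁻¹ ≠ 0)
    (hψ1 : ∫⁻ r in Ioi (0 : ℝ), ψ r * ENNReal.ofReal r⁻¹ ≠ ⊤) :
    ∫⁻ x, H x * ψ (p x) ∂μ = ∫⁻ x, H x * ψ (p' x) ∂μ := by
  rw [taskC_exp] at hψ0 hψ1
  set I : ENNReal := ∫⁻ u : ℝ, ψ (Real.exp u) with hI
  have e1 : (∫⁻ x, H x * ψ (p x) ∂μ) * I =
      ∫⁻ x, (∫⁻ u : ℝ, H x * ψ (p x) * ψ (Real.exp u * p' x)) ∂μ := by
    rw [← lintegral_mul_const' _ _ hψ1]
    apply lintegral_congr_ae
    filter_upwards [hp0'] with x hx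
    rw [lintegral_const_mul _ (by fun_prop), taskC_mul ψ _ hx]
  have e2 : (∫⁻ x, H x * ψ (p' x) ∂μ) * I =
      ∫⁻ x, (∫⁻ u : ℝ, H x * ψ (p' x) * ψ (Real.exp (-u) * p x)) ∂μ := by
    rw [← lintegral_mul_const' _ _ hψ1]
    apply lintegral_congr_ae
    filter_upwards [hp0] with x hx
    rw [lintegral_const_mul _ (by fun_prop), taskC_inv ψ _ hx]
  have e3 : (∫⁻ x, H x * ψ (p x) ∂μ) * I = (∫⁻ x, H x * ψ (p' x) ∂μ) * I := by
    have s1 := lintegral_lintegral_swap (μ := μ) (ν := (volume : Measure ℝ))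
      (f := fun x u => H x * ψ (p x) * ψ (Real.exp u * p' x)) (by fun_prop)
    have s2 := lintegral_lintegral_swap (μ := μ) (ν := (volume : Measure ℝ))
      (f := fun x u => H x * ψ (p' x) * ψ (Real.exp (-u) * p x)) (by fun_prop)
    rw [e1, e2, s1, s2]
    apply lintegral_congr
    intro u
    set G : X → ENNReal := fun x => H x * ψ (p x) * ψ (Real.exp u * p' x) with hG
    have hGm : Measurable G := by fun_prop
    set r : ℝ := Real.exp (-u) with hr
    have hr0 : 0 < r := Real.exp_pos _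
    have hmap := Measure.map_addHaar_smul μ hr0.ne'
    have h1 : ∫⁻ y, G (r • y) ∂μ =
        ENNReal.ofReal ((r ^ Module.finrank ℝ X)⁻¹) * ∫⁻ x, G x ∂μ := by
      have h2 := lintegral_map (μ := μ) hGm (measurable_const_smul r)
      rw [hmap, lintegral_smul_measure, abs_of_pos (by positivity)] at h2
      rw [← h2]
      rfl
    have h3 : ∀ y, G (r • y) = ENNReal.ofReal ((r ^ Module.finrank ℝ X)⁻¹) *
        (H y * ψ (p' y) * ψ (r * p y)) := by
      intro y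
      simp only [hG]
      rw [hhom r hr0, hph r hr0, hph' r hr0, ← mul_assoc (Real.exp u), hr, ← Real.exp_add,
        add_neg_cancel, Real.exp_zero, one_mul]
      ring
    simp_rw [h3] at h1
    rw [lintegral_const_mul _ (by fun_prop)] at h1
    have h4 : ENNReal.ofReal ((r ^ Module.finrank ℝ X)⁻¹) ≠ 0 := by
      rw [Ne, ENNReal.ofReal_eq_zero, not_le]
      positivity
    exact ((ENNReal.mul_right_inj h4 ENNReal.ofReal_ne_top).1 h1).symm
  exact (ENNReal.mul_left_inj hψ0 hψ1).1 e3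

end TaskC

end Pool.Agent.Lib.MP_7548d4_gt
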