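import Mathlib

/-!
# Star bodies, `k`-intersection bodies and the multilinear form
-/

set_option autoImplicit false
open MeasureTheory Metric Set

namespace Pool.Agent.Lib.MP_7548d4_gt

/-- Euclidean space -/
abbrev EE (n : ℕ) := EuclideanSpace ℝ (Fin n)

/-- the unit sphere -/
abbrev SS (n : ℕ) := sphere (0 : EE n) 1

/-- the surface measure of the unit sphere -/
noncomputable def sig (n : ℕ) : Measure (SS n) := (volume : Measure (EE n)).toSphere

instance (n : ℕ) : IsFiniteMeasure (sig n) := by unfold sig; infer_instance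

/-- the radial function of a set -/
noncomputable def radial {n : ℕ} (K : Set (EE n)) (x : EE n) : ℝ := sSup {t : ℝ | 0 ≤ t ∧ t • x ∈ K}

/-- compact sets which are star-shaped with respect to the origin, with a positive continuous
radial function -/
structure IsStarBody {n : ℕ} (K : Set (EE n)) : Prop where
  compact : IsCompact K
  star : StarConvex ℝ 0 K
  pos : ∀ x ∈ sphere (0 : EE n) 1, 0 < radial K x
  cont : ContinuousOn (radial K) (sphere (0 : EE n) 1)

/-- `L` is the `k`-intersection body of `K` -/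
def IsKIntersectionBody {n : ℕ} (k : ℕ) (K L : Set (EE n)) : Prop :=
  ∀ H : Submodule ℝ (EE n), Module.finrank ℝ H = k →
    volume {x : Hᗮ | (x : EE n) ∈ K} = volume {x : H | (x : EE n) ∈ L}

/-- the volume of the unit ball -/
noncomputable def kap (p : ℕ) : ℝ := Real.pi ^ ((p : ℝ) / 2) / Real.Gamma (1 + (p : ℝ) / 2)

/-- the gauge function of a set -/
noncomputable def gau {n : ℕ} (K : Set (EE n)) (x : EE n) : ℝ := (radial K x)⁻¹

/-- the test functions -/
noncomputable def Efun {n : ℕ} (l : ℕ) (B : EE n ≃L[ℝ] EE n) (x : EE n) : ℝ := (‖B.symm x‖ ^ l)⁻¹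

/-- the transforms of the test functions -/
noncomputable def Ehat {n : ℕ} (k : ℕ) (B : EE n ≃L[ℝ] EE n) (x : EE n) : ℝ :=
  |LinearMap.det ((B : EE n →L[ℝ] EE n) : EE n →ₗ[ℝ] EE n)| *
    (‖ContinuousLinearMap.adjoint (B : EE n →L[ℝ] EE n) x‖ ^ k)⁻¹

/-- pairs consisting of a test function and its transform, as continuous functions -/
def gens {n : ℕ} (k l : ℕ) : Set (C(SS n, ℝ) × C(SS n, ℝ)) :=
  {P | ∃ B : EE n ≃L[ℝ] EE n, (∀ θ : SS n, P.1 θ = Efun l B θ) ∧ ∀ θ : SS n, P.2 θ = Ehat k B θ}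

/-- the closed linear relation spanned by the test functions -/
noncomputable def Rel (n k l : ℕ) : Submodule ℝ (C(SS n, ℝ) × C(SS n, ℝ)) :=
  (Submodule.span ℝ (gens (n := n) k l)).topologicalClosure

open Classical in
/-- extension of a function on the sphere to the space, constant on rays -/
noncomputable def ext {n : ℕ} (f : C(SS n, ℝ)) (x : EE n) : ℝ :=
  if h : ‖(‖x‖⁻¹ • x : EE n)‖ = 1 then f ⟨‖x‖⁻¹ • x, by simpa using h⟩ else 0

/-- the multilinear form -/
noncomputable def Lam {n : ℕ} (l m : ℕ) (f : Fin (m + 1) → C(SS n, ℝ)) : ℝ :=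
  ∫ z : Fin m → EE n, Real.exp (-‖∑ i, z i‖ ^ 2) * ext (f 0) (∑ i, z i) *
    ∏ i : Fin m, ((‖z i‖ ^ l)⁻¹ * ext (f i.succ) (z i))

end Pool.Agent.Lib.MP_7548d4_gt
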