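import Pool.Agent.Lib.MP_7548d4_gt.Defs

/-!
# The Gaussian integral on a hyperplane, by the Fourier transform
-/

set_option autoImplicit false
open MeasureTheory Metric Set Filter Topology

namespace Pool.Agent.Lib.MP_7548d4_gt

/-- the absolute value of the determinant -/
noncomputable def taskJ_det {n : ℕ} (B : EE n ≃L[ℝ] EE n) : ℝ :=
  |LinearMap.det ((B : EE n →L[ℝ] EE n) : EE n →ₗ[ℝ] EE n)|

theorem taskJ_det_ne {n : ℕ} (B : EE n ≃L[ℝ] EE n) :
    LinearMap.det ((B : EE n →L[ℝ] EE n) : EE n →ₗ[ℝ] EE n) ≠ 0 := by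
  have h := LinearEquiv.det_mul_det_symm B.toLinearEquiv
  intro h0
  have h1 : LinearMap.det (B.toLinearEquiv : EE n →ₗ[ℝ] EE n) = 0 := h0
  rw [h1, zero_mul] at h
  exact zero_ne_one h

theorem taskJ_det_pos {n : ℕ} (B : EE n ≃L[ℝ] EE n) : 0 < taskJ_det B :=
  abs_pos.2 (taskJ_det_ne B)

theorem taskJ_det_symm {n : ℕ} (B : EE n ≃L[ℝ] EE n) :
    taskJ_det B.symm = (taskJ_det B)⁻¹ := by
  have h := LinearEquiv.det_mul_det_symm B.toLinearEquiv
  have h1 : taskJ_det B * taskJ_det B.symm = 1 := by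
    rw [taskJ_det, taskJ_det, ← abs_mul]
    have h2 : LinearMap.det ((B : EE n →L[ℝ] EE n) : EE n →ₗ[ℝ] EE n) *
      LinearMap.det ((B.symm : EE n →L[ℝ] EE n) : EE n →ₗ[ℝ] EE n) = 1 := h
    rw [h2, abs_one]
  exact eq_inv_of_mul_eq_one_right h1

theorem taskJ_det_adj {n : ℕ} (A : EE n →L[ℝ] EE n) :
    LinearMap.det ((ContinuousLinearMap.adjoint A : EE n →L[ℝ] EE n) : EE n →ₗ[ℝ] EE n) =
      LinearMap.det (A : EE n →ₗ[ℝ] EE n) := by
  let b := stdOrthonormalBasis ℝ (EE n)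
  rw [← LinearMap.det_toMatrix b.toBasis, ← LinearMap.det_toMatrix b.toBasis (A : EE n →ₗ[ℝ] EE n),
    ← ContinuousLinearMap.adjoint_toLinearMap, LinearMap.toMatrix_adjoint,
    Matrix.det_conjTranspose]
  simp

/-- the adjoint of an isomorphism -/
noncomputable def taskJ_adj {n : ℕ} (B : EE n ≃L[ℝ] EE n) : EE n ≃L[ℝ] EE n :=
  ContinuousLinearEquiv.equivOfInverse (ContinuousLinearMap.adjoint (B : EE n →L[ℝ] EE n))
    (ContinuousLinearMap.adjoint (B.symm : EE n →L[ℝ] EE n))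
    (fun x => by
      refine ext_inner_right ℝ fun y => ?_
      rw [ContinuousLinearMap.adjoint_inner_left, ContinuousLinearMap.adjoint_inner_left]
      simp)
    (fun x => by
      refine ext_inner_right ℝ fun y => ?_
      rw [ContinuousLinearMap.adjoint_inner_left, ContinuousLinearMap.adjoint_inner_left]
      simp)

theorem taskJ_adj_apply {n : ℕ} (B : EE n ≃L[ℝ] EE n) (x : EE n) :
    taskJ_adj B x = ContinuousLinearMap.adjoint (B : EE n →L[ℝ] EE n) x := rfl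

theorem taskJ_adj_symm_apply {n : ℕ} (B : EE n ≃L[ℝ] EE n) (x : EE n) :
    (taskJ_adj B).symm x = ContinuousLinearMap.adjoint (B.symm : EE n →L[ℝ] EE n) x := rfl

theorem taskJ_det_adj' {n : ℕ} (B : EE n ≃L[ℝ] EE n) : taskJ_det (taskJ_adj B) = taskJ_det B := by
  rw [taskJ_det, taskJ_det, ← taskJ_det_adj (B : EE n →L[ℝ] EE n)]
  rfl

theorem taskJ_map {n : ℕ} (B : EE n ≃L[ℝ] EE n) :
    Measure.map (B : EE n → EE n) (volume : Measure (EE n)) =
      ENNReal.ofReal (taskJ_det B)⁻¹ • (volume : Measure (EE n)) := by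
  have h := Measure.map_linearMap_addHaar_eq_smul_addHaar (volume : Measure (EE n))
    (taskJ_det_ne B)
  rw [abs_inv] at h
  exact h

theorem taskJ_emb {n : ℕ} (B : EE n ≃L[ℝ] EE n) : MeasurableEmbedding (B : EE n → EE n) :=
  B.toHomeomorph.measurableEmbedding

theorem taskJ_integral {n : ℕ} (B : EE n ≃L[ℝ] EE n) (g : EE n → ℂ) :
    ∫ z, g (B.symm z) = (taskJ_det B : ℂ) * ∫ y, g y := by
  have h1 : ∫ y, g y = ∫ y, g (B.symm (B y)) := by simp
  have h2 := (taskJ_emb B).integral_map (μ := (volume : Measure (EE n)))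
    (fun z => g (B.symm z))
  rw [taskJ_map, integral_smul_measure] at h2
  rw [h1, ← h2, ENNReal.toReal_ofReal (inv_nonneg.2 (taskJ_det_pos B).le)]
  rw [Complex.real_smul, ← mul_assoc, ← Complex.ofReal_mul,
    mul_inv_cancel₀ (taskJ_det_pos B).ne', Complex.ofReal_one, one_mul]

theorem taskJ_integrable {n : ℕ} (B : EE n ≃L[ℝ] EE n) {g : EE n → ℂ} (hg : Integrable g) :
    Integrable (fun z => g (B.symm z)) := by
  have h : Integrable g (Measure.map (B.symm : EE n → EE n) (volume : Measure (EE n))) := by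
    rw [taskJ_map]
    exact hg.smul_measure ENNReal.ofReal_ne_top
  exact (taskJ_emb B.symm).integrable_map_iff.1 h

/-- the Gaussian with a phase -/
noncomputable def taskJ_G {n : ℕ} (B : EE n ≃L[ℝ] EE n) (ξ z : EE n) : ℂ :=
  Complex.exp (-1 * ‖B.symm z‖ ^ 2 + 2 * Complex.I * (inner ℝ ξ z : ℝ))

theorem taskJ_G_eq {n : ℕ} (B : EE n ≃L[ℝ] EE n) (ξ z : EE n) :
    taskJ_G B ξ z = (fun y : EE n => Complex.exp (-1 * ‖y‖ ^ 2 + 2 * Complex.I *
      (inner ℝ (ContinuousLinearMap.adjoint (B : EE n →L[ℝ] EE n) ξ) y : ℝ))) (B.symm z) := by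
  simp only [taskJ_G, ContinuousLinearMap.adjoint_inner_left]
  simp

theorem taskJ_G_integrable {n : ℕ} (B : EE n ≃L[ℝ] EE n) (ξ : EE n) :
    Integrable (taskJ_G B ξ) := by
  have h1 := GaussianFourier.integrable_cexp_neg_mul_sq_norm_add (b := 1) (by norm_num)
    (2 * Complex.I) (ContinuousLinearMap.adjoint (B : EE n →L[ℝ] EE n) ξ)
  refine (taskJ_integrable B h1).congr (Eventually.of_forall fun z => ?_)
  exact (taskJ_G_eq B ξ z).symm

theorem taskJ_ft {n : ℕ} (B : EE n ≃L[ℝ] EE n) (ξ : EE n) :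
    ∫ z, taskJ_G B ξ z = ((Real.pi ^ ((n : ℝ) / 2) * taskJ_det B *
      Real.exp (-‖ContinuousLinearMap.adjoint (B : EE n →L[ℝ] EE n) ξ‖ ^ 2) : ℝ) : ℂ) := by
  simp only [taskJ_G_eq]
  rw [taskJ_integral B (fun y : EE n => Complex.exp (-1 * ‖y‖ ^ 2 + 2 * Complex.I *
      (inner ℝ (ContinuousLinearMap.adjoint (B : EE n →L[ℝ] EE n) ξ) y : ℝ)))]
  have h1 := GaussianFourier.integral_cexp_neg_mul_sq_norm_add (b := 1) (by norm_num)
    (2 * Complex.I) (ContinuousLinearMap.adjoint (B : EE n →L[ℝ] EE n) ξ)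
  rw [h1, div_one, finrank_euclideanSpace_fin, mul_pow, Complex.I_sq]
  push_cast
  rw [Complex.ofReal_cpow Real.pi_pos.le]
  push_cast
  have h2 : (2 ^ 2 * -1 * (‖ContinuousLinearMap.adjoint (B : EE n →L[ℝ] EE n) ξ‖ : ℂ) ^ 2 /
      (4 * 1)) = -(‖ContinuousLinearMap.adjoint (B : EE n →L[ℝ] EE n) ξ‖ : ℂ) ^ 2 := by
    ring
  rw [h2]
  ring

theorem taskJ_norm_G {n : ℕ} (B : EE n ≃L[ℝ] EE n) (ξ z : EE n) :
    ‖taskJ_G B ξ z‖ = Real.exp (-‖B.symm z‖ ^ 2) := by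
  rw [taskJ_G, Complex.norm_exp]
  congr 1
  rw [Complex.add_re]
  have h1 : (-1 * (‖B.symm z‖ : ℂ) ^ 2) = ((-‖B.symm z‖ ^ 2 : ℝ) : ℂ) := by
    push_cast
    ring
  have h2 : (2 * Complex.I * ((inner ℝ ξ z : ℝ) : ℂ)) = ((2 * inner ℝ ξ z : ℝ) : ℂ) * Complex.I := by
    push_cast
    ring
  rw [h1, h2, Complex.ofReal_re, Complex.re_ofReal_mul, Complex.I_re, mul_zero, add_zero]

theorem taskJ_G_zero {n : ℕ} (B : EE n ≃L[ℝ] EE n) (z : EE n) :
    taskJ_G B 0 z = ((Real.exp (-‖B.symm z‖ ^ 2) : ℝ) : ℂ) := by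
  rw [taskJ_G, inner_zero_left]
  push_cast
  congr 1
  ring

theorem taskJ_G_phase {n : ℕ} (B : EE n ≃L[ℝ] EE n) (ξ z : EE n) :
    taskJ_G B ξ z = taskJ_G B 0 z * Complex.exp (2 * Complex.I * (inner ℝ ξ z : ℝ)) := by
  rw [taskJ_G, taskJ_G, ← Complex.exp_add, inner_zero_left]
  congr 1
  push_cast
  ring

theorem taskJ_continuous {n : ℕ} (B : EE n ≃L[ℝ] EE n) :
    Continuous (fun p : EE n × EE n => taskJ_G B p.1 p.2) := by
  unfold taskJ_G
  fun_prop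

theorem taskJ_ft' {n : ℕ} (B0 : EE n ≃L[ℝ] EE n) (x : EE n) :
    ((Real.exp (-‖B0.symm x‖ ^ 2) : ℝ) : ℂ) =
      (((Real.pi ^ ((n : ℝ) / 2))⁻¹ * taskJ_det B0 : ℝ) : ℂ) *
        ∫ ξ, taskJ_G (taskJ_adj B0).symm x ξ := by
  rw [taskJ_ft, taskJ_det_symm, taskJ_det_adj']
  have h1 : ContinuousLinearMap.adjoint ((taskJ_adj B0).symm : EE n →L[ℝ] EE n) x =
      B0.symm x := by
    refine ext_inner_right ℝ fun y => ?_
    rw [ContinuousLinearMap.adjoint_inner_left]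
    change inner ℝ x (ContinuousLinearMap.adjoint (B0.symm : EE n →L[ℝ] EE n) y) = _
    rw [ContinuousLinearMap.adjoint_inner_right]
    rfl
  rw [h1, ← Complex.ofReal_mul]
  congr 1
  have h2 : Real.pi ^ ((n : ℝ) / 2) ≠ 0 := (Real.rpow_pos_of_pos Real.pi_pos _).ne'
  have h3 := (taskJ_det_pos B0).ne'
  field_simp

theorem taskJ_int1 {n m : ℕ} (B0 : EE n ≃L[ℝ] EE n) (B : Fin m → (EE n ≃L[ℝ] EE n)) :
    Integrable (fun p : (Fin m → EE n) × EE n =>
      (∏ i, taskJ_G (B i) 0 (p.1 i)) * taskJ_G B0 (∑ i, p.1 i) p.2)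
      ((volume : Measure (Fin m → EE n)).prod (volume : Measure (EE n))) := by
  have h1 : Integrable (fun z : Fin m → EE n => ∏ i, taskJ_G (B i) 0 (z i)) :=
    Integrable.fintype_prod (fun i => taskJ_G_integrable (B i) 0)
  have h2 := h1.mul_prod (taskJ_G_integrable B0 0)
  refine h2.mono ?_ (Eventually.of_forall fun p => ?_)
  · apply Continuous.aestronglyMeasurable
    unfold taskJ_G
    fun_prop
  · simp only [norm_mul, taskJ_norm_G]
    exact le_rfl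

theorem taskJ_main {n m : ℕ} (B0 : EE n ≃L[ℝ] EE n) (B : Fin m → (EE n ≃L[ℝ] EE n)) :
    ∫ z : Fin m → EE n, Real.exp (-(‖B0.symm (∑ i, z i)‖ ^ 2 + ∑ i, ‖(B i).symm (z i)‖ ^ 2)) =
      Real.pi ^ (((m : ℝ) - 1) * n / 2) * taskJ_det B0 * (∏ i, taskJ_det (B i)) *
      ∫ ξ : EE n, Real.exp (-(‖ContinuousLinearMap.adjoint
        (B0 : EE n →L[ℝ] EE n) ξ‖ ^ 2 + ∑ i, ‖ContinuousLinearMap.adjoint
        (B i : EE n →L[ℝ] EE n) ξ‖ ^ 2)) := by
  apply Complex.ofReal_injective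
  rw [← integral_complex_ofReal]
  have h1 : ∀ z : Fin m → EE n, ((Real.exp (-(‖B0.symm (∑ i, z i)‖ ^ 2 +
      ∑ i, ‖(B i).symm (z i)‖ ^ 2)) : ℝ) : ℂ) =
      (((Real.pi ^ ((n : ℝ) / 2))⁻¹ * taskJ_det B0 : ℝ) : ℂ) *
      ∫ ξ, (∏ i, taskJ_G (B i) 0 (z i)) * taskJ_G (taskJ_adj B0).symm (∑ i, z i) ξ := by
    intro z
    rw [integral_const_mul, mul_left_comm, ← taskJ_ft']
    simp only [taskJ_G_zero]
    rw [← Complex.ofReal_prod, ← Complex.ofReal_mul, ← Real.exp_sum, ← Real.exp_add]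
    congr 2
    rw [Finset.sum_neg_distrib]
    ring
  simp only [h1]
  rw [integral_const_mul, integral_integral_swap (taskJ_int1 (taskJ_adj B0).symm B)]
  have h2 : ∀ ξ : EE n, ∫ z : Fin m → EE n, (∏ i, taskJ_G (B i) 0 (z i)) *
      taskJ_G (taskJ_adj B0).symm (∑ i, z i) ξ =
      (((Real.pi ^ ((n : ℝ) / 2)) ^ m * ∏ i, taskJ_det (B i) : ℝ) : ℂ) *
      ((Real.exp (-(‖ContinuousLinearMap.adjoint
        (B0 : EE n →L[ℝ] EE n) ξ‖ ^ 2 + ∑ i, ‖ContinuousLinearMap.adjoint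
        (B i : EE n →L[ℝ] EE n) ξ‖ ^ 2)) : ℝ) : ℂ) := by
    intro ξ
    have h3 : ∀ z : Fin m → EE n, (∏ i, taskJ_G (B i) 0 (z i)) *
        taskJ_G (taskJ_adj B0).symm (∑ i, z i) ξ =
        taskJ_G (taskJ_adj B0).symm 0 ξ * ∏ i, taskJ_G (B i) ξ (z i) := by
      intro z
      have h4 : ∀ i, taskJ_G (B i) ξ (z i) =
          taskJ_G (B i) 0 (z i) * Complex.exp (2 * Complex.I * (inner ℝ ξ (z i) : ℝ)) :=
        fun i => taskJ_G_phase _ _ _
      simp only [h4]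
      rw [Finset.prod_mul_distrib, taskJ_G_phase (taskJ_adj B0).symm (∑ i, z i) ξ,
        ← Complex.exp_sum, ← Finset.mul_sum, real_inner_comm, inner_sum]
      push_cast
      ring
    simp only [h3]
    rw [integral_const_mul, integral_fintype_prod_volume_eq_prod
      (f := fun i (v : EE n) => taskJ_G (B i) ξ v)]
    simp only [taskJ_ft]
    rw [taskJ_G_zero, ← Complex.ofReal_prod, ← Complex.ofReal_mul, ← Complex.ofReal_mul]
    congr 1
    rw [Finset.prod_mul_distrib, Finset.prod_mul_distrib, Finset.prod_const, Finset.card_univ,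
      Fintype.card_fin, ← Real.exp_sum, neg_add, Real.exp_add, Finset.sum_neg_distrib]
    change Real.exp (-‖ContinuousLinearMap.adjoint (B0 : EE n →L[ℝ] EE n) ξ‖ ^ 2) * _ = _
    ring
  simp only [h2]
  rw [integral_const_mul, integral_complex_ofReal, ← mul_assoc, ← Complex.ofReal_mul,
    ← Complex.ofReal_mul]
  congr 2
  have h5 : Real.pi ^ (((m : ℝ) - 1) * n / 2) =
      (Real.pi ^ ((n : ℝ) / 2))⁻¹ * (Real.pi ^ ((n : ℝ) / 2)) ^ m := by
    rw [← Real.rpow_neg Real.pi_pos.le, ← Real.rpow_natCast (Real.pi ^ ((n : ℝ) / 2)) m,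
      ← Real.rpow_mul Real.pi_pos.le, ← Real.rpow_add Real.pi_pos]
    congr 1
    ring
  rw [h5]
  ring

theorem gauss_integral {n m : ℕ} (B0 : EE n ≃L[ℝ] EE n) (B : Fin m → (EE n ≃L[ℝ] EE n)) :
    ∫⁻ z : Fin m → EE n,
      ENNReal.ofReal (Real.exp (-(‖B0.symm (∑ i, z i)‖ ^ 2 + ∑ i, ‖(B i).symm (z i)‖ ^ 2))) =
    ENNReal.ofReal (Real.pi ^ (((m : ℝ) - 1) * n / 2) *
      |LinearMap.det ((B0 : EE n →L[ℝ] EE n) : EE n →ₗ[ℝ] EE n)| *
      ∏ i, |LinearMap.det ((B i : EE n →L[ℝ] EE n) : EE n →ₗ[ℝ] EE n)|) *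
    ∫⁻ ξ : EE n, ENNReal.ofReal (Real.exp (-(‖ContinuousLinearMap.adjoint
      (B0 : EE n →L[ℝ] EE n) ξ‖ ^ 2 + ∑ i, ‖ContinuousLinearMap.adjoint
      (B i : EE n →L[ℝ] EE n) ξ‖ ^ 2))) := by
  have hL : Integrable (fun z : Fin m → EE n =>
      Real.exp (-(‖B0.symm (∑ i, z i)‖ ^ 2 + ∑ i, ‖(B i).symm (z i)‖ ^ 2))) := by
    have h1 : Integrable (fun z : Fin m → EE n => ∏ i, taskJ_G (B i) 0 (z i)) :=
      Integrable.fintype_prod (fun i => taskJ_G_integrable (B i) 0)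
    refine h1.mono ?_ (Eventually.of_forall fun z => ?_)
    · apply Continuous.aestronglyMeasurable
      fun_prop
    · rw [norm_prod]
      simp only [taskJ_norm_G]
      rw [← Real.exp_sum, Real.norm_of_nonneg (Real.exp_nonneg _), Finset.sum_neg_distrib]
      apply Real.exp_le_exp.2
      have := sq_nonneg ‖B0.symm (∑ i, z i)‖
      linarith
  have hR : Integrable (fun ξ : EE n => Real.exp (-(‖ContinuousLinearMap.adjoint
      (B0 : EE n →L[ℝ] EE n) ξ‖ ^ 2 + ∑ i, ‖ContinuousLinearMap.adjoint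
      (B i : EE n →L[ℝ] EE n) ξ‖ ^ 2))) := by
    refine (taskJ_G_integrable (taskJ_adj B0).symm 0).mono ?_ (Eventually.of_forall fun z => ?_)
    · apply Continuous.aestronglyMeasurable
      fun_prop
    · rw [taskJ_norm_G, Real.norm_of_nonneg (Real.exp_nonneg _)]
      apply Real.exp_le_exp.2
      change _ ≤ -‖ContinuousLinearMap.adjoint (B0 : EE n →L[ℝ] EE n) z‖ ^ 2
      have : 0 ≤ ∑ i, ‖ContinuousLinearMap.adjoint (B i : EE n →L[ℝ] EE n) z‖ ^ 2 :=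
        Finset.sum_nonneg fun i _ => sq_nonneg _
      linarith
  rw [← ofReal_integral_eq_lintegral_ofReal hL (Eventually.of_forall fun z => Real.exp_nonneg _),
    ← ofReal_integral_eq_lintegral_ofReal hR (Eventually.of_forall fun z => Real.exp_nonneg _),
    taskJ_main, ENNReal.ofReal_mul]
  · rfl
  · have h2 : 0 ≤ ∏ i, taskJ_det (B i) := Finset.prod_nonneg fun i _ => (taskJ_det_pos (B i)).le
    have h3 := (taskJ_det_pos B0).le
    have h4 : 0 ≤ Real.pi ^ (((m : ℝ) - 1) * n / 2) := Real.rpow_nonneg Real.pi_pos.le _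
    positivity

end Pool.Agent.Lib.MP_7548d4_gt
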