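import Pool.Agent.Lib.MP_7548d4_gt.Polar
import Pool.Agent.Lib.MP_7548d4_gt.Cut
import Pool.Agent.Lib.MP_7548d4_gt.GaussInt

set_option autoImplicit false
open MeasureTheory Metric Set Filter Topology

namespace Pool.Agent.Lib.MP_7548d4_gt

section TaskK

/-- Tonelli for products over a finite index set -/
theorem taskK_pi {m : ℕ} (μ : Measure ℝ) [SigmaFinite μ] (f : Fin m → ℝ → ENNReal)
    (hf : ∀ i, Measurable (f i)) :
    ∫⁻ t : Fin m → ℝ, ∏ i, f i (t i) ∂(Measure.pi fun _ => μ) = ∏ i, ∫⁻ t, f i t ∂μ := by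
  induction m with
  | zero => simp
  | succ m ih =>
    have h := (measurePreserving_piFinSuccAbove (fun _ : Fin (m + 1) => μ) 0)
    have h2 := h.lintegral_comp_emb (MeasurableEquiv.measurableEmbedding _)
      (fun q : ℝ × (Fin m → ℝ) => f 0 q.1 * ∏ i : Fin m, f i.succ (q.2 i))
    have h3 : ∀ t : Fin (m + 1) → ℝ, ∏ i, f i (t i) =
        f 0 ((MeasurableEquiv.piFinSuccAbove (fun _ => ℝ) 0 t).1) * ∏ i : Fin m, f i.succ
          ((MeasurableEquiv.piFinSuccAbove (fun _ => ℝ) 0 t).2 i) := by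
      intro t
      rw [Fin.prod_univ_succ]
      rfl
    simp_rw [h3]
    rw [h2, lintegral_prod_mul (f := f 0) (g := fun q : Fin m → ℝ => ∏ i, f i.succ (q i))
      (hf 0).aemeasurable (Finset.measurable_fun_prod _ fun i _ =>
        (hf i.succ).comp (measurable_pi_apply i)).aemeasurable, ih (fun i => f i.succ) (fun i => hf _),
      Fin.prod_univ_succ]

theorem taskK_gamma (a Q : ℝ) (ha : 0 < a) (hQ : 0 < Q) :
    ∫⁻ t in Ioi (0 : ℝ), ENNReal.ofReal (t ^ (a - 1)) * ENNReal.ofReal (Real.exp (-(t * Q))) =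
      ENNReal.ofReal (Real.Gamma a * Q ^ (-a)) := by
  have h0 : ∀ t ∈ Ioi (0 : ℝ), ENNReal.ofReal (t ^ (a - 1)) *
      ENNReal.ofReal (Real.exp (-(t * Q))) =
      ENNReal.ofReal (t ^ (a - 1) * Real.exp (-Q * t ^ (1 : ℝ))) := by
    intro t ht
    have ht' : 0 < t := ht
    rw [← ENNReal.ofReal_mul (by positivity), Real.rpow_one, neg_mul, mul_comm t Q]
  rw [setLIntegral_congr_fun measurableSet_Ioi h0, ← ofReal_integral_eq_lintegral_ofReal]
  · rw [integral_rpow_mul_exp_neg_mul_rpow one_pos (by linarith) hQ]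
    congr 1
    rw [div_one, one_div_one, mul_one, sub_add_cancel, div_one, mul_comm]
  · exact integrableOn_rpow_mul_exp_neg_mul_rpow (by linarith) (by norm_num) hQ
  · filter_upwards [ae_restrict_mem measurableSet_Ioi] with y hy
    have hy' : (0 : ℝ) < y := hy
    positivity

/-- the substitution `t ↦ 1 / t` -/
theorem taskK_inv (G : ℝ → ENNReal) :
    ∫⁻ t in Ioi (0 : ℝ), G t * ENNReal.ofReal t⁻¹ =
      ∫⁻ t in Ioi (0 : ℝ), G t⁻¹ * ENNReal.ofReal t⁻¹ := by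
  rw [taskC_exp G, taskC_exp (fun t => G t⁻¹), ← lintegral_neg_eq_self (fun u => G (Real.exp u))]
  simp_rw [Real.exp_neg]

theorem taskK_one (l k n : ℕ) (hk : 1 ≤ k) (hn : n = k + l) (Q : ℝ) (hQ : 0 < Q) :
    ∫⁻ t in Ioi (0 : ℝ), ENNReal.ofReal (t ^ ((l : ℝ) / 2 - 1)) *
      (ENNReal.ofReal (t ^ (-((n : ℝ) / 2))) * ENNReal.ofReal (Real.exp (-(t⁻¹ * Q)))) =
      ENNReal.ofReal (Real.Gamma ((k : ℝ) / 2) * Q ^ (-((k : ℝ) / 2))) := by
  have hk' : (0 : ℝ) < (k : ℝ) / 2 := by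
    have : (1 : ℝ) ≤ k := by exact_mod_cast hk
    linarith
  have hnR : (n : ℝ) = k + l := by rw [hn]; push_cast; ring
  rw [← taskK_gamma _ _ hk' hQ]
  have h1 : ∀ t ∈ Ioi (0 : ℝ), ENNReal.ofReal (t ^ ((l : ℝ) / 2 - 1)) *
      (ENNReal.ofReal (t ^ (-((n : ℝ) / 2))) * ENNReal.ofReal (Real.exp (-(t⁻¹ * Q)))) =
      (ENNReal.ofReal (t ^ (-((k : ℝ) / 2))) * ENNReal.ofReal (Real.exp (-(t⁻¹ * Q)))) *
        ENNReal.ofReal t⁻¹ := by
    intro t ht
    have ht' : 0 < t := ht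
    rw [← ENNReal.ofReal_mul (by positivity), ← ENNReal.ofReal_mul (by positivity),
      ← ENNReal.ofReal_mul (by positivity), ← ENNReal.ofReal_mul (by positivity)]
    congr 1
    have : t ^ ((l : ℝ) / 2 - 1) * t ^ (-((n : ℝ) / 2)) = t ^ (-((k : ℝ) / 2)) * t⁻¹ := by
      rw [← Real.rpow_neg_one t, ← Real.rpow_add ht', ← Real.rpow_add ht', hnR]
      congr 1
      ring
    rw [← mul_assoc, this]
    ring
  have h2 : ∀ t ∈ Ioi (0 : ℝ), (ENNReal.ofReal ((t⁻¹) ^ (-((k : ℝ) / 2))) *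
      ENNReal.ofReal (Real.exp (-((t⁻¹)⁻¹ * Q)))) * ENNReal.ofReal t⁻¹ =
      ENNReal.ofReal (t ^ ((k : ℝ) / 2 - 1)) * ENNReal.ofReal (Real.exp (-(t * Q))) := by
    intro t ht
    have ht' : 0 < t := ht
    rw [← ENNReal.ofReal_mul (by positivity), ← ENNReal.ofReal_mul (by positivity),
      ← ENNReal.ofReal_mul (by positivity)]
    congr 1
    have : (t⁻¹) ^ (-((k : ℝ) / 2)) * t⁻¹ = t ^ ((k : ℝ) / 2 - 1) := by
      rw [Real.inv_rpow ht'.le, ← Real.rpow_neg ht'.le, neg_neg, ← Real.rpow_neg_one t,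
        ← Real.rpow_add ht']
      rfl
    rw [inv_inv, ← this]
    ring
  rw [setLIntegral_congr_fun measurableSet_Ioi h1,
    taskK_inv (fun t => ENNReal.ofReal (t ^ (-((k : ℝ) / 2))) *
      ENNReal.ofReal (Real.exp (-(t⁻¹ * Q)))),
    setLIntegral_congr_fun measurableSet_Ioi h2]

/-- scaling of an equivalence -/
noncomputable def taskK_sc {n : ℕ} (c : ℝ) (hc : 0 < c) (B : EE n ≃L[ℝ] EE n) :
    EE n ≃L[ℝ] EE n :=
  B.trans (ContinuousLinearEquiv.smulLeft (Units.mk0 c hc.ne'))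

theorem taskK_sc_apply {n : ℕ} (c : ℝ) (hc : 0 < c) (B : EE n ≃L[ℝ] EE n) (x : EE n) :
    taskK_sc c hc B x = c • B x := rfl

theorem taskK_sc_coe {n : ℕ} (c : ℝ) (hc : 0 < c) (B : EE n ≃L[ℝ] EE n) :
    (taskK_sc c hc B : EE n →L[ℝ] EE n) = c • (B : EE n →L[ℝ] EE n) := by
  ext x
  rfl

theorem taskK_sc_symm {n : ℕ} (c : ℝ) (hc : 0 < c) (B : EE n ≃L[ℝ] EE n) (x : EE n) :
    (taskK_sc c hc B).symm x = c⁻¹ • B.symm x := by
  rw [ContinuousLinearEquiv.symm_apply_eq, taskK_sc_apply, map_smul, B.apply_symm_apply,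
    smul_smul, mul_inv_cancel₀ hc.ne', one_smul]

theorem taskK_sc_det {n : ℕ} (c : ℝ) (hc : 0 < c) (B : EE n ≃L[ℝ] EE n) :
    |LinearMap.det ((taskK_sc c hc B : EE n →L[ℝ] EE n) : EE n →ₗ[ℝ] EE n)| =
      c ^ n * |LinearMap.det ((B : EE n →L[ℝ] EE n) : EE n →ₗ[ℝ] EE n)| := by
  rw [taskK_sc_coe, ContinuousLinearMap.toLinearMap_smul, LinearMap.det_smul,
    finrank_euclideanSpace_fin, abs_mul, abs_of_pos (by positivity)]

theorem taskK_sc_adj {n : ℕ} (c : ℝ) (hc : 0 < c) (B : EE n ≃L[ℝ] EE n) (x : EE n) :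
    ContinuousLinearMap.adjoint (taskK_sc c hc B : EE n →L[ℝ] EE n) x =
      c • ContinuousLinearMap.adjoint (B : EE n →L[ℝ] EE n) x := by
  rw [taskK_sc_coe, map_smulₛₗ]
  rfl

theorem taskK_adj_pos {n : ℕ} (B : EE n ≃L[ℝ] EE n) {x : EE n} (hx : x ≠ 0) :
    0 < ‖ContinuousLinearMap.adjoint (B : EE n →L[ℝ] EE n) x‖ := by
  rw [norm_pos_iff]
  intro h
  apply hx
  have h1 : inner ℝ x ((B : EE n →L[ℝ] EE n) (B.symm x)) = (0 : ℝ) := by
    rw [← ContinuousLinearMap.adjoint_inner_left, h, inner_zero_left]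
  have h2 : ((B : EE n →L[ℝ] EE n) (B.symm x)) = x := B.apply_symm_apply x
  rw [h2] at h1
  exact inner_self_eq_zero.1 h1

theorem taskK_symm_pos {n : ℕ} (B : EE n ≃L[ℝ] EE n) {x : EE n} (hx : x ≠ 0) :
    0 < ‖B.symm x‖ := by
  rw [norm_pos_iff]
  intro h
  apply hx
  have := congrArg B h
  rwa [B.apply_symm_apply, map_zero] at this

/-- the test functions as Gamma integrals -/
theorem taskK_Efun {n l : ℕ} (hl : 1 ≤ l) (B : EE n ≃L[ℝ] EE n) {x : EE n} (hx : x ≠ 0) :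
    ENNReal.ofReal (Efun l B x) = ENNReal.ofReal (Real.Gamma ((l : ℝ) / 2))⁻¹ *
      ∫⁻ t in Ioi (0 : ℝ), ENNReal.ofReal (t ^ ((l : ℝ) / 2 - 1)) *
        ENNReal.ofReal (Real.exp (-(t * ‖B.symm x‖ ^ 2))) := by
  have hl' : (0 : ℝ) < (l : ℝ) / 2 := by
    have : (1 : ℝ) ≤ l := by exact_mod_cast hl
    linarith
  have hpos := taskK_symm_pos B hx
  have hG := Real.Gamma_pos_of_pos hl'
  rw [taskK_gamma _ _ hl' (by positivity), ← ENNReal.ofReal_mul (by positivity), ← mul_assoc,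
    inv_mul_cancel₀ hG.ne', one_mul]
  congr 1
  unfold Efun
  rw [← Real.rpow_natCast ‖B.symm x‖ 2, ← Real.rpow_mul hpos.le, ← Real.rpow_natCast,
    ← Real.rpow_neg hpos.le]
  congr 1
  push_cast
  ring

theorem taskK_measurable_symm {n : ℕ} (B : EE n ≃L[ℝ] EE n) : Measurable fun x => ‖B.symm x‖ :=
  (by fun_prop : Continuous fun x => ‖B.symm x‖).measurable

/-- step 1: write the test functions as Gamma integrals -/
theorem taskK_step1 {n l m : ℕ} (hn : 1 ≤ n) (hl : 1 ≤ l) (B0 : EE n ≃L[ℝ] EE n)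
    (B : Fin m → (EE n ≃L[ℝ] EE n)) :
    ∫⁻ z : Fin m → EE n, ENNReal.ofReal (Real.exp (-‖B0.symm (∑ i, z i)‖ ^ 2) *
        ∏ i, Efun l (B i) (z i)) =
    ENNReal.ofReal (Real.Gamma ((l : ℝ) / 2))⁻¹ ^ m * ∫⁻ t : Fin m → ℝ, (∫⁻ z : Fin m → EE n,
      ENNReal.ofReal (Real.exp (-‖B0.symm (∑ i, z i)‖ ^ 2)) *
        ∏ i, (ENNReal.ofReal (t i ^ ((l : ℝ) / 2 - 1)) *
          ENNReal.ofReal (Real.exp (-(t i * ‖(B i).symm (z i)‖ ^ 2)))))
      ∂(Measure.pi fun _ => (volume : Measure ℝ).restrict (Ioi 0)) := by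
  have := taskB_nonempty hn
  have hae : ∀ᵐ z : Fin m → EE n, ∀ i, z i ≠ 0 := by
    rw [ae_all_iff]
    intro i
    exact Measure.ae_eval_ne (fun _ : Fin m => (volume : Measure (EE n))) i 0
  have hm1 : ∀ i, Measurable fun z : EE n => ‖(B i).symm z‖ := fun i => taskK_measurable_symm _
  have hm0 : Measurable fun z : EE n => ‖B0.symm z‖ := taskK_measurable_symm _
  have hm2 : Measurable fun z : Fin m → EE n => ENNReal.ofReal
      (Real.exp (-‖B0.symm (∑ i, z i)‖ ^ 2)) := by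
    have h0 : Measurable fun z : Fin m → EE n => ∑ i, z i := by fun_prop
    have h1 := hm0.comp h0
    simp only [Function.comp_def] at h1
    fun_prop
  have hm3 : Measurable fun p : (Fin m → ℝ) × (Fin m → EE n) => ∏ i,
      (ENNReal.ofReal (p.1 i ^ ((l : ℝ) / 2 - 1)) *
        ENNReal.ofReal (Real.exp (-(p.1 i * ‖(B i).symm (p.2 i)‖ ^ 2)))) := by
    apply Finset.measurable_fun_prod
    intro i _
    have h0 : Measurable fun p : (Fin m → ℝ) × (Fin m → EE n) => p.2 i := by fun_prop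
    have h1 := (hm1 i).comp h0
    have h2 : Measurable fun p : (Fin m → ℝ) × (Fin m → EE n) => p.1 i := by fun_prop
    simp only [Function.comp_def] at h1
    fun_prop
  have e1 : ∫⁻ z : Fin m → EE n, ENNReal.ofReal (Real.exp (-‖B0.symm (∑ i, z i)‖ ^ 2) *
      ∏ i, Efun l (B i) (z i)) = ∫⁻ z : Fin m → EE n,
      ENNReal.ofReal (Real.Gamma ((l : ℝ) / 2))⁻¹ ^ m * (∫⁻ t : Fin m → ℝ,
        ENNReal.ofReal (Real.exp (-‖B0.symm (∑ i, z i)‖ ^ 2)) *
        ∏ i, (ENNReal.ofReal (t i ^ ((l : ℝ) / 2 - 1)) *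
          ENNReal.ofReal (Real.exp (-(t i * ‖(B i).symm (z i)‖ ^ 2))))
        ∂(Measure.pi fun _ => (volume : Measure ℝ).restrict (Ioi 0))) := by
    refine lintegral_congr_ae (hae.mono fun z hz => ?_)
    beta_reduce
    have hm4 : Measurable fun t : Fin m → ℝ => ∏ i, (ENNReal.ofReal (t i ^ ((l : ℝ) / 2 - 1)) *
          ENNReal.ofReal (Real.exp (-(t i * ‖(B i).symm (z i)‖ ^ 2)))) := by
      have hpr : Measurable fun t : Fin m → ℝ => (t, z) := measurable_id.prodMk measurable_const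
      have h9 := hm3.comp hpr
      exact h9
    rw [lintegral_const_mul _ hm4, ENNReal.ofReal_mul (by positivity),
      ENNReal.ofReal_prod_of_nonneg (fun i _ => by unfold Efun; positivity)]
    have e2 := taskK_pi ((volume : Measure ℝ).restrict (Ioi 0))
      (fun (i : Fin m) (t : ℝ) => ENNReal.ofReal (t ^ ((l : ℝ) / 2 - 1)) *
          ENNReal.ofReal (Real.exp (-(t * ‖(B i).symm (z i)‖ ^ 2)))) (fun i => by fun_prop)
    rw [e2]
    simp_rw [fun i => taskK_Efun hl (B i) (hz i)]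
    rw [Finset.prod_mul_distrib, Finset.prod_const, Finset.card_univ, Fintype.card_fin]
    ring
  rw [e1, lintegral_const_mul']
  · congr 1
    rw [lintegral_lintegral_swap]
    have : Measurable fun p : (Fin m → EE n) × (Fin m → ℝ) =>
        ENNReal.ofReal (Real.exp (-‖B0.symm (∑ i, p.1 i)‖ ^ 2)) *
        ∏ i, (ENNReal.ofReal (p.2 i ^ ((l : ℝ) / 2 - 1)) *
          ENNReal.ofReal (Real.exp (-(p.2 i * ‖(B i).symm (p.1 i)‖ ^ 2)))) := by
      have h5 : Measurable fun p : (Fin m → EE n) × (Fin m → ℝ) => p.1 := measurable_fst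
      have h6 : Measurable fun p : (Fin m → EE n) × (Fin m → ℝ) => (p.2, p.1) := measurable_swap
      have h7 := hm2.comp h5
      have h8 := hm3.comp h6
      exact h7.mul h8
    exact this.aemeasurable
  · exact ENNReal.pow_ne_top ENNReal.ofReal_ne_top

/-- step 2: the Gaussian integral for fixed `t` -/
theorem taskK_step2 {n l m : ℕ} (B0 : EE n ≃L[ℝ] EE n)
    (B : Fin m → (EE n ≃L[ℝ] EE n)) (t : Fin m → ℝ) (ht : ∀ i, 0 < t i) :
    ∫⁻ z : Fin m → EE n,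
      ENNReal.ofReal (Real.exp (-‖B0.symm (∑ i, z i)‖ ^ 2)) *
        ∏ i, (ENNReal.ofReal (t i ^ ((l : ℝ) / 2 - 1)) *
          ENNReal.ofReal (Real.exp (-(t i * ‖(B i).symm (z i)‖ ^ 2)))) =
    ENNReal.ofReal (Real.pi ^ (((m : ℝ) - 1) * n / 2) *
      |LinearMap.det ((B0 : EE n →L[ℝ] EE n) : EE n →ₗ[ℝ] EE n)| *
      ∏ i, |LinearMap.det ((B i : EE n →L[ℝ] EE n) : EE n →ₗ[ℝ] EE n)|) *
    ∫⁻ ξ : EE n, ENNReal.ofReal (Real.exp (-‖ContinuousLinearMap.adjoint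
      (B0 : EE n →L[ℝ] EE n) ξ‖ ^ 2)) *
      ∏ i, (ENNReal.ofReal (t i ^ ((l : ℝ) / 2 - 1)) * (ENNReal.ofReal (t i ^ (-((n : ℝ) / 2))) *
        ENNReal.ofReal (Real.exp (-((t i)⁻¹ * ‖ContinuousLinearMap.adjoint
      (B i : EE n →L[ℝ] EE n) ξ‖ ^ 2))))) := by
  have hs : ∀ i, 0 < (√(t i))⁻¹ := fun i => inv_pos.2 (Real.sqrt_pos.2 (ht i))
  have h1 := gauss_integral B0 (fun i => taskK_sc (√(t i))⁻¹ (hs i) (B i))
  simp_rw [taskK_sc_symm, taskK_sc_det, taskK_sc_adj, inv_inv, norm_smul, mul_pow,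
    Real.norm_of_nonneg (Real.sqrt_nonneg _), fun i => Real.norm_of_nonneg (hs i).le, inv_pow,
    fun i => Real.sq_sqrt (ht i).le] at h1
  have h2 : ∀ z : Fin m → EE n, ENNReal.ofReal (Real.exp (-‖B0.symm (∑ i, z i)‖ ^ 2)) *
        ∏ i, (ENNReal.ofReal (t i ^ ((l : ℝ) / 2 - 1)) *
          ENNReal.ofReal (Real.exp (-(t i * ‖(B i).symm (z i)‖ ^ 2)))) =
      (∏ i, ENNReal.ofReal (t i ^ ((l : ℝ) / 2 - 1))) *
        ENNReal.ofReal (Real.exp (-(‖B0.symm (∑ i, z i)‖ ^ 2 +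
          ∑ i, t i * ‖(B i).symm (z i)‖ ^ 2))) := by
    intro z
    rw [neg_add, Real.exp_add, ENNReal.ofReal_mul (Real.exp_pos _).le, ← Finset.sum_neg_distrib,
      Real.exp_sum, ENNReal.ofReal_prod_of_nonneg (fun i _ => (Real.exp_pos _).le),
      Finset.prod_mul_distrib]
    ring
  have h3 : ∀ ξ : EE n, ENNReal.ofReal (Real.exp (-‖ContinuousLinearMap.adjoint
      (B0 : EE n →L[ℝ] EE n) ξ‖ ^ 2)) *
      ∏ i, (ENNReal.ofReal (t i ^ ((l : ℝ) / 2 - 1)) * (ENNReal.ofReal (t i ^ (-((n : ℝ) / 2))) *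
        ENNReal.ofReal (Real.exp (-((t i)⁻¹ * ‖ContinuousLinearMap.adjoint
      (B i : EE n →L[ℝ] EE n) ξ‖ ^ 2))))) =
      ((∏ i, ENNReal.ofReal (t i ^ ((l : ℝ) / 2 - 1))) *
        ∏ i, ENNReal.ofReal (t i ^ (-((n : ℝ) / 2)))) *
        ENNReal.ofReal (Real.exp (-(‖ContinuousLinearMap.adjoint
      (B0 : EE n →L[ℝ] EE n) ξ‖ ^ 2 + ∑ i, (t i)⁻¹ * ‖ContinuousLinearMap.adjoint
      (B i : EE n →L[ℝ] EE n) ξ‖ ^ 2))) := by
    intro ξ
    rw [neg_add, Real.exp_add, ENNReal.ofReal_mul (Real.exp_pos _).le, ← Finset.sum_neg_distrib,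
      Real.exp_sum, ENNReal.ofReal_prod_of_nonneg (fun i _ => (Real.exp_pos _).le),
      Finset.prod_mul_distrib, Finset.prod_mul_distrib]
    ring
  have hfin : ∀ a : Fin m → ℝ, (∏ i, ENNReal.ofReal (a i)) ≠ ⊤ := fun a =>
    ENNReal.prod_ne_top fun i _ => ENNReal.ofReal_ne_top
  simp_rw [h2, h3]
  rw [lintegral_const_mul' _ _ (hfin _), lintegral_const_mul' _ _
    (ENNReal.mul_ne_top (hfin _) (hfin _)), h1]
  have h4 : ENNReal.ofReal (Real.pi ^ (((m : ℝ) - 1) * n / 2) *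
      |LinearMap.det ((B0 : EE n →L[ℝ] EE n) : EE n →ₗ[ℝ] EE n)| *
      ∏ i, ((√(t i) ^ n)⁻¹ * |LinearMap.det ((B i : EE n →L[ℝ] EE n) : EE n →ₗ[ℝ] EE n)|)) =
      ENNReal.ofReal (Real.pi ^ (((m : ℝ) - 1) * n / 2) *
      |LinearMap.det ((B0 : EE n →L[ℝ] EE n) : EE n →ₗ[ℝ] EE n)| *
      ∏ i, |LinearMap.det ((B i : EE n →L[ℝ] EE n) : EE n →ₗ[ℝ] EE n)|) *
      ∏ i, ENNReal.ofReal (t i ^ (-((n : ℝ) / 2))) := by
    rw [← ENNReal.ofReal_prod_of_nonneg (fun i _ => by have := ht i; positivity),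
      ← ENNReal.ofReal_mul (by positivity), Finset.prod_mul_distrib]
    congr 1
    have h5 : ∀ i, (√(t i) ^ n)⁻¹ = t i ^ (-((n : ℝ) / 2)) := by
      intro i
      rw [Real.sqrt_eq_rpow, ← Real.rpow_natCast (t i ^ (1 / 2 : ℝ)) n,
        ← Real.rpow_mul (ht i).le, ← Real.rpow_neg (ht i).le]
      congr 1
      ring
    simp_rw [h5]
    ring
  rw [h4]
  ring

theorem taskK_pow {k : ℕ} {a : ℝ} (ha : 0 < a) : (a ^ 2) ^ (-((k : ℝ) / 2)) = (a ^ k)⁻¹ := by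
  rw [← Real.rpow_natCast a 2, ← Real.rpow_mul ha.le, ← Real.rpow_natCast a k,
    ← Real.rpow_neg ha.le]
  congr 1
  push_cast
  ring

/-- step 3: integration over `t` for fixed `ξ` -/
theorem taskK_step3 {n k l m : ℕ} (hk : 1 ≤ k) (hn : n = k + l) (B0 : EE n ≃L[ℝ] EE n)
    (B : Fin m → (EE n ≃L[ℝ] EE n)) {ξ : EE n} (hξ : ξ ≠ 0) :
    ∫⁻ t : Fin m → ℝ, ENNReal.ofReal (Real.exp (-‖ContinuousLinearMap.adjoint
      (B0 : EE n →L[ℝ] EE n) ξ‖ ^ 2)) *
      ∏ i, (ENNReal.ofReal (t i ^ ((l : ℝ) / 2 - 1)) * (ENNReal.ofReal (t i ^ (-((n : ℝ) / 2))) *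
        ENNReal.ofReal (Real.exp (-((t i)⁻¹ * ‖ContinuousLinearMap.adjoint
      (B i : EE n →L[ℝ] EE n) ξ‖ ^ 2)))))
      ∂(Measure.pi fun _ => (volume : Measure ℝ).restrict (Ioi 0)) =
    ENNReal.ofReal (Real.Gamma ((k : ℝ) / 2)) ^ m * (ENNReal.ofReal (Real.exp
      (-‖ContinuousLinearMap.adjoint (B0 : EE n →L[ℝ] EE n) ξ‖ ^ 2)) *
      ∏ i, ENNReal.ofReal ((‖ContinuousLinearMap.adjoint
        (B i : EE n →L[ℝ] EE n) ξ‖ ^ k)⁻¹)) := by
  have hk' : (0 : ℝ) < (k : ℝ) / 2 := by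
    have : (1 : ℝ) ≤ k := by exact_mod_cast hk
    linarith
  have hG := Real.Gamma_pos_of_pos hk'
  rw [lintegral_const_mul' _ _ ENNReal.ofReal_ne_top]
  have e2 := taskK_pi ((volume : Measure ℝ).restrict (Ioi 0))
      (fun (i : Fin m) (t : ℝ) => ENNReal.ofReal (t ^ ((l : ℝ) / 2 - 1)) *
        (ENNReal.ofReal (t ^ (-((n : ℝ) / 2))) *
        ENNReal.ofReal (Real.exp (-(t⁻¹ * ‖ContinuousLinearMap.adjoint
      (B i : EE n →L[ℝ] EE n) ξ‖ ^ 2))))) (fun i => by fun_prop)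
  rw [e2]
  have e3 : ∀ i, ∫⁻ t in Ioi (0 : ℝ), ENNReal.ofReal (t ^ ((l : ℝ) / 2 - 1)) *
        (ENNReal.ofReal (t ^ (-((n : ℝ) / 2))) *
        ENNReal.ofReal (Real.exp (-(t⁻¹ * ‖ContinuousLinearMap.adjoint
      (B i : EE n →L[ℝ] EE n) ξ‖ ^ 2)))) = ENNReal.ofReal (Real.Gamma ((k : ℝ) / 2)) *
        ENNReal.ofReal ((‖ContinuousLinearMap.adjoint (B i : EE n →L[ℝ] EE n) ξ‖ ^ k)⁻¹) := by
    intro i
    have hpos := taskK_adj_pos (B i) hξ
    rw [taskK_one l k n hk hn _ (by positivity), taskK_pow hpos, ENNReal.ofReal_mul hG.le]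
  simp_rw [e3]
  rw [Finset.prod_mul_distrib, Finset.prod_const, Finset.card_univ, Fintype.card_fin]
  ring

/-- step 4: polar coordinates -/
theorem taskK_step4 {n k m : ℕ} (hk : 1 ≤ k) (hn1 : 1 ≤ n) (hn : n = k * (m + 1))
    (B0 : EE n ≃L[ℝ] EE n) (B : Fin m → (EE n ≃L[ℝ] EE n)) :
    ∫⁻ ξ : EE n, ENNReal.ofReal (Real.exp
      (-‖ContinuousLinearMap.adjoint (B0 : EE n →L[ℝ] EE n) ξ‖ ^ 2)) *
      ∏ i, ENNReal.ofReal ((‖ContinuousLinearMap.adjoint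
        (B i : EE n →L[ℝ] EE n) ξ‖ ^ k)⁻¹) =
    ENNReal.ofReal (1 / 2 * Real.Gamma ((k : ℝ) / 2)) * ∫⁻ θ : SS n,
      ENNReal.ofReal ((‖ContinuousLinearMap.adjoint (B0 : EE n →L[ℝ] EE n) θ‖ ^ k)⁻¹) *
      ∏ i, ENNReal.ofReal ((‖ContinuousLinearMap.adjoint
        (B i : EE n →L[ℝ] EE n) θ‖ ^ k)⁻¹) ∂(sig n) := by
  have hk' : (0 : ℝ) < (k : ℝ) / 2 := by
    have : (1 : ℝ) ≤ k := by exact_mod_cast hk
    linarith
  have hG := Real.Gamma_pos_of_pos hk'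
  have hm1 : ∀ i, Measurable fun z : EE n => ‖ContinuousLinearMap.adjoint
      (B i : EE n →L[ℝ] EE n) z‖ := fun i =>
    (ContinuousLinearMap.continuous _).norm.measurable
  have hm0 : Measurable fun z : EE n => ‖ContinuousLinearMap.adjoint
      (B0 : EE n →L[ℝ] EE n) z‖ := (ContinuousLinearMap.continuous _).norm.measurable
  have hm2 : Measurable fun ξ : EE n => ENNReal.ofReal (Real.exp
      (-‖ContinuousLinearMap.adjoint (B0 : EE n →L[ℝ] EE n) ξ‖ ^ 2)) *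
      ∏ i, ENNReal.ofReal ((‖ContinuousLinearMap.adjoint
        (B i : EE n →L[ℝ] EE n) ξ‖ ^ k)⁻¹) := by
    apply Measurable.mul
    · fun_prop
    · apply Finset.measurable_fun_prod
      intro i _
      have := hm1 i
      fun_prop
  rw [lintegral_polar hn1 _ hm2, ← lintegral_const_mul' _ _ ENNReal.ofReal_ne_top]
  apply lintegral_congr
  intro θ
  have hθ : (θ : EE n) ≠ 0 := by
    intro h
    have : ‖(θ : EE n)‖ = 1 := by simp
    rw [h, norm_zero] at this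
    exact zero_ne_one this
  set b : ℝ := ‖ContinuousLinearMap.adjoint (B0 : EE n →L[ℝ] EE n) (θ : EE n)‖ with hb
  have hb0 : 0 < b := taskK_adj_pos B0 hθ
  have e1 : ∀ r ∈ Ioi (0 : ℝ), ENNReal.ofReal (r ^ (n - 1)) * (ENNReal.ofReal (Real.exp
      (-‖ContinuousLinearMap.adjoint (B0 : EE n →L[ℝ] EE n) (r • (θ : EE n))‖ ^ 2)) *
      ∏ i, ENNReal.ofReal ((‖ContinuousLinearMap.adjoint
        (B i : EE n →L[ℝ] EE n) (r • (θ : EE n))‖ ^ k)⁻¹)) =
      (∏ i, ENNReal.ofReal ((‖ContinuousLinearMap.adjoint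
        (B i : EE n →L[ℝ] EE n) (θ : EE n)‖ ^ k)⁻¹)) *
      (ENNReal.ofReal (r ^ (k - 1)) * ENNReal.ofReal (Real.exp (-(b ^ 2 * r ^ 2)))) := by
    intro r hr
    have hr' : 0 < r := hr
    have e2 : ∀ i, ENNReal.ofReal ((‖ContinuousLinearMap.adjoint
        (B i : EE n →L[ℝ] EE n) (r • (θ : EE n))‖ ^ k)⁻¹) =
        ENNReal.ofReal ((r ^ k)⁻¹) * ENNReal.ofReal ((‖ContinuousLinearMap.adjoint
        (B i : EE n →L[ℝ] EE n) (θ : EE n)‖ ^ k)⁻¹) := by
      intro i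
      rw [map_smul, norm_smul, Real.norm_of_nonneg hr'.le, mul_pow, mul_inv,
        ENNReal.ofReal_mul (by positivity)]
    simp_rw [e2]
    rw [Finset.prod_mul_distrib, Finset.prod_const, Finset.card_univ, Fintype.card_fin,
      map_smul, norm_smul, Real.norm_of_nonneg hr'.le, ← hb]
    have e3 : ENNReal.ofReal (r ^ (n - 1)) * ENNReal.ofReal ((r ^ k)⁻¹) ^ m =
        ENNReal.ofReal (r ^ (k - 1)) := by
      rw [← ENNReal.ofReal_pow (by positivity), ← ENNReal.ofReal_mul (by positivity)]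
      congr 1
      have : n - 1 = (k - 1) + k * m := by
        rw [hn, mul_add, mul_one]
        omega
      rw [this, pow_add, inv_pow, ← pow_mul, mul_assoc, mul_inv_cancel₀ (by positivity), mul_one]
    calc ENNReal.ofReal (r ^ (n - 1)) * (ENNReal.ofReal (Real.exp (-(r * b) ^ 2)) *
          (ENNReal.ofReal ((r ^ k)⁻¹) ^ m * ∏ i, ENNReal.ofReal ((‖ContinuousLinearMap.adjoint
            (B i : EE n →L[ℝ] EE n) (θ : EE n)‖ ^ k)⁻¹)))
        = (∏ i, ENNReal.ofReal ((‖ContinuousLinearMap.adjoint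
            (B i : EE n →L[ℝ] EE n) (θ : EE n)‖ ^ k)⁻¹)) *
          ((ENNReal.ofReal (r ^ (n - 1)) * ENNReal.ofReal ((r ^ k)⁻¹) ^ m) *
            ENNReal.ofReal (Real.exp (-(r * b) ^ 2))) := by ring
      _ = _ := by
        rw [e3]
        congr 5
        ring
  rw [setLIntegral_congr_fun measurableSet_Ioi e1, lintegral_const_mul' _ _
    (ENNReal.prod_ne_top fun i _ => ENNReal.ofReal_ne_top), taskB_gauss hk _ (by positivity),
    taskK_pow hb0, mul_assoc ((b ^ k)⁻¹), ENNReal.ofReal_mul (by positivity)]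
  ring

theorem gauss_form {n k m : ℕ} (hk : 1 ≤ k) (hm : 1 ≤ m) (hn : n = k * (m + 1)) :
    ∃ cL : ℝ, 0 < cL ∧ ∀ (B0 : EE n ≃L[ℝ] EE n) (B : Fin m → (EE n ≃L[ℝ] EE n)),
      ∫⁻ z : Fin m → EE n, ENNReal.ofReal (Real.exp (-‖B0.symm (∑ i, z i)‖ ^ 2) *
        ∏ i, Efun (k * m) (B i) (z i)) =
      ENNReal.ofReal cL * ∫⁻ θ : SS n, ENNReal.ofReal (Ehat k B0 θ *
        ∏ i, Ehat k (B i) θ) ∂(sig n) := by
  have hl : 1 ≤ k * m := Nat.mul_pos hk hm
  have hn1 : 1 ≤ n := by rw [hn]; exact Nat.mul_pos hk (by omega)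
  have hn2 : n = k + k * m := by rw [hn]; ring
  have hk' : (0 : ℝ) < (k : ℝ) / 2 := by
    have : (1 : ℝ) ≤ k := by exact_mod_cast hk
    linarith
  have hl' : (0 : ℝ) < ((k * m : ℕ) : ℝ) / 2 := by
    have : (1 : ℝ) ≤ (k * m : ℕ) := by exact_mod_cast hl
    linarith
  have hG := Real.Gamma_pos_of_pos hk'
  have hG' := Real.Gamma_pos_of_pos hl'
  have hpi := Real.pi_pos
  have := taskB_nonempty hn1
  refine ⟨((Real.Gamma (((k * m : ℕ) : ℝ) / 2))⁻¹ ^ m * Real.pi ^ (((m : ℝ) - 1) * n / 2)) *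
    (Real.Gamma ((k : ℝ) / 2) ^ m * (1 / 2 * Real.Gamma ((k : ℝ) / 2))), by positivity,
    fun B0 B => ?_⟩
  rw [taskK_step1 hn1 hl B0 B]
  have htae : ∀ᵐ t : Fin m → ℝ ∂(Measure.pi fun _ => (volume : Measure ℝ).restrict (Ioi 0)),
      ∀ i, 0 < t i := by
    rw [ae_all_iff]
    intro i
    exact (Measure.tendsto_eval_ae_ae (i := i)).eventually
      (ae_restrict_mem (s := Ioi (0 : ℝ)) measurableSet_Ioi)
  rw [lintegral_congr_ae (htae.mono fun t ht => taskK_step2 B0 B t ht),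
    lintegral_const_mul' _ _ ENNReal.ofReal_ne_top, lintegral_lintegral_swap]
  · have hξae : ∀ᵐ ξ : EE n, ξ ≠ 0 :=
      compl_mem_ae_iff.2 (measure_singleton (μ := (volume : Measure (EE n))) (0 : EE n))
    rw [lintegral_congr_ae (hξae.mono fun ξ hξ => taskK_step3 hk hn2 B0 B hξ),
      lintegral_const_mul' _ _ (ENNReal.pow_ne_top ENNReal.ofReal_ne_top),
      taskK_step4 hk hn1 hn B0 B]
    have e5 : ∀ θ : SS n, ENNReal.ofReal (Ehat k B0 θ * ∏ i, Ehat k (B i) θ) =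
        ENNReal.ofReal (|LinearMap.det ((B0 : EE n →L[ℝ] EE n) : EE n →ₗ[ℝ] EE n)| *
          ∏ i, |LinearMap.det ((B i : EE n →L[ℝ] EE n) : EE n →ₗ[ℝ] EE n)|) *
        (ENNReal.ofReal ((‖ContinuousLinearMap.adjoint (B0 : EE n →L[ℝ] EE n) θ‖ ^ k)⁻¹) *
          ∏ i, ENNReal.ofReal ((‖ContinuousLinearMap.adjoint
            (B i : EE n →L[ℝ] EE n) θ‖ ^ k)⁻¹)) := by
      intro θ
      rw [← ENNReal.ofReal_prod_of_nonneg (fun i _ => by positivity),
        ← ENNReal.ofReal_mul (by positivity), ← ENNReal.ofReal_mul (by positivity)]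
      congr 1
      unfold Ehat
      rw [Finset.prod_mul_distrib]
      ring
    simp_rw [e5]
    rw [lintegral_const_mul' _ _ ENNReal.ofReal_ne_top,
      ENNReal.ofReal_mul (by positivity : (0 : ℝ) ≤
        (Real.Gamma (((k * m : ℕ) : ℝ) / 2))⁻¹ ^ m * Real.pi ^ (((m : ℝ) - 1) * n / 2)),
      ENNReal.ofReal_mul (by positivity : (0 : ℝ) ≤ (Real.Gamma (((k * m : ℕ) : ℝ) / 2))⁻¹ ^ m),
      ENNReal.ofReal_mul (by positivity : (0 : ℝ) ≤ Real.Gamma ((k : ℝ) / 2) ^ m),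
      ENNReal.ofReal_pow (by positivity), ENNReal.ofReal_pow (by positivity),
      mul_assoc (Real.pi ^ (((m : ℝ) - 1) * n / 2)),
      ENNReal.ofReal_mul (by positivity : (0 : ℝ) ≤ Real.pi ^ (((m : ℝ) - 1) * n / 2))]
    ring
  · have hm1 : ∀ i, Measurable fun z : EE n => ‖ContinuousLinearMap.adjoint
        (B i : EE n →L[ℝ] EE n) z‖ := fun i =>
      (ContinuousLinearMap.continuous _).norm.measurable
    have hm0 : Measurable fun z : EE n => ‖ContinuousLinearMap.adjoint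
        (B0 : EE n →L[ℝ] EE n) z‖ := (ContinuousLinearMap.continuous _).norm.measurable
    have hmm : Measurable fun p : (Fin m → ℝ) × EE n => ENNReal.ofReal (Real.exp
        (-‖ContinuousLinearMap.adjoint (B0 : EE n →L[ℝ] EE n) p.2‖ ^ 2)) *
        ∏ i, (ENNReal.ofReal (p.1 i ^ (((k * m : ℕ) : ℝ) / 2 - 1)) *
          (ENNReal.ofReal (p.1 i ^ (-((n : ℝ) / 2))) *
          ENNReal.ofReal (Real.exp (-((p.1 i)⁻¹ * ‖ContinuousLinearMap.adjoint
          (B i : EE n →L[ℝ] EE n) p.2‖ ^ 2))))) := by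
      apply Measurable.mul
      · have := hm0.comp (measurable_snd : Measurable fun p : (Fin m → ℝ) × EE n => p.2)
        simp only [Function.comp_def] at this
        fun_prop
      · apply Finset.measurable_fun_prod
        intro i _
        have h1 := (hm1 i).comp (measurable_snd : Measurable fun p : (Fin m → ℝ) × EE n => p.2)
        have h2 : Measurable fun p : (Fin m → ℝ) × EE n => p.1 i :=
          (measurable_pi_apply i).comp measurable_fst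
        simp only [Function.comp_def] at h1
        fun_prop
    exact hmm.aemeasurable

end TaskK

end Pool.Agent.Lib.MP_7548d4_gt
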