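import Pool.Agent.Lib.MP_7548d4_gt.Defs
import Pool.Agent.Lib.MP_7548d4_gt.Cut
import Pool.Agent.Lib.MP_7548d4_gt.GaussForm

/-!
# The multilinear form on the closed relation
-/

set_option autoImplicit false
open MeasureTheory Metric Set Filter Topology

namespace Pool.Agent.Lib.MP_7548d4_gt

section TaskL
variable {n : ℕ}

/-! ### the extension -/

theorem taskL_ext_of_ne (f : C(SS n, ℝ)) {x : EE n} (hx : x ≠ 0) :
    ∃ h : ‖x‖⁻¹ • x ∈ SS n, ext f x = f ⟨‖x‖⁻¹ • x, h⟩ := by
  have h1 : ‖(‖x‖⁻¹ • x : EE n)‖ = 1 := by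
    rw [norm_smul, norm_inv, norm_norm, inv_mul_cancel₀ (norm_ne_zero_iff.2 hx)]
  refine ⟨by simpa using h1, ?_⟩
  unfold ext
  rw [dif_pos h1]

theorem taskL_ext_zero (f : C(SS n, ℝ)) : ext f 0 = 0 := by
  unfold ext
  rw [dif_neg (by simp)]

theorem taskL_ext_add (f g : C(SS n, ℝ)) (x : EE n) : ext (f + g) x = ext f x + ext g x := by
  by_cases hx : x = 0
  · subst hx; simp [taskL_ext_zero]
  · obtain ⟨h1, e1⟩ := taskL_ext_of_ne f hx
    obtain ⟨h2, e2⟩ := taskL_ext_of_ne g hx
    obtain ⟨h3, e3⟩ := taskL_ext_of_ne (f + g) hx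
    rw [e1, e2, e3]; rfl

theorem taskL_ext_smul (c : ℝ) (f : C(SS n, ℝ)) (x : EE n) : ext (c • f) x = c * ext f x := by
  by_cases hx : x = 0
  · subst hx; simp [taskL_ext_zero]
  · obtain ⟨h1, e1⟩ := taskL_ext_of_ne f hx
    obtain ⟨h3, e3⟩ := taskL_ext_of_ne (c • f) hx
    rw [e1, e3]; rfl

theorem taskL_abs_ext_le (f : C(SS n, ℝ)) (x : EE n) : |ext f x| ≤ ‖f‖ := by
  by_cases hx : x = 0
  · subst hx; rw [taskL_ext_zero]; simp
  · obtain ⟨h1, e1⟩ := taskL_ext_of_ne f hx
    rw [e1]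
    exact f.norm_coe_le_norm _

theorem taskL_continuousOn_ext (f : C(SS n, ℝ)) : ContinuousOn (ext f) {x : EE n | x ≠ 0} := by
  rw [continuousOn_iff_continuous_domRestrict]
  have h0 : ∀ x : {x : EE n | x ≠ 0}, ‖(x : EE n)‖⁻¹ • (x : EE n) ∈ SS n := fun x =>
    (taskL_ext_of_ne f x.2).1
  have h1 : {x : EE n | x ≠ 0}.domRestrict (ext f) =
      fun x : {x : EE n | x ≠ 0} => f ⟨‖(x : EE n)‖⁻¹ • (x : EE n), h0 x⟩ := by
    funext x
    exact (taskL_ext_of_ne f x.2).2
  rw [h1]
  refine f.continuous.comp (Continuous.subtype_mk ?_ _)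
  have h2 : Continuous fun x : {x : EE n | x ≠ 0} => ‖(x : EE n)‖ :=
    continuous_subtype_val.norm
  exact (h2.inv₀ fun x => norm_ne_zero_iff.2 x.2).smul continuous_subtype_val

theorem taskL_measurable_ext (f : C(SS n, ℝ)) : Measurable (ext f) := by
  have h1 : ({x : EE n | x ≠ 0} : Set (EE n)) = {(0 : EE n)}ᶜ := by ext x; simp
  have h2 := taskL_continuousOn_ext f
  rw [h1] at h2
  exact measurable_of_continuousOn_compl_singleton 0 h2

/-! ### the weight -/

/-- the points at which the functions are evaluated -/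
noncomputable def taskL_pt {m : ℕ} (z : Fin m → EE n) : Fin (m + 1) → EE n :=
  Fin.cons (∑ i, z i) z

/-- the weight -/
noncomputable def taskL_w (l : ℕ) {m : ℕ} (z : Fin m → EE n) : ℝ :=
  Real.exp (-‖∑ i, z i‖ ^ 2) * ∏ i : Fin m, (‖z i‖ ^ l)⁻¹

theorem taskL_w_nonneg (l : ℕ) {m : ℕ} (z : Fin m → EE n) : 0 ≤ taskL_w l z := by
  unfold taskL_w
  have : 0 ≤ ∏ i : Fin m, (‖z i‖ ^ l)⁻¹ := Finset.prod_nonneg fun i _ => by positivity
  positivity

theorem taskL_measurable_pt {m : ℕ} (i : Fin (m + 1)) :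
    Measurable fun z : Fin m → EE n => taskL_pt z i := by
  refine Fin.cases ?_ (fun j => ?_) i
  · simp only [taskL_pt, Fin.cons_zero]
    fun_prop
  · simp only [taskL_pt, Fin.cons_succ]
    fun_prop

theorem taskL_Lam_eq (l m : ℕ) (f : Fin (m + 1) → C(SS n, ℝ)) :
    Lam l m f = ∫ z : Fin m → EE n, taskL_w l z * ∏ i, ext (f i) (taskL_pt z i) := by
  unfold Lam
  refine integral_congr_ae (Filter.Eventually.of_forall fun z => ?_)
  simp only [taskL_w, taskL_pt, Fin.prod_univ_succ, Fin.cons_zero, Fin.cons_succ,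
    Finset.prod_mul_distrib]
  ring

theorem taskL_refl_Ehat (k : ℕ) (θ : SS n) :
    Ehat k (ContinuousLinearEquiv.refl ℝ (EE n)) (θ : EE n) = 1 := by
  have h2 : ‖(θ : EE n)‖ = 1 := by simp
  simp only [Ehat]
  have h3 : ((ContinuousLinearEquiv.refl ℝ (EE n) : EE n ≃L[ℝ] EE n) : EE n →L[ℝ] EE n) =
    ContinuousLinearMap.id ℝ _ := rfl
  rw [h3]
  have h4 : ContinuousLinearMap.adjoint (ContinuousLinearMap.id ℝ (EE n)) =
      ContinuousLinearMap.id ℝ _ := by
    ext1 x
    refine ext_inner_left ℝ fun y => ?_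
    rw [ContinuousLinearMap.adjoint_inner_right]
    simp
  rw [h4]
  simp [h2]

theorem taskL_integrable_w {k m : ℕ} (hk : 1 ≤ k) (hm : 1 ≤ m) (hn : n = k * (m + 1)) :
    Integrable (fun z : Fin m → EE n => taskL_w (k * m) z) := by
  obtain ⟨cL, hcL, h⟩ := gauss_form hk hm hn
  have h1 := h (ContinuousLinearEquiv.refl ℝ _) (fun _ => ContinuousLinearEquiv.refl ℝ _)
  have h2 : ∀ z : Fin m → EE n, Real.exp (-‖(ContinuousLinearEquiv.refl ℝ (EE n)).symm
      (∑ i, z i)‖ ^ 2) * ∏ i, Efun (k * m) (ContinuousLinearEquiv.refl ℝ (EE n)) (z i) =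
      taskL_w (k * m) z := by
    intro z
    simp [Efun, taskL_w]
  simp only [h2] at h1
  simp only [taskL_refl_Ehat, Finset.prod_const_one, mul_one, ENNReal.ofReal_one,
    lintegral_const, one_mul] at h1
  constructor
  · refine Measurable.aestronglyMeasurable ?_
    unfold taskL_w
    refine Measurable.mul ?_ ?_
    · fun_prop
    · refine Finset.measurable_prod _ fun i _ => ?_
      fun_prop
  · rw [hasFiniteIntegral_iff_ofReal]
    · rw [h1]
      exact ENNReal.mul_lt_top ENNReal.ofReal_lt_top (measure_lt_top _ _)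
    · exact Filter.Eventually.of_forall fun z => taskL_w_nonneg _ z

/-! ### almost every point is generic -/

theorem taskL_ae_map_ne {m : ℕ} (T : (Fin m → EE n) →ₗ[ℝ] EE n) (z0 : Fin m → EE n)
    (h0 : T z0 ≠ 0) : ∀ᵐ z : Fin m → EE n, T z ≠ 0 := by
  have hker : (LinearMap.ker T) ≠ ⊤ := by
    intro htop
    have : z0 ∈ LinearMap.ker T := by rw [htop]; trivial
    exact h0 this
  have h1 := Measure.addHaar_submodule (volume : Measure (Fin m → EE n)) (LinearMap.ker T) hker
  rw [Filter.Eventually, mem_ae_iff]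
  refine measure_mono_null ?_ h1
  intro z hz
  by_contra hcon
  exact hz hcon

theorem taskL_ae_pt_ne {m : ℕ} (hm : 1 ≤ m) (hn : 1 ≤ n) (i : Fin (m + 1)) :
    ∀ᵐ z : Fin m → EE n, taskL_pt z i ≠ 0 := by
  have : NeZero m := ⟨by omega⟩
  have : NeZero n := ⟨by omega⟩
  obtain ⟨v, hv⟩ := exists_ne (0 : EE n)
  refine Fin.cases ?_ (fun j => ?_) i
  · have h1 := taskL_ae_map_ne (∑ j, LinearMap.proj j : (Fin m → EE n) →ₗ[ℝ] EE n)
      (Pi.single 0 v) (by
        rw [LinearMap.sum_apply]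
        simp only [LinearMap.proj_apply]
        rw [Finset.sum_eq_single 0]
        · simpa using hv
        · intro j _ hj
          simp [hj]
        · intro h; exact absurd (Finset.mem_univ _) h)
    filter_upwards [h1] with z hz
    simpa [taskL_pt, LinearMap.sum_apply] using hz
  · have h1 := taskL_ae_map_ne (LinearMap.proj j : (Fin m → EE n) →ₗ[ℝ] EE n)
      (Pi.single j v) (by simpa using hv)
    filter_upwards [h1] with z hz
    simpa [taskL_pt] using hz

/-! ### generators -/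

theorem taskL_Efun_smul (l : ℕ) (B : EE n ≃L[ℝ] EE n) (r : ℝ) (hr : 0 < r) (x : EE n) :
    Efun l B (r • x) = (r ^ l)⁻¹ * Efun l B x := by
  simp only [Efun, map_smul, norm_smul, Real.norm_eq_abs, abs_of_pos hr, mul_pow, mul_inv]

theorem taskL_Efun_nonneg (l : ℕ) (B : EE n ≃L[ℝ] EE n) (x : EE n) : 0 ≤ Efun l B x := by
  unfold Efun; positivity

theorem taskL_measurable_Efun (l : ℕ) (B : EE n ≃L[ℝ] EE n) : Measurable (Efun l B) := by
  unfold Efun
  exact (((B.symm.continuous.norm).pow l).measurable).inv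

theorem taskL_ext_gen (l : ℕ) (B : EE n ≃L[ℝ] EE n) (f : C(SS n, ℝ))
    (hf : ∀ θ : SS n, f θ = Efun l B θ) {x : EE n} (hx : x ≠ 0) :
    ext f x = ‖x‖ ^ l * Efun l B x := by
  obtain ⟨h1, e1⟩ := taskL_ext_of_ne f hx
  rw [e1, hf]
  have hx' : 0 < ‖x‖ := norm_pos_iff.2 hx
  simp only
  rw [taskL_Efun_smul l B _ (inv_pos.2 hx'), inv_pow, inv_inv]

/-- the radial cut -/
noncomputable def taskL_psi (l : ℕ) (r : ℝ) : ENNReal :=
  ENNReal.ofReal (r ^ l * Real.exp (-r ^ 2))

theorem taskL_psi_integral (l : ℕ) (hl : 1 ≤ l) :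
    ∫⁻ r in Ioi (0 : ℝ), taskL_psi l r * ENNReal.ofReal r⁻¹ ≠ 0 ∧
    ∫⁻ r in Ioi (0 : ℝ), taskL_psi l r * ENNReal.ofReal r⁻¹ ≠ ⊤ := by
  have h0 : ∫⁻ r in Ioi (0 : ℝ), taskL_psi l r * ENNReal.ofReal r⁻¹ =
      ∫⁻ r in Ioi (0 : ℝ), ENNReal.ofReal (r ^ ((l : ℝ) - 1) * Real.exp (-r ^ 2)) := by
    refine setLIntegral_congr_fun measurableSet_Ioi fun r hr => ?_
    have hr' : (0 : ℝ) < r := hr
    simp only [taskL_psi]
    rw [← ENNReal.ofReal_mul (by positivity)]
    congr 1
    rw [Real.rpow_sub_one hr'.ne', Real.rpow_natCast]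
    field_simp
  have h1 : IntegrableOn (fun r : ℝ => r ^ ((l : ℝ) - 1) * Real.exp (-r ^ 2)) (Ioi 0) := by
    have hl' : (1 : ℝ) ≤ l := by exact_mod_cast hl
    have := integrableOn_rpow_mul_exp_neg_mul_sq (b := 1) one_pos (s := (l : ℝ) - 1)
      (by linarith)
    simpa using this
  have h2 : 0 ≤ᵐ[volume.restrict (Ioi 0)] fun r : ℝ => r ^ ((l : ℝ) - 1) * Real.exp (-r ^ 2) := by
    filter_upwards [ae_restrict_mem measurableSet_Ioi] with r hr
    have hr' : (0 : ℝ) < r := hr
    exact mul_nonneg (Real.rpow_nonneg hr'.le _) (Real.exp_pos _).le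
  rw [h0, ← ofReal_integral_eq_lintegral_ofReal h1 h2]
  refine ⟨?_, ENNReal.ofReal_ne_top⟩
  rw [ne_eq, ENNReal.ofReal_eq_zero, not_le]
  have h3 : 0 < ∫ r in Ioi (0 : ℝ), r ^ ((l : ℝ) - 1) * Real.exp (-r ^ 2) := by
    rw [setIntegral_pos_iff_support_of_nonneg_ae h2 h1]
    have h4 : Ioi (0 : ℝ) ⊆ Function.support
        (fun r : ℝ => r ^ ((l : ℝ) - 1) * Real.exp (-r ^ 2)) ∩ Ioi 0 := by
      intro r hr
      have hr' : (0 : ℝ) < r := hr
      exact ⟨(mul_pos (Real.rpow_pos_of_pos hr' _) (Real.exp_pos _)).ne', hr⟩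
    refine lt_of_lt_of_le ?_ (measure_mono h4)
    simp
  exact h3

theorem taskL_Lam_gen {k m : ℕ} (hk : 1 ≤ k) (hm : 1 ≤ m) (hn : n = k * (m + 1)) (cL : ℝ)
    (hcL : 0 < cL)
    (hG : ∀ (B0 : EE n ≃L[ℝ] EE n) (B : Fin m → (EE n ≃L[ℝ] EE n)),
      ∫⁻ z : Fin m → EE n, ENNReal.ofReal (Real.exp (-‖B0.symm (∑ i, z i)‖ ^ 2) *
        ∏ i, Efun (k * m) (B i) (z i)) =
      ENNReal.ofReal cL * ∫⁻ θ : SS n, ENNReal.ofReal (Ehat k B0 θ *
        ∏ i, Ehat k (B i) θ) ∂(sig n))
    (f v : Fin (m + 1) → C(SS n, ℝ)) (h : ∀ i, (f i, v i) ∈ gens (n := n) k (k * m)) :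
    Lam (k * m) m f = cL * ∫ θ : SS n, ∏ i, v i θ ∂(sig n) := by
  have hn1 : 1 ≤ n := by rw [hn]; exact Nat.mul_pos hk (by omega)
  have hl1 : 1 ≤ k * m := Nat.mul_pos hk hm
  choose B hB1 hB2 using h
  set l := k * m with hl
  -- the homogeneous function
  set H : (Fin m → EE n) → ENNReal := fun z =>
    ENNReal.ofReal (∏ i, Efun l (B i) (taskL_pt z i)) with hH
  have hHm : Measurable H := by
    refine ENNReal.measurable_ofReal.comp ?_
    exact Finset.measurable_prod _ fun i _ =>
      (taskL_measurable_Efun l (B i)).comp (taskL_measurable_pt i)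
  have hpt : ∀ (r : ℝ) (z : Fin m → EE n) (i : Fin (m + 1)),
      taskL_pt (r • z) i = r • taskL_pt z i := by
    intro r z i
    refine Fin.cases ?_ (fun j => ?_) i
    · simp [taskL_pt, Finset.smul_sum]
    · simp [taskL_pt]
  have hfr : Module.finrank ℝ (Fin m → EE n) = l * (m + 1) := by
    rw [Module.finrank_pi_fintype]
    simp only [finrank_euclideanSpace, Fintype.card_fin, Finset.sum_const, Finset.card_univ,
      smul_eq_mul]
    rw [hn, hl]; ring
  have hhom : ∀ r : ℝ, 0 < r → ∀ z, H (r • z) =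
      ENNReal.ofReal ((r ^ Module.finrank ℝ (Fin m → EE n))⁻¹) * H z := by
    intro r hr z
    simp only [hH]
    rw [← ENNReal.ofReal_mul (by positivity), hfr]
    congr 1
    simp only [hpt, taskL_Efun_smul l _ r hr, Finset.prod_mul_distrib, Finset.prod_const,
      Finset.card_univ, Fintype.card_fin]
    rw [inv_pow, ← pow_mul]
  have hae : ∀ᵐ z : Fin m → EE n, ∀ i, taskL_pt z i ≠ 0 :=
    ae_all_iff.2 fun i => taskL_ae_pt_ne hm hn1 i
  have hsum0 : ∀ z : Fin m → EE n, taskL_pt z 0 = ∑ i, z i := fun z => by simp [taskL_pt]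
  have hcut := cut_lemma (volume : Measure (Fin m → EE n)) H hHm hhom
    (fun z => ‖∑ i, z i‖) (fun z => ‖(B 0).symm (∑ i, z i)‖)
    (by fun_prop) ((((B 0).symm.continuous.comp
      (continuous_finsetSum _ fun i _ => continuous_apply i)).norm).measurable)
    (by
      filter_upwards [hae] with z hz
      have := hz 0
      rw [hsum0] at this
      exact norm_pos_iff.2 this)
    (by
      filter_upwards [hae] with z hz
      have := hz 0
      rw [hsum0] at this
      exact norm_pos_iff.2 ((map_ne_zero_iff _ (B 0).symm.injective).2 this))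
    (by
      intro r hr z
      simp only [Pi.smul_apply]
      rw [← Finset.smul_sum, norm_smul, Real.norm_eq_abs, abs_of_pos hr])
    (by
      intro r hr z
      simp only [Pi.smul_apply]
      rw [← Finset.smul_sum, map_smul, norm_smul, Real.norm_eq_abs, abs_of_pos hr])
    (taskL_psi l) (by unfold taskL_psi; fun_prop)
    (taskL_psi_integral l hl1).1 (taskL_psi_integral l hl1).2
  -- the left side
  have hleft : ∀ᵐ z : Fin m → EE n, ENNReal.ofReal (taskL_w l z *
      ∏ i, ext (f i) (taskL_pt z i)) = H z * taskL_psi l (‖∑ i, z i‖) := by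
    filter_upwards [hae] with z hz
    simp only [hH, taskL_psi]
    rw [← ENNReal.ofReal_mul (Finset.prod_nonneg fun i _ => taskL_Efun_nonneg _ _ _)]
    congr 1
    have e1 : ∀ i, ext (f i) (taskL_pt z i) =
        ‖taskL_pt z i‖ ^ l * Efun l (B i) (taskL_pt z i) := fun i =>
      taskL_ext_gen l (B i) (f i) (hB1 i) (hz i)
    simp only [e1, Finset.prod_mul_distrib]
    rw [Fin.prod_univ_succ (f := fun i => ‖taskL_pt z i‖ ^ l), hsum0]
    have e2 : ∀ i : Fin m, taskL_pt z i.succ = z i := fun i => by simp [taskL_pt]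
    simp only [e2, taskL_w]
    have e3 : (∏ i : Fin m, (‖z i‖ ^ l)⁻¹) * ∏ i : Fin m, ‖z i‖ ^ l = 1 := by
      rw [← Finset.prod_mul_distrib]
      refine Finset.prod_eq_one fun i _ => ?_
      have := hz i.succ
      rw [e2] at this
      exact inv_mul_cancel₀ (pow_ne_zero _ (norm_ne_zero_iff.2 this))
    calc _ = (Real.exp (-‖∑ i, z i‖ ^ 2) * ‖∑ i, z i‖ ^ l *
          ∏ i, Efun l (B i) (taskL_pt z i)) *
          ((∏ i : Fin m, (‖z i‖ ^ l)⁻¹) * ∏ i : Fin m, ‖z i‖ ^ l) := by ring
      _ = _ := by rw [e3]; ring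
  have hright : ∀ᵐ z : Fin m → EE n, H z * taskL_psi l (‖(B 0).symm (∑ i, z i)‖) =
      ENNReal.ofReal (Real.exp (-‖(B 0).symm (∑ i, z i)‖ ^ 2) *
        ∏ i : Fin m, Efun l (B i.succ) (z i)) := by
    filter_upwards [hae] with z hz
    simp only [hH, taskL_psi]
    rw [← ENNReal.ofReal_mul (Finset.prod_nonneg fun i _ => taskL_Efun_nonneg _ _ _)]
    congr 1
    rw [Fin.prod_univ_succ, hsum0]
    have e2 : ∀ i : Fin m, taskL_pt z i.succ = z i := fun i => by simp [taskL_pt]
    simp only [e2]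
    have h0 := hz 0
    rw [hsum0] at h0
    have h1 : ‖(B 0).symm (∑ i, z i)‖ ≠ 0 := norm_ne_zero_iff.2
      ((map_ne_zero_iff _ (B 0).symm.injective).2 h0)
    have e3 : Efun l (B 0) (∑ i, z i) * ‖(B 0).symm (∑ i, z i)‖ ^ l = 1 := by
      unfold Efun
      exact inv_mul_cancel₀ (pow_ne_zero _ h1)
    calc _ = (Efun l (B 0) (∑ i, z i) * ‖(B 0).symm (∑ i, z i)‖ ^ l) *
          ((∏ i : Fin m, Efun l (B i.succ) (z i)) *
            Real.exp (-‖(B 0).symm (∑ i, z i)‖ ^ 2)) := by ring
      _ = _ := by rw [e3]; ring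
  have hval : ∫⁻ z : Fin m → EE n, ENNReal.ofReal (taskL_w l z *
      ∏ i, ext (f i) (taskL_pt z i)) =
      ENNReal.ofReal cL * ∫⁻ θ : SS n, ENNReal.ofReal (∏ i, v i θ) ∂(sig n) := by
    rw [lintegral_congr_ae hleft, hcut, lintegral_congr_ae hright, hG (B 0) (fun i => B i.succ)]
    congr 1
    refine lintegral_congr fun θ => ?_
    rw [Fin.prod_univ_succ]
    simp only [hB2]
  have hv0 : ∀ θ : SS n, 0 ≤ ∏ i, v i θ := by
    intro θ
    refine Finset.prod_nonneg fun i _ => ?_
    rw [hB2]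
    unfold Ehat
    positivity
  have hvc : Continuous fun θ : SS n => ∏ i, v i θ :=
    continuous_finsetProd _ fun i _ => (v i).continuous
  have hvi : Integrable (fun θ : SS n => ∏ i, v i θ) (sig n) :=
    hvc.integrable_of_hasCompactSupport (HasCompactSupport.of_compactSpace _)
  rw [taskL_Lam_eq, integral_eq_lintegral_of_nonneg_ae, hval,
    ← ofReal_integral_eq_lintegral_ofReal hvi (Filter.Eventually.of_forall hv0),
    ENNReal.toReal_mul, ENNReal.toReal_ofReal hcL.le, ENNReal.toReal_ofReal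
    (integral_nonneg hv0)]
  · filter_upwards [hae] with z hz
    refine mul_nonneg (taskL_w_nonneg _ _) (Finset.prod_nonneg fun i _ => ?_)
    rw [taskL_ext_gen l (B i) (f i) (hB1 i) (hz i)]
    exact mul_nonneg (by positivity) (taskL_Efun_nonneg _ _ _)
  · refine Measurable.aestronglyMeasurable ?_
    refine Measurable.mul ?_ ?_
    · unfold taskL_w
      refine Measurable.mul (by fun_prop) (Finset.measurable_prod _ fun i _ => by fun_prop)
    · exact Finset.measurable_prod _ fun i _ =>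
        (taskL_measurable_ext (f i)).comp (taskL_measurable_pt i)

/-! ### extension to the closed relation -/

theorem taskL_integrable {k m : ℕ} (hk : 1 ≤ k) (hm : 1 ≤ m) (hn : n = k * (m + 1))
    (f : Fin (m + 1) → C(SS n, ℝ)) :
    Integrable (fun z : Fin m → EE n => taskL_w (k * m) z * ∏ i, ext (f i) (taskL_pt z i)) := by
  have h1 := taskL_integrable_w (n := n) hk hm hn
  refine Integrable.mul_bdd (c := ∏ i, ‖f i‖) h1 ?_ ?_
  · exact (Finset.measurable_prod _ fun i _ =>
      (taskL_measurable_ext (f i)).comp (taskL_measurable_pt i)).aestronglyMeasurable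
  · refine Filter.Eventually.of_forall fun z => ?_
    rw [norm_prod]
    exact Finset.prod_le_prod (fun i _ => norm_nonneg _) fun i _ => taskL_abs_ext_le _ _

theorem taskL_prod_update {ι : Type*} [Fintype ι] [DecidableEq ι] {β : Type*}
    (f : ι → β) (j : ι) (u : β) (G : ι → β → ℝ) :
    ∏ i, G i (Function.update f j u i) = G j u * ∏ i ∈ Finset.univ.erase j, G i (f i) := by
  rw [← Finset.mul_prod_erase _ _ (Finset.mem_univ j), Function.update_self]
  congr 1
  refine Finset.prod_congr rfl fun i hi => ?_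
  rw [Function.update_of_ne (Finset.ne_of_mem_erase hi)]

/-- the multilinear form as a linear map in one variable -/
noncomputable def taskL_lin {k m : ℕ} (hk : 1 ≤ k) (hm : 1 ≤ m) (hn : n = k * (m + 1))
    (f : Fin (m + 1) → C(SS n, ℝ)) (j : Fin (m + 1)) : C(SS n, ℝ) →ₗ[ℝ] ℝ where
  toFun u := Lam (k * m) m (Function.update f j u)
  map_add' u u' := by
    simp only [taskL_Lam_eq]
    rw [← integral_add (taskL_integrable hk hm hn _) (taskL_integrable hk hm hn _)]
    refine integral_congr_ae (Filter.Eventually.of_forall fun z => ?_)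
    simp only
    rw [taskL_prod_update f j (u + u') (fun i g => ext g (taskL_pt z i)),
      taskL_prod_update f j u (fun i g => ext g (taskL_pt z i)),
      taskL_prod_update f j u' (fun i g => ext g (taskL_pt z i)), taskL_ext_add]
    ring
  map_smul' c u := by
    simp only [taskL_Lam_eq]
    rw [RingHom.id_apply, smul_eq_mul, ← integral_const_mul]
    refine integral_congr_ae (Filter.Eventually.of_forall fun z => ?_)
    simp only
    rw [taskL_prod_update f j (c • u) (fun i g => ext g (taskL_pt z i)),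
      taskL_prod_update f j u (fun i g => ext g (taskL_pt z i)), taskL_ext_smul]
    ring

theorem taskL_lin_bound {k m : ℕ} (hk : 1 ≤ k) (hm : 1 ≤ m) (hn : n = k * (m + 1))
    (f : Fin (m + 1) → C(SS n, ℝ)) (j : Fin (m + 1)) : ∃ M : ℝ, ∀ u : C(SS n, ℝ),
    ‖taskL_lin hk hm hn f j u‖ ≤ M * ‖u‖ := by
  refine ⟨(∫ z : Fin m → EE n, taskL_w (k * m) z) * ∏ i ∈ Finset.univ.erase j, ‖f i‖,
    fun u => ?_⟩
  have h1 : taskL_lin hk hm hn f j u = ∫ z : Fin m → EE n, taskL_w (k * m) z *
      ∏ i, ext (Function.update f j u i) (taskL_pt z i) := taskL_Lam_eq _ _ _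
  rw [h1]
  calc _ ≤ ∫ z : Fin m → EE n, ‖taskL_w (k * m) z *
        ∏ i, ext (Function.update f j u i) (taskL_pt z i)‖ := norm_integral_le_integral_norm _
    _ ≤ ∫ z : Fin m → EE n, taskL_w (k * m) z *
        (‖u‖ * ∏ i ∈ Finset.univ.erase j, ‖f i‖) := by
        refine integral_mono (taskL_integrable hk hm hn _).norm
          ((taskL_integrable_w hk hm hn).mul_const _) fun z => ?_
        simp only
        rw [norm_mul, Real.norm_of_nonneg (taskL_w_nonneg _ _)]
        refine mul_le_mul_of_nonneg_left ?_ (taskL_w_nonneg _ _)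
        rw [taskL_prod_update f j u (fun i g => ext g (taskL_pt z i)), norm_mul, norm_prod]
        exact mul_le_mul (taskL_abs_ext_le _ _)
          (Finset.prod_le_prod (fun i _ => norm_nonneg _) fun i _ => taskL_abs_ext_le _ _)
          (Finset.prod_nonneg fun i _ => norm_nonneg _) (norm_nonneg _)
    _ = _ := by rw [integral_mul_const]; ring

theorem taskL_lin_continuous {k m : ℕ} (hk : 1 ≤ k) (hm : 1 ≤ m) (hn : n = k * (m + 1))
    (f : Fin (m + 1) → C(SS n, ℝ)) (j : Fin (m + 1)) : Continuous (taskL_lin hk hm hn f j) := by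
  obtain ⟨M, hM⟩ := taskL_lin_bound hk hm hn f j
  exact AddMonoidHomClass.continuous_of_bound (taskL_lin hk hm hn f j) M hM

/-- the integral of a product as a linear map in one variable -/
noncomputable def taskL_int {m : ℕ} (v : Fin (m + 1) → C(SS n, ℝ)) (j : Fin (m + 1)) :
    C(SS n, ℝ) →ₗ[ℝ] ℝ where
  toFun u := ∫ θ : SS n, ∏ i, Function.update v j u i θ ∂(sig n)
  map_add' u u' := by
    have hi : ∀ w : Fin (m + 1) → C(SS n, ℝ), Integrable (fun θ : SS n => ∏ i, w i θ) (sig n) :=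
      fun w => (continuous_finsetProd _ fun i _ => (w i).continuous).integrable_of_hasCompactSupport
        (HasCompactSupport.of_compactSpace _)
    rw [← integral_add (hi _) (hi _)]
    refine integral_congr_ae (Filter.Eventually.of_forall fun θ => ?_)
    simp only
    rw [taskL_prod_update v j (u + u') (fun i g => g θ),
      taskL_prod_update v j u (fun i g => g θ), taskL_prod_update v j u' (fun i g => g θ),
      ContinuousMap.add_apply]
    ring
  map_smul' c u := by
    rw [RingHom.id_apply, smul_eq_mul, ← integral_const_mul]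
    refine integral_congr_ae (Filter.Eventually.of_forall fun θ => ?_)
    simp only
    rw [taskL_prod_update v j (c • u) (fun i g => g θ),
      taskL_prod_update v j u (fun i g => g θ), ContinuousMap.smul_apply, smul_eq_mul]
    ring

theorem taskL_int_continuous {m : ℕ} (v : Fin (m + 1) → C(SS n, ℝ)) (j : Fin (m + 1)) :
    Continuous (taskL_int v j) := by
  refine AddMonoidHomClass.continuous_of_bound (taskL_int v j)
    ((sig n).real univ * ∏ i ∈ Finset.univ.erase j, ‖v i‖) fun u => ?_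
  have h1 : taskL_int v j u = ∫ θ : SS n, ∏ i, Function.update v j u i θ ∂(sig n) := rfl
  rw [h1]
  calc _ ≤ (‖u‖ * ∏ i ∈ Finset.univ.erase j, ‖v i‖) * (sig n).real univ := by
        refine norm_integral_le_of_norm_le_const (Filter.Eventually.of_forall fun θ => ?_)
        rw [taskL_prod_update v j u (fun i g => g θ), norm_mul, norm_prod]
        exact mul_le_mul (u.norm_coe_le_norm θ)
          (Finset.prod_le_prod (fun i _ => norm_nonneg _) fun i _ => (v i).norm_coe_le_norm θ)
          (Finset.prod_nonneg fun i _ => norm_nonneg _) (norm_nonneg _)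
    _ = _ := by ring

theorem taskL_step {k m : ℕ} (hk : 1 ≤ k) (hm : 1 ≤ m) (hn : n = k * (m + 1)) (cL : ℝ)
    (hgen : ∀ f v : Fin (m + 1) → C(SS n, ℝ), (∀ i, (f i, v i) ∈ gens (n := n) k (k * m)) →
      Lam (k * m) m f = cL * ∫ θ : SS n, ∏ i, v i θ ∂(sig n)) (s : Finset (Fin (m + 1))) :
    ∀ f v : Fin (m + 1) → C(SS n, ℝ), (∀ i ∈ s, (f i, v i) ∈ Rel n k (k * m)) →
      (∀ i ∉ s, (f i, v i) ∈ gens (n := n) k (k * m)) →
      Lam (k * m) m f = cL * ∫ θ : SS n, ∏ i, v i θ ∂(sig n) := by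
  classical
  induction s using Finset.induction_on with
  | empty =>
    intro f v _ h2
    exact hgen f v fun i => h2 i (Finset.notMem_empty i)
  | @insert j s hj ih =>
    intro f v h1 h2
    -- the closed submodule
    set Φ : (C(SS n, ℝ) × C(SS n, ℝ)) →ₗ[ℝ] ℝ :=
      (taskL_lin hk hm hn f j).comp (LinearMap.fst ℝ _ _) -
        cL • (taskL_int v j).comp (LinearMap.snd ℝ _ _) with hΦ
    have hΦc : Continuous Φ := by
      have e1 : (Φ : (C(SS n, ℝ) × C(SS n, ℝ)) → ℝ) = fun P =>
          taskL_lin hk hm hn f j P.1 - cL * taskL_int v j P.2 := by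
        funext P
        simp [hΦ]
      rw [e1]
      exact ((taskL_lin_continuous hk hm hn f j).comp continuous_fst).sub
        (continuous_const.mul ((taskL_int_continuous v j).comp continuous_snd))
    have hker : IsClosed ((LinearMap.ker Φ : Submodule ℝ (C(SS n, ℝ) × C(SS n, ℝ))) :
        Set (C(SS n, ℝ) × C(SS n, ℝ))) := by
      have e1 : ((LinearMap.ker Φ : Submodule ℝ (C(SS n, ℝ) × C(SS n, ℝ))) :
        Set (C(SS n, ℝ) × C(SS n, ℝ))) = Φ ⁻¹' {0} := by ext P; simp
      rw [e1]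
      exact isClosed_singleton.preimage hΦc
    have hsub : Rel n k (k * m) ≤ LinearMap.ker Φ := by
      refine Submodule.topologicalClosure_minimal _ ?_ hker
      refine Submodule.span_le.2 fun P hP => ?_
      have e2 := ih (Function.update f j P.1) (Function.update v j P.2) (by
        intro i hi
        have hij : i ≠ j := fun h => hj (h ▸ hi)
        rw [Function.update_of_ne hij, Function.update_of_ne hij]
        exact h1 i (Finset.mem_insert_of_mem hi)) (by
        intro i hi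
        by_cases hij : i = j
        · subst hij
          rw [Function.update_self, Function.update_self]
          exact hP
        · rw [Function.update_of_ne hij, Function.update_of_ne hij]
          refine h2 i ?_
          simp [hij, hi])
      change Φ P = 0
      have e3 : Φ P = taskL_lin hk hm hn f j P.1 - cL * taskL_int v j P.2 := by simp [hΦ]
      rw [e3]
      exact sub_eq_zero.2 e2
    have h3 := hsub (h1 j (Finset.mem_insert_self j s))
    have e3 : Φ (f j, v j) = taskL_lin hk hm hn f j (f j) - cL * taskL_int v j (v j) := by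
      simp [hΦ]
    have e4 : Φ (f j, v j) = 0 := h3
    rw [e3, sub_eq_zero] at e4
    have e5 : taskL_lin hk hm hn f j (f j) = Lam (k * m) m (Function.update f j (f j)) := rfl
    have e6 : taskL_int v j (v j) =
      ∫ θ : SS n, ∏ i, Function.update v j (v j) i θ ∂(sig n) := rfl
    rw [e5, e6, Function.update_eq_self, Function.update_eq_self] at e4
    exact e4

theorem Lam_eq {n k m : ℕ} (hk : 1 ≤ k) (hm : 1 ≤ m) (hn : n = k * (m + 1)) :
    ∃ cL : ℝ, 0 < cL ∧ ∀ f v : Fin (m + 1) → C(SS n, ℝ),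
      (∀ i, (f i, v i) ∈ Rel n k (k * m)) →
      Lam (k * m) m f = cL * ∫ θ : SS n, ∏ i, v i θ ∂(sig n) := by
  obtain ⟨cL, hcL, hG⟩ := gauss_form hk hm hn
  refine ⟨cL, hcL, fun f v h => ?_⟩
  exact taskL_step hk hm hn cL (taskL_Lam_gen hk hm hn cL hcL hG) Finset.univ f v
    (fun i _ => h i) fun i hi => absurd (Finset.mem_univ i) hi

end TaskL

end Pool.Agent.Lib.MP_7548d4_gt
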