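import Pool.Agent.Lib.MP_7548d4_gt.YoungN
import Pool.Agent.Lib.MP_7548d4_gt.Polar

/-!
# Gaussian comparison with the ball (task P)
-/

set_option autoImplicit false
open MeasureTheory Metric Set Filter Topology

namespace Pool.Agent.Lib.MP_7548d4_gt

theorem taskP_push {n m : ℕ} (Φ : (Fin m → EE n) → ENNReal) (hΦ : Measurable Φ) :
    ∫⁻ z, Φ z = ∫⁻ y : Fin m → Fin n → ℝ, Φ (fun i => WithLp.toLp 2 (y i)) := by
  have h : MeasurePreserving
      (fun (y : Fin m → Fin n → ℝ) (i : Fin m) => (WithLp.toLp 2 (y i) : EE n)) :=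
    volume_preserving_pi (fun _ => PiLp.volume_preserving_toLp (Fin n))
  exact (h.lintegral_comp hΦ).symm

theorem taskP_gclass {n : ℕ} (N : EE n → ℝ) (hN : Continuous N) (c : ℝ) (hc : 0 < c)
    (hN1 : ∀ x, c * ‖x‖ ≤ N x) (b : ℝ) (hb : 0 < b) :
    GClass (fun y : Fin n → ℝ => Real.exp (-(b * N (WithLp.toLp 2 y) ^ 2))) := by
  refine ⟨?_, fun x => Real.exp_pos _, 1, b * c ^ 2, one_pos, by positivity, ?_⟩
  · have : Continuous (fun y : Fin n → ℝ => (WithLp.toLp 2 y : EE n)) :=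
      PiLp.continuous_toLp 2 _
    exact Real.continuous_exp.comp (((hN.comp this).pow 2).const_mul b).neg
  · intro y
    rw [one_mul]
    apply Real.exp_le_exp.2
    apply neg_le_neg
    have h1 : ‖(WithLp.toLp 2 y : EE n)‖ ^ 2 = ∑ i, y i ^ 2 := by
      rw [EuclideanSpace.norm_sq_eq]
      simp
    have h2 := hN1 (WithLp.toLp 2 y)
    have h3 : 0 ≤ c * ‖(WithLp.toLp 2 y : EE n)‖ := by positivity
    have h4 : (c * ‖(WithLp.toLp 2 y : EE n)‖) ^ 2 ≤ N (WithLp.toLp 2 y) ^ 2 :=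
      pow_le_pow_left₀ h3 h2 2
    rw [mul_pow, h1] at h4
    rw [mul_assoc]
    exact mul_le_mul_of_nonneg_left h4 hb.le

theorem taskP_int {n : ℕ} (N : EE n → ℝ) (hN : Continuous N) (b : ℝ) :
    ∫ y : Fin n → ℝ, Real.exp (-(b * N (WithLp.toLp 2 y) ^ 2)) =
      (∫⁻ x : EE n, ENNReal.ofReal (Real.exp (-(b * N x ^ 2)))).toReal := by
  have h1 : ∫ y : Fin n → ℝ, Real.exp (-(b * N (WithLp.toLp 2 y) ^ 2)) =
      ∫ x : EE n, Real.exp (-(b * N x ^ 2)) :=
    (PiLp.volume_preserving_toLp (Fin n)).integral_comp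
      (MeasurableEquiv.toLp 2 (Fin n → ℝ)).measurableEmbedding
      (fun x : EE n => Real.exp (-(b * N x ^ 2)))
  rw [h1, integral_eq_lintegral_of_nonneg_ae]
  · exact Eventually.of_forall fun x => (Real.exp_pos _).le
  · exact (Real.continuous_exp.comp ((hN.pow 2).const_mul b).neg).aestronglyMeasurable

theorem taskP_int_norm {n : ℕ} (r : ℝ) (hr : 0 < r) (b : ℝ) (hb : 0 < b) :
    ∫ y : Fin n → ℝ, Real.exp (-(b * (‖(WithLp.toLp 2 y : EE n)‖ / r) ^ 2)) =
      (√(Real.pi * r ^ 2 / b)) ^ n := by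
  have h : ∀ y : Fin n → ℝ, Real.exp (-(b * (‖(WithLp.toLp 2 y : EE n)‖ / r) ^ 2)) =
      ∏ i, Real.exp (-(b / r ^ 2) * y i ^ 2) := by
    intro y
    rw [← Real.exp_sum, ← Finset.mul_sum]
    congr 1
    rw [div_pow, EuclideanSpace.norm_sq_eq]
    simp
    ring
  simp only [h]
  rw [integral_fintype_prod_volume_eq_pow (fun s : ℝ => Real.exp (-(b / r ^ 2) * s ^ 2)),
    integral_gaussian, Fintype.card_fin]
  congr 2
  field_simp

/-- the quadratic form -/
noncomputable def taskP_Q {m : ℕ} (n : ℕ) (t0 : ℝ) (t : Fin m → ℝ) (z : Fin m → Fin n → ℝ) : ℝ :=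
  t0 * ∑ j, (∑ i, z i) j ^ 2 + ∑ i, t i * ∑ j, z i j ^ 2

theorem taskP_Q_shuf {m n : ℕ} (t0 : ℝ) (t : Fin m → ℝ) (p : (Fin m → ℝ) × (Fin m → Fin n → ℝ)) :
    taskP_Q (n + 1) t0 t (taskO_shuf p) =
      (t0 * (∑ i, p.1 i) ^ 2 + ∑ i, t i * p.1 i ^ 2) + taskP_Q n t0 t p.2 := by
  unfold taskP_Q
  have h1 : (∑ i, taskO_shuf p i) = taskO_cons (∑ i, p.1 i, ∑ i, p.2 i) := taskO_sum p.1 p.2
  rw [h1, taskO_sq]
  have h2 : ∀ i, ∑ j, taskO_shuf p i j ^ 2 = p.1 i ^ 2 + ∑ j, p.2 i j ^ 2 := fun i =>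
    taskO_sq (p.1 i) (p.2 i)
  simp only [h2, mul_add, Finset.sum_add_distrib]
  ring

theorem taskP_Q_cont {m n : ℕ} (t0 : ℝ) (t : Fin m → ℝ) : Continuous (taskP_Q n t0 t) := by
  unfold taskP_Q
  simp only [Finset.sum_apply]
  fun_prop

theorem taskP_pow {m : ℕ} (n : ℕ) (t0 : ℝ) (t : Fin m → ℝ) :
    ∫⁻ z : Fin m → Fin n → ℝ, ENNReal.ofReal (Real.exp (-taskP_Q n t0 t z)) =
      (∫⁻ s : Fin m → ℝ, ENNReal.ofReal (Real.exp (-(t0 * (∑ i, s i) ^ 2 + ∑ i, t i * s i ^ 2)))) ^ n := by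
  induction n with
  | zero =>
    have hv : (volume : Measure (Fin 0 → ℝ)) univ = 1 := by
      rw [volume_pi, Measure.pi_univ]; simp
    have hv' : (volume : Measure (Fin m → Fin 0 → ℝ)) univ = 1 := by
      rw [volume_pi, Measure.pi_univ]; simp [hv]
    rw [lintegral_unique, hv']
    simp [taskP_Q]
  | succ n ih =>
    have hmeas : Measurable (fun z : Fin m → Fin (n + 1) → ℝ =>
        ENNReal.ofReal (Real.exp (-taskP_Q (n + 1) t0 t z))) :=
      (ENNReal.continuous_ofReal.comp (Real.continuous_exp.comp (taskP_Q_cont t0 t).neg)).measurable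
    rw [← (taskO_shuf_mp m n).lintegral_comp hmeas]
    have h3 := lintegral_prod (μ := (volume : Measure (Fin m → ℝ)))
        (ν := (volume : Measure (Fin m → Fin n → ℝ))) _ (hmeas.comp (taskO_shuf_mp m n).measurable).aemeasurable
    simp only [Function.comp_def, taskP_Q_shuf] at h3
    simp only [taskP_Q_shuf]
    refine h3.trans ?_
    rw [pow_succ, ← ih]
    have h4 : ∀ (s : Fin m → ℝ) (y : Fin m → Fin n → ℝ),
        ENNReal.ofReal (Real.exp (-(t0 * (∑ i, s i) ^ 2 + ∑ i, t i * s i ^ 2 + taskP_Q n t0 t y))) =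
        ENNReal.ofReal (Real.exp (-(t0 * (∑ i, s i) ^ 2 + ∑ i, t i * s i ^ 2))) *
          ENNReal.ofReal (Real.exp (-taskP_Q n t0 t y)) := by
      intro s y
      rw [← ENNReal.ofReal_mul (Real.exp_pos _).le, ← Real.exp_add]
      congr 2
      ring
    simp only [h4]
    have h5 : ∀ s : Fin m → ℝ, ∫⁻ y : Fin m → Fin n → ℝ,
        ENNReal.ofReal (Real.exp (-(t0 * (∑ i, s i) ^ 2 + ∑ i, t i * s i ^ 2))) *
          ENNReal.ofReal (Real.exp (-taskP_Q n t0 t y)) =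
        ENNReal.ofReal (Real.exp (-(t0 * (∑ i, s i) ^ 2 + ∑ i, t i * s i ^ 2))) *
        ∫⁻ y : Fin m → Fin n → ℝ, ENNReal.ofReal (Real.exp (-taskP_Q n t0 t y)) := fun s =>
      lintegral_const_mul' _ _ ENNReal.ofReal_ne_top
    simp only [h5]
    rw [lintegral_mul_const]
    · ring
    · apply Continuous.measurable
      exact ENNReal.continuous_ofReal.comp (Real.continuous_exp.comp (by fun_prop))

theorem taskP_scale {m : ℕ} (ρ : ℝ) (hρ : 0 < ρ) (f : (Fin m → ℝ) → ENNReal) (hf : Measurable f) :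
    ∫⁻ s : Fin m → ℝ, f (ρ⁻¹ • s) = ENNReal.ofReal (ρ ^ m) * ∫⁻ s, f s := by
  have h := Measure.map_addHaar_smul (volume : Measure (Fin m → ℝ)) (inv_ne_zero hρ.ne')
  have h1 : ∫⁻ s : Fin m → ℝ, f (ρ⁻¹ • s) = ∫⁻ s, f s ∂(Measure.map (ρ⁻¹ • ·) volume) := by
    rw [lintegral_map hf (measurable_const_smul _)]
  rw [h1, h, lintegral_smul_measure]
  congr 2
  simp only [Module.finrank_fintype_fun_eq_card, Fintype.card_fin]
  rw [inv_pow, inv_inv, abs_of_pos (by positivity)]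

theorem gauss_compare {n m : ℕ} (hn : 1 ≤ n) (hm : 1 ≤ m) (N : EE n → ℝ) (hN : Continuous N)
    (c C : ℝ) (hc : 0 < c) (hN1 : ∀ x, c * ‖x‖ ≤ N x) (hN2 : ∀ x, N x ≤ C * ‖x‖)
    (hhom : ∀ r : ℝ, 0 ≤ r → ∀ x, N (r • x) = r * N x) (r : ℝ) (hr : 0 < r)
    (hvol : volume {x | N x ≤ 1} = volume (closedBall (0 : EE n) r)) (t0 : ℝ) (t : Fin m → ℝ)
    (ht0 : 0 < t0) (ht : ∀ i, 0 < t i) :
    ∫⁻ z : Fin m → EE n,
      ENNReal.ofReal (Real.exp (-(t0 * N (∑ i, z i) ^ 2 + ∑ i, t i * N (z i) ^ 2))) ≤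
    ∫⁻ z : Fin m → EE n, ENNReal.ofReal (Real.exp
      (-(t0 * (‖∑ i, z i‖ / r) ^ 2 + ∑ i, t i * (‖z i‖ / r) ^ 2))) := by
  haveI : Nonempty (Fin m) := ⟨⟨0, hm⟩⟩
  -- weights
  set D : ℝ := t0⁻¹ + ∑ i, (t i)⁻¹ with hD
  have hDpos : 0 < D := add_pos (inv_pos.2 ht0) (Finset.sum_pos (fun i _ => inv_pos.2 (ht i)) ⟨⟨0, hm⟩, Finset.mem_univ _⟩)
  set d0 : ℝ := t0⁻¹ / D with hd0
  set d : Fin m → ℝ := fun i => (t i)⁻¹ / D with hd
  have hd0p : 0 < d0 := div_pos (inv_pos.2 ht0) hDpos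
  have hdp : ∀ i, 0 < d i := fun i => div_pos (inv_pos.2 (ht i)) hDpos
  have hsum : d0 + ∑ i, d i = 1 := by
    simp only [hd0, hd]
    rw [← Finset.sum_div, ← add_div]
    exact div_self hDpos.ne'
  have hd0l : d0 < 1 := by
    have : 0 < ∑ i, d i := Finset.sum_pos (fun i _ => hdp i) ⟨⟨0, hm⟩, Finset.mem_univ _⟩
    linarith
  have hdl : ∀ i, d i < 1 := by
    intro i
    have : d i ≤ ∑ i, d i := Finset.single_le_sum (fun i _ => (hdp i).le) (Finset.mem_univ i)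
    linarith
  set ρ : ℝ := r * √D with hρ
  have hρpos : 0 < ρ := mul_pos hr (Real.sqrt_pos.2 hDpos)
  -- the functions
  have hb0 : 0 < t0 / (1 - d0) := div_pos ht0 (by linarith)
  have hb : ∀ i, 0 < t i / (1 - d i) := fun i => div_pos (ht i) (by linarith [hdl i])
  have hG0 := taskP_gclass N hN c hc hN1 _ hb0
  have hG := fun i => taskP_gclass N hN c hc hN1 _ (hb i)
  have hY := youngN hm d0 d hd0p hdp hsum _ _ hG0 hG
  -- integrals
  have hInt : ∀ b : ℝ, 0 < b → ∫ y : Fin n → ℝ, Real.exp (-(b * N (WithLp.toLp 2 y) ^ 2)) =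
      (√(Real.pi * r ^ 2 / b)) ^ n := by
    intro b hb
    rw [← taskP_int_norm r hr b hb, taskP_int N hN, taskP_int (fun x : EE n => ‖x‖ / r) (by fun_prop),
      lintegral_exp_gauge hn N hN c C hc hN1 hN2 hhom b hb,
      lintegral_exp_gauge hn (fun x : EE n => ‖x‖ / r) (by fun_prop) (1 / r) (1 / r) (by positivity)
        (fun x => le_of_eq (by ring)) (fun x => le_of_eq (by ring)) ?_ b hb, hvol]
    · congr 3
      ext x
      simp only [mem_closedBall, dist_zero_right, mem_setOf_eq]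
      rw [div_le_one hr]
    · intro s hs x
      rw [norm_smul, Real.norm_of_nonneg hs]; ring
  have hgN : ∀ e : ℝ, gN e = √(Real.pi * ((1 - e) * e)) := by
    intro e
    unfold gN
    have : ∀ x : ℝ, Real.exp (-(x ^ 2 / ((1 - e) * e))) = Real.exp (-(((1 - e) * e)⁻¹) * x ^ 2) := by
      intro x; congr 1; ring
    simp only [this]
    rw [integral_gaussian]
    congr 1
    rw [div_inv_eq_mul]
  have hval : ∀ (τ e : ℝ), 0 < τ → 0 < e → e < 1 → e = τ⁻¹ / D →
      √(Real.pi * r ^ 2 / (τ / (1 - e))) = ρ * gN e := by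
    intro τ e hτ he he1 hee
    rw [hgN, hρ, mul_assoc, ← Real.sqrt_mul hDpos.le, ← Real.sqrt_sq hr.le, ← Real.sqrt_mul (sq_nonneg r)]
    rw [Real.sqrt_sq hr.le]
    congr 1
    have h1 : 1 - e ≠ 0 := by linarith
    have h2 : τ⁻¹ = e * D := by rw [hee]; field_simp
    rw [div_div_eq_mul_div, div_eq_mul_inv, h2]
    ring
  rw [hInt _ hb0] at hY
  simp only [hInt _ (hb _)] at hY
  rw [hval t0 d0 ht0 hd0p hd0l rfl] at hY
  simp only [fun i => hval (t i) (d i) (ht i) (hdp i) (hdl i) rfl] at hY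
  -- simplify powers in the left side
  have hpow : ∀ (τ e y : ℝ), 0 < τ → 0 < e → e < 1 →
      Real.exp (-(τ / (1 - e) * y ^ 2)) ^ (1 - e) = Real.exp (-(τ * y ^ 2)) := by
    intro τ e y _ _ he1
    rw [← Real.exp_mul]
    congr 1
    have h1 : 1 - e ≠ 0 := by linarith
    field_simp
  have hL : ∀ z : Fin m → Fin n → ℝ,
      (Real.exp (-(t0 / (1 - d0) * N (WithLp.toLp 2 (∑ i, z i)) ^ 2)) ^ (1 - d0) *
        ∏ i, Real.exp (-(t i / (1 - d i) * N (WithLp.toLp 2 (z i)) ^ 2)) ^ (1 - d i)) =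
      Real.exp (-(t0 * N (WithLp.toLp 2 (∑ i, z i)) ^ 2 + ∑ i, t i * N (WithLp.toLp 2 (z i)) ^ 2)) := by
    intro z
    rw [hpow t0 d0 _ ht0 hd0p hd0l, Finset.prod_congr rfl
      (fun i _ => hpow (t i) (d i) _ (ht i) (hdp i) (hdl i)), ← Real.exp_sum, ← Real.exp_add]
    congr 1
    rw [Finset.sum_neg_distrib]; ring
  simp only [hL] at hY
  set X : ℝ := gN d0 ^ (1 - d0) * ∏ i, gN (d i) ^ (1 - d i) with hX
  have hg0 : 0 < gN d0 := taskN_gN_pos hd0p hd0l
  have hgi : ∀ i, 0 < gN (d i) := fun i => taskN_gN_pos (hdp i) (hdl i)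
  have hXpos : 0 < X := mul_pos (Real.rpow_pos_of_pos hg0 _)
    (Finset.prod_pos fun i _ => Real.rpow_pos_of_pos (hgi i) _)
  have hR : ((ρ * gN d0) ^ n) ^ (1 - d0) * ∏ i, ((ρ * gN (d i)) ^ n) ^ (1 - d i) =
      (ρ ^ m) ^ n * X ^ n := by
    have h1 : ∀ (g e : ℝ), 0 < g → ((ρ * g) ^ n) ^ (1 - e) = (ρ ^ (1 - e)) ^ n * (g ^ (1 - e)) ^ n := by
      intro g e hg
      rw [← mul_pow, ← Real.mul_rpow hρpos.le hg.le, ← Real.rpow_natCast (ρ * g) n,
        ← Real.rpow_natCast (((ρ * g) ^ (1 - e))) n, ← Real.rpow_mul (by positivity),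
        ← Real.rpow_mul (by positivity), mul_comm (1 - e) (n : ℝ)]
    rw [h1 _ _ hg0, Finset.prod_congr rfl (fun i _ => h1 (gN (d i)) (d i) (hgi i)),
      Finset.prod_mul_distrib, Finset.prod_pow, Finset.prod_pow, hX, mul_pow (gN d0 ^ (1 - d0)) _ n]
    have h2 : ρ ^ (1 - d0) * ∏ i, ρ ^ (1 - d i) = ρ ^ m := by
      rw [← Real.rpow_sum_of_pos hρpos, ← Real.rpow_add hρpos, ← Real.rpow_natCast ρ m]
      congr 1
      rw [Finset.sum_sub_distrib]
      simp only [Finset.sum_const, Finset.card_univ, Fintype.card_fin, nsmul_eq_mul, mul_one]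
      linarith
    rw [← h2, mul_pow (ρ ^ (1 - d0)) _ n]
    ring
  rw [hR] at hY
  -- the left side of the goal
  have hLg : ∫⁻ z : Fin m → EE n,
      ENNReal.ofReal (Real.exp (-(t0 * N (∑ i, z i) ^ 2 + ∑ i, t i * N (z i) ^ 2))) =
      ∫⁻ z : Fin m → Fin n → ℝ, ENNReal.ofReal (Real.exp (-(t0 * N (WithLp.toLp 2 (∑ i, z i)) ^ 2 +
        ∑ i, t i * N (WithLp.toLp 2 (z i)) ^ 2))) := by
    rw [taskP_push]
    · apply lintegral_congr
      intro y
      rw [WithLp.toLp_sum]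
    · apply Continuous.measurable
      apply ENNReal.continuous_ofReal.comp
      apply Real.continuous_exp.comp
      apply Continuous.neg
      apply Continuous.add
      · exact ((hN.comp (by fun_prop)).pow 2).const_mul t0
      · apply continuous_finsetSum
        intro i _
        exact ((hN.comp (continuous_apply i)).pow 2).const_mul _
  -- the right side
  have hRg : ∫⁻ z : Fin m → EE n, ENNReal.ofReal (Real.exp
      (-(t0 * (‖∑ i, z i‖ / r) ^ 2 + ∑ i, t i * (‖z i‖ / r) ^ 2))) =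
      (ENNReal.ofReal (ρ ^ m) * gA d0 d) ^ n := by
    rw [taskP_push]
    · have h1 : ∀ y : Fin m → Fin n → ℝ,
          (-(t0 * (‖∑ i, (WithLp.toLp 2 (y i) : EE n)‖ / r) ^ 2 +
            ∑ i, t i * (‖(WithLp.toLp 2 (y i) : EE n)‖ / r) ^ 2)) =
          -taskP_Q n (t0 / r ^ 2) (fun i => t i / r ^ 2) y := by
        intro y
        unfold taskP_Q
        rw [← WithLp.toLp_sum]
        simp only [div_pow, EuclideanSpace.norm_sq_eq, Real.norm_eq_abs, sq_abs]
        congr 1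
        congr 1
        · ring
        · apply Finset.sum_congr rfl
          intro i _
          ring
      simp only [h1]
      rw [taskP_pow]
      congr 1
      unfold gA
      rw [← taskP_scale ρ hρpos]
      · apply lintegral_congr
        intro s
        congr 2
        have hρ2 : ρ ^ 2 = r ^ 2 * D := by rw [hρ, mul_pow, Real.sq_sqrt hDpos.le]
        have e0 : ∀ x : ℝ, t0 / r ^ 2 * x ^ 2 = (ρ⁻¹ * x) ^ 2 / d0 := by
          intro x
          rw [mul_pow, inv_pow, hρ2, hd0]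
          field_simp
        have ei : ∀ i (x : ℝ), t i / r ^ 2 * x ^ 2 = (ρ⁻¹ * x) ^ 2 / d i := by
          intro i x
          have := (ht i).ne'
          rw [mul_pow, inv_pow, hρ2]
          simp only [hd]
          field_simp
        simp only [Pi.smul_apply, smul_eq_mul, ← Finset.mul_sum]
        rw [e0, Finset.sum_congr rfl (fun i _ => ei i (s i))]
      · apply Continuous.measurable
        exact ENNReal.continuous_ofReal.comp (Real.continuous_exp.comp (by fun_prop))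
    · apply Continuous.measurable
      exact ENNReal.continuous_ofReal.comp (Real.continuous_exp.comp (by fun_prop))
  rw [hLg, hRg]
  have hXn : ENNReal.ofReal X ^ n ≠ 0 := pow_ne_zero _ (by simp [hXpos])
  have hXn' : ENNReal.ofReal X ^ n ≠ ⊤ := ENNReal.pow_ne_top ENNReal.ofReal_ne_top
  rw [← ENNReal.mul_le_mul_iff_left hXn hXn']
  refine hY.trans (le_of_eq ?_)
  rw [ENNReal.ofReal_mul (by positivity), ENNReal.ofReal_pow (by positivity), ENNReal.ofReal_pow hXpos.le,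
    mul_pow]
  ring

end Pool.Agent.Lib.MP_7548d4_gt
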