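import Pool.Agent.Lib.MP_7548d4_gt.Defs
import Pool.Agent.Lib.MP_7548d4_gt.Cut
import Pool.Agent.Lib.MP_7548d4_gt.Star
import Pool.Agent.Lib.MP_7548d4_gt.GaussCompare

set_option autoImplicit false
open MeasureTheory Metric Set

namespace Pool.Agent.Lib.MP_7548d4_gt

/-- weight of the Gamma integral -/
noncomputable def taskQ_w (l : ℕ) (t : ℝ) : ENNReal :=
  (Ioi (0 : ℝ)).indicator (fun t => ENNReal.ofReal (t ^ ((l : ℝ) / 2 - 1))) t

theorem taskQ_w_meas (l : ℕ) : Measurable (taskQ_w l) := by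
  unfold taskQ_w
  refine Measurable.indicator ?_ measurableSet_Ioi
  fun_prop

theorem taskQ_gamma (l : ℕ) (hl : 1 ≤ l) (a : ℝ) (ha : 0 < a) :
    ∫⁻ t : ℝ, taskQ_w l t * ENNReal.ofReal (Real.exp (-(t * a ^ 2))) =
      ENNReal.ofReal (Real.Gamma ((l : ℝ) / 2)) * ENNReal.ofReal ((a ^ l)⁻¹) := by
  have hl' : (0 : ℝ) < (l : ℝ) / 2 := by
    have : (0 : ℝ) < l := by exact_mod_cast hl
    positivity
  have ha2 : 0 < a ^ 2 := by positivity
  have h1 : ∀ t : ℝ, taskQ_w l t * ENNReal.ofReal (Real.exp (-(t * a ^ 2))) =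
      (Ioi (0 : ℝ)).indicator
        (fun t => ENNReal.ofReal (t ^ ((l : ℝ) / 2 - 1) * Real.exp (-(a ^ 2 * t)))) t := by
    intro t
    unfold taskQ_w
    by_cases ht : t ∈ Ioi (0 : ℝ)
    · rw [indicator_of_mem ht, indicator_of_mem ht,
        ENNReal.ofReal_mul (Real.rpow_nonneg (le_of_lt ht) _), mul_comm t]
    · rw [indicator_of_notMem ht, indicator_of_notMem ht, zero_mul]
  simp_rw [h1]
  rw [lintegral_indicator measurableSet_Ioi]
  have h2 := Real.integral_rpow_mul_exp_neg_mul_Ioi hl' ha2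
  have hG : 0 < Real.Gamma ((l : ℝ) / 2) := Real.Gamma_pos_of_pos hl'
  have h3 : (1 / a ^ 2) ^ ((l : ℝ) / 2) = (a ^ l)⁻¹ := by
    rw [one_div, Real.inv_rpow ha2.le, ← Real.rpow_natCast a 2, ← Real.rpow_mul ha.le]
    rw [← Real.rpow_natCast a l]
    congr 2
    push_cast
    ring
  rw [h3] at h2
  have hne : ∫ t in Ioi (0 : ℝ), t ^ ((l : ℝ) / 2 - 1) * Real.exp (-(a ^ 2 * t)) ≠ 0 := by
    rw [h2]; positivity
  have hint : Integrable (fun t : ℝ => t ^ ((l : ℝ) / 2 - 1) * Real.exp (-(a ^ 2 * t)))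
      (volume.restrict (Ioi 0)) := by
    by_contra hc
    exact hne (integral_undef hc)
  rw [← ofReal_integral_eq_lintegral_ofReal hint, h2, mul_comm,
    ENNReal.ofReal_mul hG.le]
  filter_upwards [ae_restrict_mem measurableSet_Ioi] with t ht
  have : (0 : ℝ) ≤ t := le_of_lt ht
  positivity

/-- integral of a product over a finite product of lines -/
theorem taskQ_pi : ∀ (m : ℕ) (g : Fin m → ℝ → ENNReal) (_ : ∀ i, Measurable (g i)),
    ∫⁻ t : Fin m → ℝ, ∏ i, g i (t i) = ∏ i, ∫⁻ x, g i x := by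
  intro m
  induction m with
  | zero =>
    intro g _
    simp [volume_pi]
  | succ m ih =>
    intro g hg
    have hmp := volume_preserving_piFinSuccAbove (fun _ : Fin (m + 1) => ℝ) 0
    have h1 : ∫⁻ t : Fin (m + 1) → ℝ, ∏ i, g i (t i) =
        ∫⁻ p : ℝ × (Fin m → ℝ), g 0 p.1 * ∏ i : Fin m, g i.succ (p.2 i) := by
      rw [← hmp.lintegral_comp]
      · refine lintegral_congr fun t => ?_
        rw [Fin.prod_univ_succ]
        rfl
      · refine Measurable.mul ((hg 0).comp measurable_fst) ?_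
        refine Finset.measurable_prod _ fun i _ => ?_
        exact (hg i.succ).comp ((measurable_pi_apply i).comp measurable_snd)
    rw [h1, Fin.prod_univ_succ, ← ih (fun i => g i.succ) (fun i => hg i.succ)]
    have h2 : Measurable (fun t : Fin m → ℝ => ∏ i, g i.succ (t i)) := by
      refine Finset.measurable_prod _ fun i _ => ?_
      exact (hg i.succ).comp (measurable_pi_apply i)
    exact lintegral_prod_mul (μ := (volume : Measure ℝ)) (ν := (volume : Measure (Fin m → ℝ)))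
      (hg 0).aemeasurable h2.aemeasurable

theorem taskQ_ae_ne {n m : ℕ} (T : (Fin m → EE n) →ₗ[ℝ] EE n) (hT : T ≠ 0) :
    ∀ᵐ z : Fin m → EE n, T z ≠ 0 := by
  have h := Measure.addHaar_submodule (volume : Measure (Fin m → EE n)) (LinearMap.ker T)
    (by rwa [Ne, LinearMap.ker_eq_top])
  rw [ae_iff]
  have h2 : {z : Fin m → EE n | ¬ T z ≠ 0} = (LinearMap.ker T : Set (Fin m → EE n)) := by
    ext z
    simp
  rw [h2]
  exact h

/-- norm-like functions -/
structure TaskQN {n : ℕ} (N : EE n → ℝ) : Prop where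
  cont : Continuous N
  lower : ∃ c : ℝ, 0 < c ∧ ∀ x, c * ‖x‖ ≤ N x
  hom : ∀ r : ℝ, 0 ≤ r → ∀ x, N (r • x) = r * N x

theorem TaskQN.pos {n : ℕ} {N : EE n → ℝ} (h : TaskQN N) {x : EE n} (hx : x ≠ 0) : 0 < N x := by
  obtain ⟨c, hc, h1⟩ := h.lower
  have := norm_pos_iff.mpr hx
  have h2 := h1 x
  have : 0 < c * ‖x‖ := by positivity
  linarith

theorem TaskQN.nonneg {n : ℕ} {N : EE n → ℝ} (h : TaskQN N) (x : EE n) : 0 ≤ N x := by
  obtain ⟨c, hc, h1⟩ := h.lower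
  have h2 := h1 x
  have : 0 ≤ c * ‖x‖ := by positivity
  linarith

theorem taskQ_ae_sum {n m : ℕ} (hn : 1 ≤ n) (hm : 1 ≤ m) :
    ∀ᵐ z : Fin m → EE n, ∑ i, z i ≠ 0 := by
  have : Nontrivial (EE n) := by
    have : Nonempty (Fin n) := ⟨⟨0, hn⟩⟩
    infer_instance
  obtain ⟨x, hx⟩ := exists_ne (0 : EE n)
  have h := taskQ_ae_ne (n := n) (m := m) (∑ i : Fin m, LinearMap.proj i) (by
    intro h0
    have h1 := congrArg (fun T : (Fin m → EE n) →ₗ[ℝ] EE n => T (Pi.single ⟨0, hm⟩ x)) h0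
    simp only [LinearMap.coe_sum, Finset.sum_apply, LinearMap.proj_apply, LinearMap.zero_apply]
      at h1
    rw [Finset.sum_eq_single (⟨0, hm⟩ : Fin m)] at h1
    · simp only [Pi.single_eq_same] at h1
      exact hx h1
    · intro b _ hb
      simp [hb]
    · intro hc
      exact absurd (Finset.mem_univ _) hc)
  filter_upwards [h] with z hz
  simpa using hz

theorem taskQ_ae_coord {n m : ℕ} (hn : 1 ≤ n) (i : Fin m) :
    ∀ᵐ z : Fin m → EE n, z i ≠ 0 := by
  have : Nontrivial (EE n) := by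
    have : Nonempty (Fin n) := ⟨⟨0, hn⟩⟩
    infer_instance
  obtain ⟨x, hx⟩ := exists_ne (0 : EE n)
  have h := taskQ_ae_ne (n := n) (m := m) (LinearMap.proj i) (by
    intro h0
    have h1 := congrArg (fun T : (Fin m → EE n) →ₗ[ℝ] EE n => T (Pi.single i x)) h0
    simp only [LinearMap.proj_apply, LinearMap.zero_apply, Pi.single_eq_same] at h1
    exact hx h1)
  filter_upwards [h] with z hz
  simpa using hz

/-- the integral before the cut is moved -/
noncomputable def taskQ_A {n : ℕ} (l m : ℕ) (N : EE n → ℝ) : ENNReal :=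
  ∫⁻ z : Fin m → EE n, ENNReal.ofReal ((N (∑ i, z i) ^ l)⁻¹ * ∏ i, (N (z i) ^ l)⁻¹) *
    ENNReal.ofReal (‖∑ i, z i‖ ^ l * Real.exp (-‖∑ i, z i‖ ^ 2))

/-- the integral after the cut is moved -/
noncomputable def taskQ_B {n : ℕ} (l m : ℕ) (N : EE n → ℝ) : ENNReal :=
  ∫⁻ z : Fin m → EE n, ENNReal.ofReal (Real.exp (-N (∑ i, z i) ^ 2)) *
    ∏ i, ENNReal.ofReal ((N (z i) ^ l)⁻¹)

theorem taskQ_psi0 (l : ℕ) :
    ∫⁻ r in Ioi (0 : ℝ), ENNReal.ofReal (r ^ l * Real.exp (-r ^ 2)) * ENNReal.ofReal r⁻¹ ≠ 0 := by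
  intro h
  rw [lintegral_eq_zero_iff (by fun_prop)] at h
  have h2 : ∀ᵐ r ∂(volume.restrict (Ioi (0 : ℝ))), False := by
    filter_upwards [h, ae_restrict_mem measurableSet_Ioi] with r hr hr0
    have hr1 : (0 : ℝ) < r := hr0
    simp only [Pi.zero_apply, mul_eq_zero, ENNReal.ofReal_eq_zero] at hr
    rcases hr with hr | hr
    · have : 0 < r ^ l * Real.exp (-r ^ 2) := by positivity
      linarith
    · have : 0 < r⁻¹ := by positivity
      linarith
  rw [Filter.eventually_false_iff_eq_bot, ae_eq_bot, Measure.restrict_eq_zero,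
    Real.volume_Ioi] at h2
  exact ENNReal.top_ne_zero h2

theorem taskQ_psi1 (l : ℕ) (hl : 1 ≤ l) :
    ∫⁻ r in Ioi (0 : ℝ), ENNReal.ofReal (r ^ l * Real.exp (-r ^ 2)) * ENNReal.ofReal r⁻¹ ≠ ⊤ := by
  have h1 : ∫⁻ r in Ioi (0 : ℝ), ENNReal.ofReal (r ^ l * Real.exp (-r ^ 2)) * ENNReal.ofReal r⁻¹
      = ∫⁻ r in Ioi (0 : ℝ), ENNReal.ofReal (r ^ ((l : ℝ) - 1) * Real.exp (-1 * r ^ 2)) := by
    refine setLIntegral_congr_fun measurableSet_Ioi fun r hr => ?_
    have hr1 : (0 : ℝ) < r := hr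
    rw [← ENNReal.ofReal_mul (by positivity)]
    congr 1
    rw [Real.rpow_sub_one hr1.ne', Real.rpow_natCast]
    ring_nf
  rw [h1]
  have hs : (-1 : ℝ) < (l : ℝ) - 1 := by
    have : (0 : ℝ) < l := by exact_mod_cast hl
    linarith
  have h2 := integrableOn_rpow_mul_exp_neg_mul_sq (b := 1) one_pos hs
  have h3 := h2.lintegral_lt_top
  exact h3.ne

theorem taskQ_cut {n k m : ℕ} (hk : 1 ≤ k) (hm : 1 ≤ m) (hn : n = k * (m + 1)) (N : EE n → ℝ)
    (hN : TaskQN N) : taskQ_A (k * m) m N = taskQ_B (k * m) m N := by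
  have hn1 : 1 ≤ n := by rw [hn]; exact Nat.mul_pos hk (Nat.succ_pos m)
  have hl : 1 ≤ k * m := Nat.mul_pos hk hm
  have hNm : Measurable N := hN.cont.measurable
  have hsum : Measurable (fun z : Fin m → EE n => ∑ i, z i) := by fun_prop
  have hNs : Measurable (fun z : Fin m → EE n => N (∑ i, z i)) := hNm.comp hsum
  have hNi : ∀ i, Measurable (fun z : Fin m → EE n => N (z i)) :=
    fun i => hNm.comp (measurable_pi_apply i)
  unfold taskQ_A
  have h := cut_lemma (volume : Measure (Fin m → EE n))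
    (fun z => ENNReal.ofReal ((N (∑ i, z i) ^ (k * m))⁻¹ * ∏ i, (N (z i) ^ (k * m))⁻¹))
    (by
      refine Measurable.ennreal_ofReal (Measurable.mul (hNs.pow_const _).inv ?_)
      exact Finset.measurable_prod _ fun i _ => ((hNi i).pow_const _).inv)
    (by
      intro r hr z
      rw [← ENNReal.ofReal_mul (by positivity)]
      congr 1
      have e1 : ∑ i, (r • z) i = r • ∑ i, z i := by simp [Finset.smul_sum]
      rw [e1, hN.hom r hr.le]
      have e2 : ∀ i, N ((r • z) i) = r * N (z i) := fun i => hN.hom r hr.le (z i)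
      simp_rw [e2, mul_pow, mul_inv, Finset.prod_mul_distrib]
      rw [Finset.prod_const, Finset.card_univ, Fintype.card_fin]
      have e3 : Module.finrank ℝ (Fin m → EE n) = m * n := by
        rw [Module.finrank_pi_fintype]
        simp
      rw [e3]
      have e4 : (r ^ (m * n))⁻¹ = (r ^ (k * m))⁻¹ * ((r ^ (k * m))⁻¹) ^ m := by
        rw [← pow_succ', inv_pow, ← pow_mul]
        congr 2
        rw [hn]; ring
      rw [e4]
      ring)
    (fun z => ‖∑ i, z i‖) (fun z => N (∑ i, z i)) hsum.norm hNs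
    (by
      filter_upwards [taskQ_ae_sum hn1 hm] with z hz
      exact norm_pos_iff.mpr hz)
    (by
      filter_upwards [taskQ_ae_sum hn1 hm] with z hz
      exact hN.pos hz)
    (by
      intro r hr z
      have e1 : ∑ i, (r • z) i = r • ∑ i, z i := by simp [Finset.smul_sum]
      rw [e1, norm_smul, Real.norm_of_nonneg hr.le])
    (by
      intro r hr z
      have e1 : ∑ i, (r • z) i = r • ∑ i, z i := by simp [Finset.smul_sum]
      rw [e1, hN.hom r hr.le])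
    (fun r => ENNReal.ofReal (r ^ (k * m) * Real.exp (-r ^ 2))) (by fun_prop)
    (taskQ_psi0 _) (taskQ_psi1 _ hl)
  rw [h]
  unfold taskQ_B
  refine lintegral_congr_ae ?_
  filter_upwards [taskQ_ae_sum hn1 hm] with z hz
  have hp := hN.pos hz
  have hp2 : ∀ i, 0 ≤ (N (z i) ^ (k * m))⁻¹ := fun i => by
    have := hN.nonneg (z i)
    positivity
  rw [← ENNReal.ofReal_prod_of_nonneg fun i _ => hp2 i]
  rw [← ENNReal.ofReal_mul (mul_nonneg (by positivity) (Finset.prod_nonneg fun i _ => hp2 i)),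
    ← ENNReal.ofReal_mul (Real.exp_nonneg _)]
  congr 1
  field_simp

theorem taskQ_B_gamma {n : ℕ} (l m : ℕ) (hl : 1 ≤ l) (hn : 1 ≤ n) (N : EE n → ℝ)
    (hN : TaskQN N) :
    (ENNReal.ofReal (Real.Gamma ((l : ℝ) / 2))) ^ m * taskQ_B l m N =
      ∫⁻ t : Fin m → ℝ, (∏ i, taskQ_w l (t i)) * ∫⁻ z : Fin m → EE n,
        ENNReal.ofReal (Real.exp (-(1 * N (∑ i, z i) ^ 2 + ∑ i, t i * N (z i) ^ 2))) := by
  have hNm : Measurable N := hN.cont.measurable
  have hsum : Measurable (fun z : Fin m → EE n => ∑ i, z i) := by fun_prop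
  have hNs : Measurable (fun z : Fin m → EE n => N (∑ i, z i)) := hNm.comp hsum
  have hNi : ∀ i, Measurable (fun z : Fin m → EE n => N (z i)) :=
    fun i => hNm.comp (measurable_pi_apply i)
  unfold taskQ_B
  rw [← lintegral_const_mul]
  swap
  · refine Measurable.mul ?_ ?_
    · exact (hNs.pow_const 2).neg.exp.ennreal_ofReal
    · exact Finset.measurable_prod _ fun i _ => ((hNi i).pow_const _).inv.ennreal_ofReal
  have hall : ∀ᵐ z : Fin m → EE n, ∀ i, z i ≠ 0 := by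
    rw [ae_all_iff]
    exact fun i => taskQ_ae_coord hn i
  have h1 : ∫⁻ z : Fin m → EE n, (ENNReal.ofReal (Real.Gamma ((l : ℝ) / 2))) ^ m *
        (ENNReal.ofReal (Real.exp (-N (∑ i, z i) ^ 2)) * ∏ i, ENNReal.ofReal ((N (z i) ^ l)⁻¹))
      = ∫⁻ z : Fin m → EE n, ∫⁻ t : Fin m → ℝ, (∏ i, taskQ_w l (t i)) *
        ENNReal.ofReal (Real.exp (-(1 * N (∑ i, z i) ^ 2 + ∑ i, t i * N (z i) ^ 2))) := by
    refine lintegral_congr_ae ?_
    filter_upwards [hall] with z hz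
    have e1 : ∀ t : Fin m → ℝ, (∏ i, taskQ_w l (t i)) *
        ENNReal.ofReal (Real.exp (-(1 * N (∑ i, z i) ^ 2 + ∑ i, t i * N (z i) ^ 2))) =
        ENNReal.ofReal (Real.exp (-N (∑ i, z i) ^ 2)) *
          ∏ i, (taskQ_w l (t i) * ENNReal.ofReal (Real.exp (-(t i * N (z i) ^ 2)))) := by
      intro t
      rw [Finset.prod_mul_distrib, one_mul, neg_add, Real.exp_add,
        ENNReal.ofReal_mul (Real.exp_nonneg _), ← Finset.sum_neg_distrib, Real.exp_sum,
        ENNReal.ofReal_prod_of_nonneg fun i _ => Real.exp_nonneg _]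
      ring
    simp_rw [e1]
    rw [lintegral_const_mul]
    swap
    · refine Finset.measurable_prod _ fun i _ => ?_
      exact ((taskQ_w_meas l).comp (measurable_pi_apply i)).mul (by fun_prop)
    rw [taskQ_pi m (fun i t => taskQ_w l t * ENNReal.ofReal (Real.exp (-(t * N (z i) ^ 2))))
      (fun i => (taskQ_w_meas l).mul (by fun_prop))]
    have e2 : ∀ i, ∫⁻ t : ℝ, taskQ_w l t * ENNReal.ofReal (Real.exp (-(t * N (z i) ^ 2))) =
        ENNReal.ofReal (Real.Gamma ((l : ℝ) / 2)) * ENNReal.ofReal ((N (z i) ^ l)⁻¹) :=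
      fun i => taskQ_gamma l hl _ (hN.pos (hz i))
    simp_rw [e2]
    rw [Finset.prod_mul_distrib, Finset.prod_const, Finset.card_univ, Fintype.card_fin]
    ring
  rw [h1, lintegral_lintegral_swap]
  · refine lintegral_congr fun t => ?_
    rw [lintegral_const_mul]
    refine (Measurable.exp (Measurable.neg (Measurable.add ?_ ?_))).ennreal_ofReal
    · exact (hNs.pow_const 2).const_mul 1
    · exact Finset.measurable_sum _ fun i _ => ((hNi i).pow_const 2).const_mul _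
  · refine Measurable.aemeasurable ?_
    refine Measurable.mul ?_ ?_
    · refine Finset.measurable_prod _ fun i _ => ?_
      exact (taskQ_w_meas l).comp ((measurable_pi_apply i).comp measurable_snd)
    · refine (Measurable.exp (Measurable.neg (Measurable.add ?_ ?_))).ennreal_ofReal
      · exact ((hNs.comp measurable_fst).pow_const 2).const_mul 1
      · refine Finset.measurable_sum _ fun i _ => ?_
        exact ((measurable_pi_apply i).comp measurable_snd).mul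
          (((hNi i).comp measurable_fst).pow_const 2)

theorem TaskQN.zero {n : ℕ} {N : EE n → ℝ} (h : TaskQN N) : N 0 = 0 := by
  have := h.hom 0 le_rfl 0
  simpa using this

theorem taskQ_ext {n l : ℕ} (hl : 1 ≤ l) (N : EE n → ℝ) (hN : TaskQN N) (f : C(SS n, ℝ))
    (hf : ∀ θ : SS n, f θ = (N θ ^ l)⁻¹) (x : EE n) :
    ext f x = ‖x‖ ^ l * (N x ^ l)⁻¹ := by
  unfold ext
  by_cases hx : x = 0
  · have h1 : ¬ ‖(‖x‖⁻¹ • x : EE n)‖ = 1 := by rw [hx]; simp
    rw [dif_neg h1, hx, norm_zero, zero_pow (by omega), zero_mul]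
  · have hx1 : 0 < ‖x‖ := norm_pos_iff.mpr hx
    have h1 : ‖(‖x‖⁻¹ • x : EE n)‖ = 1 := by
      rw [norm_smul, norm_inv, norm_norm]
      exact inv_mul_cancel₀ hx1.ne'
    rw [dif_pos h1, hf]
    have h2 : N (‖x‖⁻¹ • x) = ‖x‖⁻¹ * N x := hN.hom _ (by positivity) x
    change (N (‖x‖⁻¹ • x) ^ l)⁻¹ = _
    rw [h2, mul_pow, mul_inv, inv_pow, inv_inv]

theorem taskQ_cancel {n l : ℕ} (hl : 1 ≤ l) (N : EE n → ℝ) (hN : TaskQN N) (x : EE n) :
    (‖x‖ ^ l)⁻¹ * (‖x‖ ^ l * (N x ^ l)⁻¹) = (N x ^ l)⁻¹ := by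
  by_cases hx : x = 0
  · rw [hx, hN.zero, norm_zero, zero_pow (by omega)]
    simp
  · have hx1 : 0 < ‖x‖ := norm_pos_iff.mpr hx
    rw [← mul_assoc, inv_mul_cancel₀ (by positivity), one_mul]

theorem taskQ_Lam {n l m : ℕ} (hl : 1 ≤ l) (N : EE n → ℝ) (hN : TaskQN N) (f : C(SS n, ℝ))
    (hf : ∀ θ : SS n, f θ = (N θ ^ l)⁻¹) :
    Lam l m (fun _ => f) = (taskQ_A l m N).toReal := by
  have hNm : Measurable N := hN.cont.measurable
  have hsum : Measurable (fun z : Fin m → EE n => ∑ i, z i) := by fun_prop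
  have hNs : Measurable (fun z : Fin m → EE n => N (∑ i, z i)) := hNm.comp hsum
  have hNi : ∀ i, Measurable (fun z : Fin m → EE n => N (z i)) :=
    fun i => hNm.comp (measurable_pi_apply i)
  unfold Lam
  have h1 : ∀ z : Fin m → EE n, Real.exp (-‖∑ i, z i‖ ^ 2) * ext f (∑ i, z i) *
      ∏ i : Fin m, ((‖z i‖ ^ l)⁻¹ * ext f (z i)) =
      ((N (∑ i, z i) ^ l)⁻¹ * ∏ i, (N (z i) ^ l)⁻¹) *
        (‖∑ i, z i‖ ^ l * Real.exp (-‖∑ i, z i‖ ^ 2)) := by
    intro z
    rw [taskQ_ext hl N hN f hf]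
    have h2 : ∀ i, (‖z i‖ ^ l)⁻¹ * ext f (z i) = (N (z i) ^ l)⁻¹ := by
      intro i
      rw [taskQ_ext hl N hN f hf, taskQ_cancel hl N hN]
    simp_rw [h2]
    ring
  have hnn : ∀ z : Fin m → EE n, 0 ≤ (N (∑ i, z i) ^ l)⁻¹ * ∏ i, (N (z i) ^ l)⁻¹ := by
    intro z
    refine mul_nonneg (inv_nonneg.mpr (pow_nonneg (hN.nonneg _) _)) ?_
    exact Finset.prod_nonneg fun i _ => inv_nonneg.mpr (pow_nonneg (hN.nonneg _) _)
  simp_rw [h1]
  rw [integral_eq_lintegral_of_nonneg_ae]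
  · unfold taskQ_A
    congr 1
    refine lintegral_congr fun z => ?_
    rw [ENNReal.ofReal_mul (hnn z)]
  · exact Filter.Eventually.of_forall fun z => mul_nonneg (hnn z) (by positivity)
  · refine Measurable.aestronglyMeasurable ?_
    refine Measurable.mul (Measurable.mul (hNs.pow_const _).inv ?_) ?_
    · exact Finset.measurable_prod _ fun i _ => ((hNi i).pow_const _).inv
    · exact (hsum.norm.pow_const _).mul (hsum.norm.pow_const 2).neg.exp

theorem taskQ_norm (n : ℕ) : TaskQN (fun x : EE n => ‖x‖) where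
  cont := continuous_norm
  lower := ⟨1, one_pos, fun x => by rw [one_mul]⟩
  hom := fun r hr x => by rw [norm_smul, Real.norm_of_nonneg hr]

theorem taskQ_norm_div (n : ℕ) (r : ℝ) (hr : 0 < r) : TaskQN (fun x : EE n => ‖x‖ / r) where
  cont := by fun_prop
  lower := ⟨r⁻¹, by positivity, fun x => by rw [div_eq_mul_inv, mul_comm]⟩
  hom := fun s hs x => by rw [norm_smul, Real.norm_of_nonneg hs, mul_div_assoc]

theorem taskQ_A_div (n l m : ℕ) (r : ℝ) (hr : 0 < r) :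
    taskQ_A l m (fun x : EE n => ‖x‖ / r) =
      ENNReal.ofReal (r ^ (l * (m + 1))) * taskQ_A l m (fun x : EE n => ‖x‖) := by
  unfold taskQ_A
  rw [← lintegral_const_mul' _ _ ENNReal.ofReal_ne_top]
  refine lintegral_congr fun z => ?_
  have h1 : ((‖∑ i, z i‖ / r) ^ l)⁻¹ * ∏ i, ((‖z i‖ / r) ^ l)⁻¹ =
      r ^ (l * (m + 1)) * ((‖∑ i, z i‖ ^ l)⁻¹ * ∏ i, (‖z i‖ ^ l)⁻¹) := by
    simp_rw [div_pow, inv_div, div_eq_mul_inv, Finset.prod_mul_distrib]
    rw [Finset.prod_const, Finset.card_univ, Fintype.card_fin, mul_add, pow_add, mul_one, pow_mul]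
    ring
  rw [h1, ENNReal.ofReal_mul (by positivity), mul_assoc]

theorem taskQ_A_fin (n l m : ℕ)
    (hfin : Integrable (fun z : Fin m → EE n => Real.exp (-‖∑ i, z i‖ ^ 2) *
      ∏ i : Fin m, (‖z i‖ ^ l)⁻¹)) :
    taskQ_A l m (fun x : EE n => ‖x‖) ≠ ⊤ := by
  refine ne_top_of_le_ne_top hfin.lintegral_lt_top.ne ?_
  unfold taskQ_A
  refine lintegral_mono fun z => ?_
  rw [← ENNReal.ofReal_mul (by positivity)]
  refine ENNReal.ofReal_le_ofReal ?_
  have h1 : (‖∑ i, z i‖ ^ l)⁻¹ * ‖∑ i, z i‖ ^ l ≤ 1 := inv_mul_le_one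
  have h2 : 0 ≤ Real.exp (-‖∑ i, z i‖ ^ 2) * ∏ i : Fin m, (‖z i‖ ^ l)⁻¹ := by positivity
  calc (‖∑ i, z i‖ ^ l)⁻¹ * (∏ i, (‖z i‖ ^ l)⁻¹) *
        (‖∑ i, z i‖ ^ l * Real.exp (-‖∑ i, z i‖ ^ 2))
      = ((‖∑ i, z i‖ ^ l)⁻¹ * ‖∑ i, z i‖ ^ l) *
        (Real.exp (-‖∑ i, z i‖ ^ 2) * ∏ i : Fin m, (‖z i‖ ^ l)⁻¹) := by ring
    _ ≤ 1 * (Real.exp (-‖∑ i, z i‖ ^ 2) * ∏ i : Fin m, (‖z i‖ ^ l)⁻¹) := by gcongr
    _ = _ := one_mul _

theorem Lam_compare {n k m : ℕ} (hk : 1 ≤ k) (hm : 1 ≤ m) (hn : n = k * (m + 1))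
    {K : Set (EE n)} (hK : IsStarBody K) (hs : ∀ x ∈ K, -x ∈ K) (r : ℝ) (hr : 0 < r)
    (hvol : volume K = volume (closedBall (0 : EE n) r)) (f : C(SS n, ℝ))
    (hf : ∀ θ : SS n, f θ = radial K θ ^ (k * m))
    (hfin : Integrable (fun z : Fin m → EE n => Real.exp (-‖∑ i, z i‖ ^ 2) *
      ∏ i : Fin m, (‖z i‖ ^ (k * m))⁻¹)) :
    Lam (k * m) m (fun _ => f) ≤ r ^ (k * m * (m + 1)) * Lam (n := n) (k * m) m (fun _ => 1) := by
  have hn1 : 1 ≤ n := by rw [hn]; exact Nat.mul_pos hk (Nat.succ_pos m)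
  have hl : 1 ≤ k * m := Nat.mul_pos hk hm
  obtain ⟨c, C, hc, _, hN1, hN2⟩ := hK.gau_bounds hn1
  have hN : TaskQN (gau K) := ⟨hK.continuous_gau, ⟨c, hc, hN1⟩, fun s hs' x => gau_smul K hs' x⟩
  have hf' : ∀ θ : SS n, f θ = (gau K θ ^ (k * m))⁻¹ := by
    intro θ
    rw [hf]
    unfold gau
    rw [inv_pow, inv_inv]
  have hvol' : volume {x | gau K x ≤ 1} = volume (closedBall (0 : EE n) r) := by
    rw [← hvol]
    congr 1
    ext x
    exact (hK.mem_iff_gau hn1 x).symm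
  rw [taskQ_Lam hl (gau K) hN f hf',
    taskQ_Lam hl (fun x : EE n => ‖x‖) (taskQ_norm n) 1 (by intro θ; simp)]
  have hB : taskQ_B (k * m) m (gau K) ≤ taskQ_B (k * m) m (fun x : EE n => ‖x‖ / r) := by
    have hl' : (0 : ℝ) < ((k * m : ℕ) : ℝ) / 2 := by
      have : (0 : ℝ) < ((k * m : ℕ) : ℝ) := by exact_mod_cast hl
      positivity
    have hG : ENNReal.ofReal (Real.Gamma (((k * m : ℕ) : ℝ) / 2)) ^ m ≠ 0 :=
      pow_ne_zero _ (ENNReal.ofReal_pos.mpr (Real.Gamma_pos_of_pos hl')).ne'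
    have hG' : ENNReal.ofReal (Real.Gamma (((k * m : ℕ) : ℝ) / 2)) ^ m ≠ ⊤ :=
      ENNReal.pow_ne_top ENNReal.ofReal_ne_top
    have h1 : ENNReal.ofReal (Real.Gamma (((k * m : ℕ) : ℝ) / 2)) ^ m *
          taskQ_B (k * m) m (gau K) ≤
        ENNReal.ofReal (Real.Gamma (((k * m : ℕ) : ℝ) / 2)) ^ m *
          taskQ_B (k * m) m (fun x : EE n => ‖x‖ / r) := by
      rw [taskQ_B_gamma _ _ hl hn1 _ hN, taskQ_B_gamma _ _ hl hn1 _ (taskQ_norm_div n r hr)]
      refine lintegral_mono fun t => ?_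
      by_cases ht : ∀ i, 0 < t i
      · exact mul_le_mul' le_rfl (gauss_compare hn1 hm (gau K) hK.continuous_gau c C hc hN1 hN2
          (fun s hs' x => gau_smul K hs' x) r hr hvol' 1 t one_pos ht)
      · rw [not_forall] at ht
        obtain ⟨i, hi⟩ := ht
        have h0 : ∏ i, taskQ_w (k * m) (t i) = 0 := by
          refine Finset.prod_eq_zero (Finset.mem_univ i) ?_
          unfold taskQ_w
          exact indicator_of_notMem hi _
        rw [h0, zero_mul, zero_mul]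
    exact (ENNReal.mul_le_mul_iff_right hG hG').mp h1
  have hA : taskQ_A (k * m) m (gau K) ≤
      ENNReal.ofReal (r ^ (k * m * (m + 1))) * taskQ_A (k * m) m (fun x : EE n => ‖x‖) := by
    rw [taskQ_cut hk hm hn _ hN, ← taskQ_A_div n (k * m) m r hr,
      taskQ_cut hk hm hn _ (taskQ_norm_div n r hr)]
    exact hB
  have hne : ENNReal.ofReal (r ^ (k * m * (m + 1))) *
      taskQ_A (k * m) m (fun x : EE n => ‖x‖) ≠ ⊤ :=
    ENNReal.mul_ne_top ENNReal.ofReal_ne_top (taskQ_A_fin n (k * m) m hfin)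
  have h2 := ENNReal.toReal_mono hne hA
  rw [ENNReal.toReal_mul, ENNReal.toReal_ofReal (by positivity)] at h2
  exact h2

end Pool.Agent.Lib.MP_7548d4_gt
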