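import Pool.Agent.Lib.MP_7548d4_gt.Defs

set_option autoImplicit false
open MeasureTheory Metric Set Filter Topology
open scoped Pointwise

namespace Pool.Agent.Lib.MP_7548d4_gt

section TaskH
variable {n : ℕ}

/-- action of a linear isometry on the sphere -/
noncomputable def taskH_act (U : EE n ≃ₗᵢ[ℝ] EE n) (η : SS n) : SS n :=
  ⟨U η, by simp⟩

theorem taskH_coe_act (U : EE n ≃ₗᵢ[ℝ] EE n) (η : SS n) : (taskH_act U η : EE n) = U η := rfl

theorem taskH_continuous_act (U : EE n ≃ₗᵢ[ℝ] EE n) : Continuous (taskH_act U) := by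
  apply Continuous.subtype_mk
  fun_prop

theorem taskH_mp (U : EE n ≃ₗᵢ[ℝ] EE n) : MeasurePreserving (taskH_act U) (sig n) (sig n) := by
  refine ⟨(taskH_continuous_act U).measurable, ?_⟩
  ext s hs
  rw [Measure.map_apply (taskH_continuous_act U).measurable hs, sig,
    Measure.toSphere_apply' _ ((taskH_continuous_act U).measurable hs),
    Measure.toSphere_apply' _ hs]
  congr 1
  have : Ioo (0:ℝ) 1 • (((↑) : SS n → EE n) '' (taskH_act U ⁻¹' s)) =
      U ⁻¹' (Ioo (0 : ℝ) 1 • (((↑) : SS n → EE n) '' s)) := by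
    ext x
    simp only [Set.mem_smul, mem_image, mem_preimage]
    constructor
    · rintro ⟨r, hr, _, ⟨η, hη, rfl⟩, rfl⟩
      exact ⟨r, hr, _, ⟨_, hη, rfl⟩, by simp [taskH_act]⟩
    · rintro ⟨r, hr, _, ⟨η, hη, rfl⟩, h⟩
      refine ⟨r, hr, _, ⟨taskH_act U.symm η, ?_, rfl⟩, ?_⟩
      · have : taskH_act U (taskH_act U.symm η) = η := by
          apply Subtype.ext
          simp [taskH_act]
        change taskH_act U (taskH_act U.symm η) ∈ s
        rw [this]
        exact hη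
      · rw [taskH_coe_act, ← map_smul, h]
        simp
  rw [this]
  exact U.measurePreserving.measure_preimage_equiv (f := U.toHomeomorph.toMeasurableEquiv) _

theorem taskH_exists_rot (θ θ' : SS n) : ∃ U : EE n ≃ₗᵢ[ℝ] EE n, taskH_act U θ = θ' :=
  ⟨Submodule.reflection (ℝ ∙ ((θ : EE n) - θ'))ᗮ, Subtype.ext (Submodule.reflection_sub (by simp))⟩

theorem taskH_inner_act (U : EE n ≃ₗᵢ[ℝ] EE n) (θ η : SS n) :
    inner ℝ (taskH_act U θ : EE n) (η : EE n) = inner ℝ (θ : EE n) (taskH_act U.symm η : EE n) := by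
  rw [taskH_coe_act, taskH_coe_act]
  have := U.inner_map_map (θ : EE n) (U.symm η)
  rw [U.apply_symm_apply] at this
  exact this

theorem taskH_indep (N : ℕ) (θ θ' : SS n) :
    ∫ η : SS n, (inner ℝ (θ : EE n) (η : EE n)) ^ (2 * N) ∂(sig n) =
      ∫ η : SS n, (inner ℝ (θ' : EE n) (η : EE n)) ^ (2 * N) ∂(sig n) := by
  obtain ⟨U, rfl⟩ := taskH_exists_rot θ θ'
  have h := (taskH_mp U.symm)
  simp_rw [taskH_inner_act]
  rw [← h.map_eq, integral_map h.measurable.aemeasurable]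
  · rw [h.map_eq]
  · apply Continuous.aestronglyMeasurable
    fun_prop

/-- the cap around the axis of `θ` -/
def taskH_cap (θ : SS n) (a : ℝ) : Set (SS n) := {η | a ≤ (inner ℝ (θ : EE n) (η : EE n)) ^ 2}

theorem taskH_cap_meas (θ : SS n) (a : ℝ) : MeasurableSet (taskH_cap θ a) :=
  (isClosed_le continuous_const (by fun_prop)).measurableSet

theorem taskH_cap_indep (a : ℝ) (θ θ' : SS n) :
    (sig n).real (taskH_cap θ a) = (sig n).real (taskH_cap θ' a) := by
  obtain ⟨U, rfl⟩ := taskH_exists_rot θ θ'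
  have h := (taskH_mp U.symm)
  have h2 : taskH_cap (taskH_act U θ) a = taskH_act U.symm ⁻¹' taskH_cap θ a := by
    ext η
    simp only [taskH_cap, Set.mem_ofPred_eq, mem_preimage, taskH_inner_act]
  rw [h2, measureReal_def, measureReal_def, h.measure_preimage (taskH_cap_meas _ _).nullMeasurableSet]

theorem taskH_inner_self (θ : SS n) : inner ℝ (θ : EE n) (θ : EE n) = (1 : ℝ) := by
  rw [real_inner_self_eq_norm_sq]
  simp

theorem taskH_cap_pos (θ : SS n) {a : ℝ} (ha : a < 1) : 0 < (sig n).real (taskH_cap θ a) := by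
  have ho : IsOpen {η : SS n | a < (inner ℝ (θ : EE n) (η : EE n)) ^ 2} :=
    isOpen_lt continuous_const (by fun_prop)
  have hne : {η : SS n | a < (inner ℝ (θ : EE n) (η : EE n)) ^ 2}.Nonempty :=
    ⟨θ, by simp only [Set.mem_ofPred_eq, taskH_inner_self]; simpa using ha⟩
  have h1 : 0 < sig n {η : SS n | a < (inner ℝ (θ : EE n) (η : EE n)) ^ 2} :=
    IsOpen.measure_pos (μ := (volume : Measure (EE n)).toSphere) ho hne
  have h2 : sig n {η : SS n | a < (inner ℝ (θ : EE n) (η : EE n)) ^ 2} ≤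
      sig n (taskH_cap θ a) := measure_mono fun η (hη : a < _) => le_of_lt hη
  exact ENNReal.toReal_pos (h1.trans_le h2).ne' (measure_ne_top _ _)

theorem taskH_lower (θ : SS n) (N : ℕ) {a : ℝ} (ha0 : 0 ≤ a) :
    a ^ N * (sig n).real (taskH_cap θ a) ≤
      ∫ η : SS n, (inner ℝ (θ : EE n) (η : EE n)) ^ (2 * N) ∂(sig n) := by
  have hi : Integrable (fun η : SS n => (inner ℝ (θ : EE n) (η : EE n)) ^ (2 * N)) (sig n) :=
    Continuous.integrable_of_hasCompactSupport (by fun_prop) (HasCompactSupport.of_compactSpace _)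
  calc a ^ N * (sig n).real (taskH_cap θ a) = ∫ η in taskH_cap θ a, a ^ N ∂(sig n) := by
        rw [setIntegral_const, smul_eq_mul, mul_comm]
    _ ≤ ∫ η in taskH_cap θ a, (inner ℝ (θ : EE n) (η : EE n)) ^ (2 * N) ∂(sig n) := by
        apply setIntegral_mono_on (integrable_const _).integrableOn hi.integrableOn
          (taskH_cap_meas _ _)
        intro η hη
        rw [pow_mul]
        exact pow_le_pow_left₀ ha0 hη N
    _ ≤ ∫ η : SS n, (inner ℝ (θ : EE n) (η : EE n)) ^ (2 * N) ∂(sig n) := by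
        apply setIntegral_le_integral hi
        filter_upwards with η
        rw [pow_mul]
        positivity

/-- even functions: closeness on the caps -/
theorem taskH_close (f : C(SS n, ℝ)) (hf : ∀ θ : SS n, f (-θ) = f θ) {ε : ℝ} (hε : 0 < ε) :
    ∃ δ : ℝ, 0 < δ ∧ δ < 1 ∧ ∀ θ η : SS n, 1 - δ ≤ (inner ℝ (θ : EE n) (η : EE n)) ^ 2 →
      |f η - f θ| ≤ ε := by
  have huc : UniformContinuous f := CompactSpace.uniformContinuous_of_continuous f.continuous
  obtain ⟨d, hd, hd2⟩ := Metric.uniformContinuous_iff.1 huc ε hε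
  refine ⟨min (1 / 2) (d ^ 2 / 4), by positivity, by
    exact lt_of_le_of_lt (min_le_left _ _) (by norm_num), ?_⟩
  have key : ∀ θ η : SS n, 1 - min (1 / 2) (d ^ 2 / 4) ≤ (inner ℝ (θ : EE n) (η : EE n)) ^ 2 →
      0 ≤ (inner ℝ (θ : EE n) (η : EE n) : ℝ) → |f η - f θ| ≤ ε := by
    intro θ η h h0
    have h1 : (inner ℝ (θ : EE n) (η : EE n) : ℝ) ≤ 1 := by
      have := real_inner_le_norm (θ : EE n) (η : EE n)
      simpa using this
    have h2 : 1 - min (1 / 2) (d ^ 2 / 4) ≤ (inner ℝ (θ : EE n) (η : EE n) : ℝ) := by nlinarith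
    have h3 : ‖(η : EE n) - θ‖ ^ 2 = 2 - 2 * inner ℝ (θ : EE n) (η : EE n) := by
      rw [norm_sub_sq_real, real_inner_comm]
      simp
      ring
    have h4 : ‖(η : EE n) - θ‖ ^ 2 < d ^ 2 := by
      rw [h3]
      have := min_le_right (1 / 2) (d ^ 2 / 4)
      nlinarith [sq_pos_of_pos hd]
    have h5 : dist η θ < d := by
      rw [Subtype.dist_eq, dist_eq_norm]
      exact lt_of_pow_lt_pow_left₀ 2 hd.le h4
    exact (hd2 h5).le
  intro θ η h
  rcases le_total 0 (inner ℝ (θ : EE n) (η : EE n) : ℝ) with h0 | h0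
  · exact key θ η h h0
  · rw [← hf η]
    apply key θ (-η)
    · have : ((-η : SS n) : EE n) = -(η : EE n) := rfl
      rw [this, inner_neg_right, neg_sq]
      exact h
    · have : ((-η : SS n) : EE n) = -(η : EE n) := rfl
      rw [this, inner_neg_right]
      linarith

theorem taskH_main (θ : SS n) (f : C(SS n, ℝ)) {ε δ : ℝ} (hε : 0 < ε) (hδ0 : 0 < δ) (hδ1 : δ < 1)
    (hclose : ∀ η : SS n, 1 - δ ≤ (inner ℝ (θ : EE n) (η : EE n)) ^ 2 → |f η - f θ| ≤ ε) (N : ℕ) :
    |(∫ η : SS n, (inner ℝ (θ : EE n) (η : EE n)) ^ (2 * N) ∂(sig n))⁻¹ *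
      (∫ η : SS n, f η * (inner ℝ (θ : EE n) (η : EE n)) ^ (2 * N) ∂(sig n)) - f θ| ≤
    ε + 2 * ‖f‖ * (sig n).real univ / (sig n).real (taskH_cap θ (1 - δ / 2)) *
      ((1 - δ) / (1 - δ / 2)) ^ N := by
  set I := ∫ η : SS n, (inner ℝ (θ : EE n) (η : EE n)) ^ (2 * N) ∂(sig n) with hI
  set A := (sig n).real (taskH_cap θ (1 - δ / 2)) with hA
  have hApos : 0 < A := taskH_cap_pos θ (by linarith)
  have hlow : (1 - δ / 2) ^ N * A ≤ I := taskH_lower θ N (by linarith)
  have hb : 0 < 1 - δ / 2 := by linarith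
  have hIpos : 0 < I := lt_of_lt_of_le (by positivity) hlow
  have hi : Integrable (fun η : SS n => (inner ℝ (θ : EE n) (η : EE n)) ^ (2 * N)) (sig n) :=
    Continuous.integrable_of_hasCompactSupport (by fun_prop) (HasCompactSupport.of_compactSpace _)
  have hif : Integrable (fun η : SS n => f η * (inner ℝ (θ : EE n) (η : EE n)) ^ (2 * N)) (sig n) :=
    Continuous.integrable_of_hasCompactSupport (by fun_prop) (HasCompactSupport.of_compactSpace _)
  have h1 : I⁻¹ * (∫ η : SS n, f η * (inner ℝ (θ : EE n) (η : EE n)) ^ (2 * N) ∂(sig n)) - f θ =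
      I⁻¹ * ∫ η : SS n, (f η - f θ) * (inner ℝ (θ : EE n) (η : EE n)) ^ (2 * N) ∂(sig n) := by
    have : ∫ η : SS n, (f η - f θ) * (inner ℝ (θ : EE n) (η : EE n)) ^ (2 * N) ∂(sig n) =
        (∫ η : SS n, f η * (inner ℝ (θ : EE n) (η : EE n)) ^ (2 * N) ∂(sig n)) - f θ * I := by
      rw [hI, ← integral_const_mul, ← integral_sub hif (hi.const_mul _)]
      congr 1
      ext η
      ring
    rw [this]
    field_simp
  rw [h1, abs_mul, abs_of_pos (inv_pos.2 hIpos)]
  have h2 : |∫ η : SS n, (f η - f θ) * (inner ℝ (θ : EE n) (η : EE n)) ^ (2 * N) ∂(sig n)| ≤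
      ε * I + 2 * ‖f‖ * (1 - δ) ^ N * (sig n).real univ := by
    have h3 : ε * I + 2 * ‖f‖ * (1 - δ) ^ N * (sig n).real univ =
        ∫ η : SS n, (ε * (inner ℝ (θ : EE n) (η : EE n)) ^ (2 * N) + 2 * ‖f‖ * (1 - δ) ^ N)
          ∂(sig n) := by
      rw [integral_add (hi.const_mul _) (integrable_const _), integral_const_mul, integral_const,
        smul_eq_mul, mul_comm ((sig n).real univ)]
    rw [h3, ← Real.norm_eq_abs]
    apply norm_integral_le_of_norm_le ((hi.const_mul _).add (integrable_const _))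
    filter_upwards with η
    simp only [Pi.add_apply]
    rw [Real.norm_eq_abs, abs_mul]
    have hp : 0 ≤ (inner ℝ (θ : EE n) (η : EE n) : ℝ) ^ (2 * N) := by
      rw [pow_mul]; positivity
    rw [abs_of_nonneg hp]
    have hp2 : 0 ≤ 2 * ‖f‖ * (1 - δ) ^ N := by
      have : 0 < 1 - δ := by linarith
      positivity
    by_cases hc : 1 - δ ≤ (inner ℝ (θ : EE n) (η : EE n)) ^ 2
    · have := hclose η hc
      nlinarith
    · push Not at hc
      have h4 : (inner ℝ (θ : EE n) (η : EE n) : ℝ) ^ (2 * N) ≤ (1 - δ) ^ N := by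
        rw [pow_mul]
        exact pow_le_pow_left₀ (by positivity) hc.le N
      have h5 : |f η - f θ| ≤ 2 * ‖f‖ := by
        have := abs_sub (f η) (f θ)
        have h6 := f.norm_coe_le_norm η
        have h7 := f.norm_coe_le_norm θ
        rw [Real.norm_eq_abs] at h6 h7
        linarith
      have h8 : |f η - f θ| * (inner ℝ (θ : EE n) (η : EE n) : ℝ) ^ (2 * N) ≤
          2 * ‖f‖ * (1 - δ) ^ N := by
        apply mul_le_mul h5 h4 hp (by positivity)
      have h9 : 0 ≤ ε * (inner ℝ (θ : EE n) (η : EE n) : ℝ) ^ (2 * N) := by positivity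
      linarith
  calc I⁻¹ * |∫ η : SS n, (f η - f θ) * (inner ℝ (θ : EE n) (η : EE n)) ^ (2 * N) ∂(sig n)|
      ≤ I⁻¹ * (ε * I + 2 * ‖f‖ * (1 - δ) ^ N * (sig n).real univ) := by gcongr
    _ = ε + 2 * ‖f‖ * (1 - δ) ^ N * (sig n).real univ / I := by field_simp
    _ ≤ ε + 2 * ‖f‖ * (1 - δ) ^ N * (sig n).real univ / ((1 - δ / 2) ^ N * A) := by
        have : 0 < 1 - δ := by linarith
        gcongr
    _ = _ := by
        rw [div_pow]
        field_simp

theorem peak_tendsto {n : ℕ} (hn : 1 ≤ n) : ∃ c : ℕ → ℝ, ∀ f : C(SS n, ℝ),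
    (∀ θ : SS n, f (-θ) = f θ) → ∀ F : ℕ → C(SS n, ℝ),
    (∀ N θ, F N θ = c N * ∫ η : SS n, f η * (inner ℝ (θ : EE n) (η : EE n)) ^ (2 * N) ∂(sig n)) →
    Tendsto F atTop (𝓝 f) := by
  have : Nonempty (Fin n) := ⟨⟨0, hn⟩⟩
  have : Nontrivial (EE n) := inferInstance
  obtain ⟨θ₀⟩ : Nonempty (SS n) := by
    have : (sphere (0 : EE n) 1).Nonempty := NormedSpace.sphere_nonempty.2 zero_le_one
    exact this.to_subtype
  refine ⟨fun N => (∫ η : SS n, (inner ℝ (θ₀ : EE n) (η : EE n)) ^ (2 * N) ∂(sig n))⁻¹, ?_⟩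
  intro f hf F hF
  rw [Metric.tendsto_atTop]
  intro ε hε
  obtain ⟨δ, hδ0, hδ1, hclose⟩ := taskH_close f hf (half_pos hε)
  have hlim : Tendsto (fun N : ℕ => ε / 2 + 2 * ‖f‖ * (sig n).real univ /
      (sig n).real (taskH_cap θ₀ (1 - δ / 2)) * ((1 - δ) / (1 - δ / 2)) ^ N) atTop
      (𝓝 (ε / 2 + 2 * ‖f‖ * (sig n).real univ /
      (sig n).real (taskH_cap θ₀ (1 - δ / 2)) * 0)) := by
    apply Tendsto.const_add
    apply Tendsto.const_mul
    apply tendsto_pow_atTop_nhds_zero_of_lt_one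
    · apply div_nonneg <;> linarith
    · rw [div_lt_one (by linarith)]
      linarith
  rw [mul_zero, add_zero] at hlim
  obtain ⟨N₀, hN₀⟩ := eventually_atTop.1 (hlim.eventually_lt_const (half_lt_self hε))
  refine ⟨N₀, fun N hN => ?_⟩
  rw [ContinuousMap.dist_lt_iff hε]
  intro θ
  rw [hF N θ, Real.dist_eq]
  simp only []
  rw [taskH_indep N θ₀ θ]
  refine lt_of_le_of_lt (taskH_main θ f (half_pos hε) hδ0 hδ1 (hclose θ) N) ?_
  rw [taskH_cap_indep _ θ θ₀]
  exact hN₀ N hN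

end TaskH

end Pool.Agent.Lib.MP_7548d4_gt
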