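import Mathlib

/-!
# Two lemmas on power series
-/

set_option autoImplicit false
open MeasureTheory Metric Set Filter Topology

namespace Pool.Agent.Lib.MP_7548d4_gt

theorem binom_series (a : ℝ) (ha : 0 < a) : ∃ β : ℕ → ℝ, (∀ j, 0 < β j) ∧
    ∀ x : ℝ, |x| < 1 → HasSum (fun j => β j * x ^ j) ((1 - x) ^ (-a)) := by
  refine ⟨fun j => Ring.choose (a + j - 1) j, ?_, ?_⟩
  · intro j
    have h1 := Ring.factorial_nsmul_multichoose_eq_ascPochhammer a j
    rw [Ring.multichoose_eq, Polynomial.ascPochhammer_smeval_eq_eval] at h1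
    have h2 : 0 < (ascPochhammer ℝ j).eval a := ascPochhammer_pos j a ha
    rw [← h1, nsmul_eq_mul] at h2
    exact pos_of_mul_pos_right h2 (by positivity)
  · intro x hx
    have h := Real.one_div_one_sub_rpow_hasFPowerSeriesOnBall_zero a
    have hx2 : x ∈ Metric.eball (0 : ℝ) 1 := by
      rw [← ENNReal.ofReal_one, Metric.eball_ofReal]
      simpa using hx
    have h3 := h.hasSum hx2
    have hx3 : 0 ≤ 1 - x := by have := (abs_lt.1 hx).2; linarith
    have h4 : (1 - x) ^ (-a) = 1 / (1 - (0 + x)) ^ a := by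
      rw [zero_add, Real.rpow_neg hx3, one_div]
    rw [h4]
    have h5 : (fun j : ℕ => (fun j : ℕ => Ring.choose (a + j - 1) j) j * x ^ j) =
        fun n => (FormalMultilinearSeries.ofScalars ℝ (fun n : ℕ => Ring.choose (a + (n : ℝ) - 1) n) n)
          fun _ => x := by
      funext j
      simp [mul_comm]
    rw [h5]
    exact h3

theorem coeff_mem {X : Type*} [NormedAddCommGroup X] [NormedSpace ℝ X] (W : Submodule ℝ X)
    (hW : IsClosed (W : Set X)) (a : ℕ → X) (s : ℝ → X)
    (hs : ∀ w ∈ Ioo (-1 : ℝ) 1, HasSum (fun j => w ^ j • a j) (s w))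
    (hsW : ∀ w ∈ Ioo (-1 : ℝ) 1, s w ∈ W) (j : ℕ) : a j ∈ W := by
  -- the coefficients are bounded by a geometric sequence
  obtain ⟨C, hC⟩ : ∃ C : ℝ, ∀ i, ‖((1 : ℝ) / 2) ^ i • a i‖ ≤ C := by
    have h := hs (1 / 2) (by constructor <;> norm_num)
    have h1 : Tendsto (fun i => ((1 : ℝ) / 2) ^ i • a i) atTop (𝓝 0) := by
      have h2 := h.summable.tendsto_atTop_zero
      exact h2
    have h3 := h1.norm
    obtain ⟨C, hC⟩ := h3.bddAbove_range
    exact ⟨C, fun i => hC ⟨i, rfl⟩⟩
  have hC0 : 0 ≤ C := le_trans (norm_nonneg _) (hC 0)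
  have hC' : ∀ i, ‖a i‖ ≤ C * 2 ^ i := by
    intro i
    have h := hC i
    rw [norm_smul, Real.norm_of_nonneg (by positivity)] at h
    have h2 : ((1 : ℝ) / 2) ^ i * 2 ^ i = 1 := by rw [← mul_pow]; norm_num
    calc ‖a i‖ = (((1 : ℝ) / 2) ^ i * ‖a i‖) * 2 ^ i := by
          rw [mul_right_comm, h2, one_mul]
      _ ≤ C * 2 ^ i := by
          exact mul_le_mul_of_nonneg_right h (by positivity)
  induction j using Nat.strong_induction_on with
  | _ j ih =>
    -- the truncated series
    have key : ∀ w : ℝ, 0 < w → w ≤ 1 / 4 → ∃ p ∈ W, ‖p - a j‖ ≤ C * 2 ^ j * (4 * w) := by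
      intro w hw0 hw1
      have hw : w ∈ Ioo (-1 : ℝ) 1 := ⟨by linarith, by linarith⟩
      have h1 := hs w hw
      have hwj : w ^ j ≠ 0 := by positivity
      set q : X := s w - ∑ i ∈ Finset.range j, w ^ i • a i with hq
      have h2 : HasSum (fun i => w ^ (i + j) • a (i + j)) q := by
        exact (hasSum_nat_add_iff' j).2 h1
      have h3 : HasSum (fun i => w ^ i • a (i + j)) ((w ^ j)⁻¹ • q) := by
        have h4 := h2.const_smul ((w ^ j)⁻¹)
        refine h4.congr_fun ?_ |> fun h => h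
        intro i
        rw [smul_smul, pow_add, mul_comm (w ^ i) (w ^ j), ← mul_assoc, inv_mul_cancel₀ hwj, one_mul]
      have h5 : HasSum (fun i => w ^ (i + 1) • a (i + 1 + j)) ((w ^ j)⁻¹ • q - a j) := by
        have h6 := (hasSum_nat_add_iff' 1).2 h3
        simpa using h6
      refine ⟨(w ^ j)⁻¹ • q, ?_, ?_⟩
      · refine W.smul_mem _ ?_
        refine W.sub_mem (hsW w hw) ?_
        exact W.sum_mem fun i hi => W.smul_mem _ (ih i (Finset.mem_range.1 hi))
      · have h7 : HasSum (fun i : ℕ => (C * 2 ^ j * (2 * w)) * (2 * w) ^ i)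
            ((C * 2 ^ j * (2 * w)) * (1 - 2 * w)⁻¹) :=
          (hasSum_geometric_of_lt_one (by positivity) (by linarith)).mul_left _
        have h8 := h5.norm_le_of_bounded h7 (by
          intro i
          rw [norm_smul, Real.norm_of_nonneg (by positivity)]
          calc w ^ (i + 1) * ‖a (i + 1 + j)‖ ≤ w ^ (i + 1) * (C * 2 ^ (i + 1 + j)) :=
                mul_le_mul_of_nonneg_left (hC' _) (by positivity)
            _ = (C * 2 ^ j * (2 * w)) * (2 * w) ^ i := by ring)
        refine h8.trans ?_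
        have h9 : (1 - 2 * w)⁻¹ ≤ 2 := by
          rw [inv_le_comm₀ (by linarith) (by norm_num)]
          linarith
        calc (C * 2 ^ j * (2 * w)) * (1 - 2 * w)⁻¹ ≤ (C * 2 ^ j * (2 * w)) * 2 :=
              mul_le_mul_of_nonneg_left h9 (by positivity)
          _ = C * 2 ^ j * (4 * w) := by ring
    -- pass to the limit
    have hcl : a j ∈ closure (W : Set X) := by
      rw [Metric.mem_closure_iff]
      intro ε hε
      have hD : 0 < C * 2 ^ j * 4 + 1 := by positivity
      set w : ℝ := min (1 / 4) (ε / (2 * (C * 2 ^ j * 4 + 1))) with hw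
      have hw0 : 0 < w := lt_min (by norm_num) (by positivity)
      obtain ⟨p, hp, hpa⟩ := key w hw0 (min_le_left _ _)
      refine ⟨p, hp, ?_⟩
      rw [dist_comm, dist_eq_norm]
      refine lt_of_le_of_lt hpa ?_
      have h1 : w ≤ ε / (2 * (C * 2 ^ j * 4 + 1)) := min_le_right _ _
      have h2 : w * (2 * (C * 2 ^ j * 4 + 1)) ≤ ε := by
        rwa [le_div_iff₀ (by positivity)] at h1
      nlinarith [hw0, hC0]
    rwa [hW.closure_eq] at hcl

end Pool.Agent.Lib.MP_7548d4_gt
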