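import Pool.Agent.Lib.MP_7548d4_gt.Defs
import Pool.Agent.Lib.MP_7548d4_gt.Series

/-!
# Zonal smoothing of the average identity
-/

set_option autoImplicit false
open MeasureTheory Metric Set Filter Topology

namespace Pool.Agent.Lib.MP_7548d4_gt

section TaskI
variable {n : ℕ}

/-! ### rank one perturbations of the identity -/

/-- rank one perturbation of the identity -/
noncomputable def taskI_map (η : EE n) (ν : ℝ) : EE n →L[ℝ] EE n :=
  ContinuousLinearMap.id ℝ (EE n) + ν • (innerSL ℝ η).smulRight η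

theorem taskI_map_apply (η : EE n) (ν : ℝ) (x : EE n) :
    taskI_map η ν x = x + (ν * inner ℝ η x) • η := by
  simp [taskI_map, mul_smul]

theorem taskI_comp (η : EE n) (hη : ‖η‖ = 1) (ν μ : ℝ) (h : (1 + ν) * (1 + μ) = 1) (x : EE n) :
    taskI_map η ν (taskI_map η μ x) = x := by
  have h1 : inner ℝ η η = (1 : ℝ) := by rw [real_inner_self_eq_norm_sq, hη]; norm_num
  rw [taskI_map_apply, taskI_map_apply, inner_add_right, inner_smul_right, h1, add_assoc,
    ← add_smul]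
  have h2 : μ * inner ℝ η x + ν * (inner ℝ η x + μ * inner ℝ η x * 1) = 0 := by
    linear_combination (inner ℝ η x) * h
  rw [h2, zero_smul, add_zero]

theorem taskI_norm_sq (η : EE n) (hη : ‖η‖ = 1) (ν : ℝ) (x : EE n) :
    ‖taskI_map η ν x‖ ^ 2 = ‖x‖ ^ 2 + ((1 + ν) ^ 2 - 1) * inner ℝ η x ^ 2 := by
  rw [taskI_map_apply, norm_add_sq_real, norm_smul, hη, inner_smul_right, real_inner_comm,
    mul_one, Real.norm_eq_abs, sq_abs]
  ring

theorem taskI_det (η : EE n) (hη : ‖η‖ = 1) (ν : ℝ) :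
    LinearMap.det ((taskI_map η ν : EE n →L[ℝ] EE n) : EE n →ₗ[ℝ] EE n) = 1 + ν := by
  have h1 : inner ℝ η η = (1 : ℝ) := by rw [real_inner_self_eq_norm_sq, hη]; norm_num
  have h2 : ((taskI_map η ν : EE n →L[ℝ] EE n) : EE n →ₗ[ℝ] EE n) =
      LinearMap.transvection ((ν • (innerSL ℝ η) : EE n →L[ℝ] ℝ) : EE n →ₗ[ℝ] ℝ) η := by
    ext1 x
    simp [taskI_map_apply, LinearMap.transvection]
  rw [h2, LinearMap.transvection.det]
  simp [hη]

theorem taskI_adjoint (η : EE n) (ν : ℝ) :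
    ContinuousLinearMap.adjoint (taskI_map η ν) = taskI_map η ν := by
  symm
  rw [ContinuousLinearMap.eq_adjoint_iff]
  intro x y
  rw [taskI_map_apply, taskI_map_apply, inner_add_left, inner_add_right, inner_smul_left,
    inner_smul_right, real_inner_comm η x]
  simp
  ring

/-- rank one perturbation of the identity, as an equivalence -/
noncomputable def taskI_equiv (η : EE n) (hη : ‖η‖ = 1) (ν μ : ℝ) (h : (1 + ν) * (1 + μ) = 1) :
    EE n ≃L[ℝ] EE n :=
  ContinuousLinearEquiv.equivOfInverse (taskI_map η μ) (taskI_map η ν)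
    (taskI_comp η hη ν μ h) (taskI_comp η hη μ ν (by rw [mul_comm]; exact h))

theorem taskI_equiv_symm (η : EE n) (hη : ‖η‖ = 1) (ν μ : ℝ) (h : (1 + ν) * (1 + μ) = 1)
    (x : EE n) : (taskI_equiv η hη ν μ h).symm x = taskI_map η ν x := rfl

theorem taskI_equiv_coe (η : EE n) (hη : ‖η‖ = 1) (ν μ : ℝ) (h : (1 + ν) * (1 + μ) = 1) :
    ((taskI_equiv η hη ν μ h : EE n ≃L[ℝ] EE n) : EE n →L[ℝ] EE n) = taskI_map η μ := rfl

theorem taskI_efun (l : ℕ) (η : EE n) (hη : ‖η‖ = 1) (ν μ : ℝ) (h : (1 + ν) * (1 + μ) = 1)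
    (x : EE n) (hx : ‖x‖ = 1) : Efun l (taskI_equiv η hη ν μ h) x =
      (Real.sqrt (1 + ((1 + ν) ^ 2 - 1) * inner ℝ η x ^ 2) ^ l)⁻¹ := by
  unfold Efun
  rw [taskI_equiv_symm]
  have h3 := taskI_norm_sq η hη ν x
  rw [hx, one_pow] at h3
  rw [← h3, Real.sqrt_sq (norm_nonneg _)]

theorem taskI_ehat (k : ℕ) (η : EE n) (hη : ‖η‖ = 1) (ν μ : ℝ) (h : (1 + ν) * (1 + μ) = 1)
    (x : EE n) (hx : ‖x‖ = 1) : Ehat k (taskI_equiv η hη ν μ h) x =
      |1 + μ| * (Real.sqrt (1 + ((1 + μ) ^ 2 - 1) * inner ℝ η x ^ 2) ^ k)⁻¹ := by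
  unfold Ehat
  rw [taskI_equiv_coe, taskI_adjoint, taskI_det _ hη]
  have h3 := taskI_norm_sq η hη μ x
  rw [hx, one_pow] at h3
  rw [← h3, Real.sqrt_sq (norm_nonneg _)]

theorem taskI_inner_sq_le (η θ : SS n) : inner ℝ (η : EE n) (θ : EE n) ^ 2 ≤ 1 := by
  have h := abs_real_inner_le_norm (η : EE n) (θ : EE n)
  rw [norm_eq_of_mem_sphere η, norm_eq_of_mem_sphere θ, mul_one] at h
  have h2 : inner ℝ (η : EE n) (θ : EE n) ^ 2 = |inner ℝ (η : EE n) (θ : EE n)| ^ 2 :=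
    (sq_abs _).symm
  rw [h2]
  nlinarith [abs_nonneg (inner ℝ (η : EE n) (θ : EE n))]

theorem taskI_pos (η θ : SS n) {w : ℝ} (hw : w ∈ Ioo (-1 : ℝ) 1) :
    0 < 1 - w * inner ℝ (η : EE n) (θ : EE n) ^ 2 := by
  have h := taskI_inner_sq_le η θ
  have h0 := sq_nonneg (inner ℝ (η : EE n) (θ : EE n))
  nlinarith [hw.1, hw.2]

theorem taskI_pos2 (η θ : SS n) {w : ℝ} (hw : w ∈ Ioo (-1 : ℝ) 1) :
    0 < 1 + ((1 - w)⁻¹ - 1) * inner ℝ (η : EE n) (θ : EE n) ^ 2 := by
  have h := taskI_inner_sq_le η θ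
  have h0 := sq_nonneg (inner ℝ (η : EE n) (θ : EE n))
  have h1 : 0 < (1 - w)⁻¹ := inv_pos.2 (by linarith [hw.2])
  generalize inner ℝ (η : EE n) (θ : EE n) ^ 2 = t at h h0
  generalize (1 - w)⁻¹ = a at h1
  rcases le_total t (1 / 2) with h2 | h2
  · nlinarith [mul_nonneg h1.le h0]
  · nlinarith [mul_le_mul_of_nonneg_left h2 h1.le]

/-! ### kernels -/

/-- first kernel -/
noncomputable def taskI_K (n l : ℕ) (w : ℝ) (hw : w ∈ Ioo (-1 : ℝ) 1) : C(SS n × SS n, ℝ) where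
  toFun p := (Real.sqrt (1 - w * inner ℝ (p.1 : EE n) (p.2 : EE n) ^ 2) ^ l)⁻¹
  continuous_toFun := by
    refine Continuous.inv₀ (by fun_prop) ?_
    intro p
    exact pow_ne_zero _ (Real.sqrt_pos.2 (taskI_pos p.1 p.2 hw)).ne'

/-- second kernel -/
noncomputable def taskI_M (n k : ℕ) (w : ℝ) (hw : w ∈ Ioo (-1 : ℝ) 1) : C(SS n × SS n, ℝ) where
  toFun p := (Real.sqrt (1 - w))⁻¹ *
    (Real.sqrt (1 + ((1 - w)⁻¹ - 1) * inner ℝ (p.1 : EE n) (p.2 : EE n) ^ 2) ^ k)⁻¹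
  continuous_toFun := by
    refine Continuous.mul continuous_const (Continuous.inv₀ (by fun_prop) ?_)
    intro p
    exact pow_ne_zero _ (Real.sqrt_pos.2 (taskI_pos2 p.1 p.2 hw)).ne'

/-- power kernels -/
noncomputable def taskI_P (n j : ℕ) : C(SS n × SS n, ℝ) where
  toFun p := inner ℝ (p.1 : EE n) (p.2 : EE n) ^ (2 * j)
  continuous_toFun := by fun_prop

theorem taskI_exists (η : SS n) (k l : ℕ) {w : ℝ} (hw : w ∈ Ioo (-1 : ℝ) 1) :
    ∃ B : EE n ≃L[ℝ] EE n, (∀ θ : SS n, taskI_K n l w hw (η, θ) = Efun l B θ) ∧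
      ∀ θ : SS n, taskI_M n k w hw (η, θ) = Ehat k B θ := by
  have hη : ‖(η : EE n)‖ = 1 := norm_eq_of_mem_sphere η
  have h1 : 0 < 1 - w := by linarith [hw.2]
  have hs : 0 < Real.sqrt (1 - w) := Real.sqrt_pos.2 h1
  have hss : Real.sqrt (1 - w) ^ 2 = 1 - w := Real.sq_sqrt h1.le
  have hinv : (1 + (Real.sqrt (1 - w) - 1)) * (1 + ((Real.sqrt (1 - w))⁻¹ - 1)) = 1 := by
    rw [add_sub_cancel, add_sub_cancel, mul_inv_cancel₀ hs.ne']
  refine ⟨taskI_equiv η hη (Real.sqrt (1 - w) - 1) ((Real.sqrt (1 - w))⁻¹ - 1) hinv, ?_, ?_⟩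
  · intro θ
    have hθ : ‖(θ : EE n)‖ = 1 := norm_eq_of_mem_sphere θ
    rw [taskI_efun l (η : EE n) hη _ _ hinv (θ : EE n) hθ, add_sub_cancel, hss]
    show (Real.sqrt (1 - w * inner ℝ (η : EE n) (θ : EE n) ^ 2) ^ l)⁻¹ = _
    congr 3
    ring
  · intro θ
    have hθ : ‖(θ : EE n)‖ = 1 := norm_eq_of_mem_sphere θ
    rw [taskI_ehat k (η : EE n) hη _ _ hinv (θ : EE n) hθ, add_sub_cancel, inv_pow, hss,
      abs_of_pos (inv_pos.2 hs)]
    rfl

theorem taskI_K_symm (l : ℕ) {w : ℝ} (hw : w ∈ Ioo (-1 : ℝ) 1) (η θ : SS n) :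
    taskI_K n l w hw (η, θ) = taskI_K n l w hw (θ, η) := by
  show (Real.sqrt (1 - w * inner ℝ (η : EE n) (θ : EE n) ^ 2) ^ l)⁻¹ =
    (Real.sqrt (1 - w * inner ℝ (θ : EE n) (η : EE n) ^ 2) ^ l)⁻¹
  rw [real_inner_comm]

theorem taskI_M_symm (k : ℕ) {w : ℝ} (hw : w ∈ Ioo (-1 : ℝ) 1) (η θ : SS n) :
    taskI_M n k w hw (η, θ) = taskI_M n k w hw (θ, η) := by
  show (Real.sqrt (1 - w))⁻¹ *
    (Real.sqrt (1 + ((1 - w)⁻¹ - 1) * inner ℝ (η : EE n) (θ : EE n) ^ 2) ^ k)⁻¹ =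
    (Real.sqrt (1 - w))⁻¹ *
    (Real.sqrt (1 + ((1 - w)⁻¹ - 1) * inner ℝ (θ : EE n) (η : EE n) ^ 2) ^ k)⁻¹
  rw [real_inner_comm]

/-! ### integral operators -/

theorem taskI_integrable (f : C(SS n, ℝ)) (K : C(SS n × SS n, ℝ)) :
    Integrable (fun η : SS n => f η • K.curry η) (sig n) := by
  refine Continuous.integrable_of_hasCompactSupport ?_ (HasCompactSupport.of_compactSpace _)
  exact f.continuous.smul K.curry.continuous

/-- the integral operator as a linear map -/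
noncomputable def taskI_T (f : C(SS n, ℝ)) : C(SS n × SS n, ℝ) →L[ℝ] C(SS n, ℝ) :=
  LinearMap.mkContinuous
    { toFun := fun K => ∫ η : SS n, f η • K.curry η ∂(sig n)
      map_add' := by
        intro K K'
        rw [← integral_add (taskI_integrable f K) (taskI_integrable f K')]
        congr 1
        funext η
        ext θ
        simp [mul_add]
      map_smul' := by
        intro c K
        rw [RingHom.id_apply, ← integral_smul]
        congr 1
        funext η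
        ext θ
        simp
        ring }
    (‖f‖ * (sig n).real univ) (by
      intro K
      have h : ∀ η : SS n, ‖f η • K.curry η‖ ≤ ‖f‖ * ‖K‖ := by
        intro η
        rw [norm_smul]
        refine mul_le_mul (f.norm_coe_le_norm η) ?_ (norm_nonneg _) (norm_nonneg _)
        rw [ContinuousMap.norm_le _ (norm_nonneg _)]
        intro θ
        exact K.norm_coe_le_norm (η, θ)
      have h2 := norm_integral_le_of_norm_le_const (μ := sig n)
        (Filter.Eventually.of_forall h)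
      simp only [LinearMap.coe_mk, AddHom.coe_mk]
      calc ‖∫ η : SS n, f η • K.curry η ∂(sig n)‖ ≤ ‖f‖ * ‖K‖ * (sig n).real univ := h2
        _ = ‖f‖ * (sig n).real univ * ‖K‖ := by ring)

theorem taskI_T_def (f : C(SS n, ℝ)) (K : C(SS n × SS n, ℝ)) :
    taskI_T f K = ∫ η : SS n, f η • K.curry η ∂(sig n) := rfl

theorem taskI_T_apply (f : C(SS n, ℝ)) (K : C(SS n × SS n, ℝ)) (θ : SS n) :
    taskI_T f K θ = ∫ η : SS n, f η * K (η, θ) ∂(sig n) := by
  rw [taskI_T_def]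
  have h := (ContinuousMap.evalCLM ℝ θ).integral_comp_comm (taskI_integrable f K)
  simp only [ContinuousMap.evalCLM_apply] at h
  rw [← h]
  simp

/-- integrals of functions with values in a closed subspace -/
theorem taskI_integral_mem {X : Type*} [NormedAddCommGroup X] [NormedSpace ℝ X]
    [CompleteSpace X] {α : Type*} [MeasurableSpace α] (μ : Measure α) [IsFiniteMeasure μ]
    (W : Submodule ℝ X) (hW : IsClosed (W : Set X)) (φ : α → X) (hφ : Integrable φ μ)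
    (h : ∀ a, φ a ∈ W) : ∫ a, φ a ∂μ ∈ W := by
  by_cases h0 : μ = 0
  · rw [h0, integral_zero_measure]; exact W.zero_mem
  · have : NeZero μ := ⟨h0⟩
    have h1 := Convex.average_mem (μ := μ) (W.convex) hW (Filter.Eventually.of_forall h) hφ
    have h2 : ∫ a, φ a ∂μ = μ.real univ • ⨍ a, φ a ∂μ := by
      rw [measure_smul_average]
    rw [h2]
    exact W.smul_mem _ h1

theorem taskI_mem_gens (k l : ℕ) {w : ℝ} (hw : w ∈ Ioo (-1 : ℝ) 1) (η : SS n) :
    ((taskI_K n l w hw).curry η, (taskI_M n k w hw).curry η) ∈ Rel n k l := by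
  refine Submodule.le_topologicalClosure _ (Submodule.subset_span ?_)
  obtain ⟨B, h1, h2⟩ := taskI_exists η k l hw
  exact ⟨B, h1, h2⟩

theorem taskI_pair_mem {k l : ℕ} (f g : C(SS n, ℝ))
    (hav : ∀ B : EE n ≃L[ℝ] EE n, ∫ θ : SS n, g θ * Efun l B θ ∂(sig n) =
      ∫ θ : SS n, f θ * Ehat k B θ ∂(sig n)) {w : ℝ} (hw : w ∈ Ioo (-1 : ℝ) 1) :
    (taskI_T f (taskI_K n l w hw), taskI_T g (taskI_K n l w hw)) ∈ Rel n k l := by
  have h1 : taskI_T g (taskI_K n l w hw) = taskI_T f (taskI_M n k w hw) := by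
    ext θ
    rw [taskI_T_apply, taskI_T_apply]
    obtain ⟨B, h1, h2⟩ := taskI_exists θ k l hw
    have h3 := hav B
    calc ∫ η : SS n, g η * taskI_K n l w hw (η, θ) ∂(sig n)
        = ∫ η : SS n, g η * Efun l B η ∂(sig n) := by
          congr 1; funext η; rw [taskI_K_symm, h1]
      _ = ∫ η : SS n, f η * Ehat k B η ∂(sig n) := h3
      _ = ∫ η : SS n, f η * taskI_M n k w hw (η, θ) ∂(sig n) := by
          congr 1; funext η; rw [taskI_M_symm, h2]
  rw [h1, taskI_T_def, taskI_T_def, ← integral_pair (taskI_integrable f _)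
    (taskI_integrable f _)]
  refine taskI_integral_mem (sig n) (Rel n k l) (Submodule.isClosed_topologicalClosure _) _
    ((taskI_integrable f _).prodMk (taskI_integrable f _)) ?_
  intro η
  have h2 := (Rel n k l).smul_mem (f η) (taskI_mem_gens k l hw η)
  simpa using h2

/-- the power series of the kernel -/
theorem taskI_series (l : ℕ) (β : ℕ → ℝ) (hβ : ∀ j, 0 < β j)
    (hs : ∀ x : ℝ, |x| < 1 → HasSum (fun j => β j * x ^ j) ((1 - x) ^ (-((l : ℝ) / 2))))
    {w : ℝ} (hw : w ∈ Ioo (-1 : ℝ) 1) :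
    HasSum (fun j => (w ^ j * β j) • taskI_P n j) (taskI_K n l w hw) := by
  have hw1 : |w| < 1 := abs_lt.2 hw
  have hsum : Summable (fun j => (w ^ j * β j) • taskI_P n j) := by
    refine Summable.of_norm_bounded (g := fun j => β j * |w| ^ j)
      (hs |w| (by rwa [abs_abs])).summable ?_
    intro j
    rw [norm_smul, norm_mul, norm_pow, Real.norm_eq_abs, Real.norm_eq_abs, abs_of_pos (hβ j)]
    have h1 : ‖taskI_P n j‖ ≤ 1 := by
      rw [ContinuousMap.norm_le _ zero_le_one]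
      intro p
      show ‖inner ℝ (p.1 : EE n) (p.2 : EE n) ^ (2 * j)‖ ≤ 1
      rw [pow_mul, Real.norm_of_nonneg (by positivity)]
      exact pow_le_one₀ (sq_nonneg _) (taskI_inner_sq_le p.1 p.2)
    calc |w| ^ j * β j * ‖taskI_P n j‖ ≤ |w| ^ j * β j * 1 :=
          mul_le_mul_of_nonneg_left h1 (mul_nonneg (pow_nonneg (abs_nonneg _) _) (hβ j).le)
      _ = β j * |w| ^ j := by ring
  have h2 := hsum.hasSum
  have h3 : ∑' j, (w ^ j * β j) • taskI_P n j = taskI_K n l w hw := by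
    ext p
    have h4 := (ContinuousMap.evalCLM ℝ p).hasSum h2
    simp only [ContinuousMap.evalCLM_apply] at h4
    have hpos := taskI_pos p.1 p.2 hw
    have h5 : |w * inner ℝ (p.1 : EE n) (p.2 : EE n) ^ 2| < 1 := by
      rw [abs_mul, abs_of_nonneg (sq_nonneg (inner ℝ (p.1 : EE n) (p.2 : EE n)))]
      calc |w| * inner ℝ (p.1 : EE n) (p.2 : EE n) ^ 2 ≤ |w| * 1 :=
            mul_le_mul_of_nonneg_left (taskI_inner_sq_le p.1 p.2) (abs_nonneg _)
        _ < 1 := by linarith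
    have h6 := hs _ h5
    have h7 : (1 - w * inner ℝ (p.1 : EE n) (p.2 : EE n) ^ 2) ^ (-((l : ℝ) / 2)) =
        taskI_K n l w hw p := by
      show _ = (Real.sqrt (1 - w * inner ℝ (p.1 : EE n) (p.2 : EE n) ^ 2) ^ l)⁻¹
      rw [Real.rpow_neg hpos.le, Real.sqrt_eq_rpow]
      generalize 1 - w * inner ℝ (p.1 : EE n) (p.2 : EE n) ^ 2 = y at hpos
      rw [← Real.rpow_natCast (y ^ ((1 : ℝ) / 2)) l, ← Real.rpow_mul hpos.le]
      congr 2
      ring
    rw [h7] at h6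
    refine h4.unique ?_
    convert! h6 using 2 with j
    show (w ^ j * β j) * inner ℝ (p.1 : EE n) (p.2 : EE n) ^ (2 * j) = _
    rw [pow_mul, mul_pow]
    ring
  rwa [h3] at h2

/-- smoothed pairs belong to the relation -/
theorem smooth_mem {n k l : ℕ} (hn : n = k + l) (hk : 1 ≤ k) (hl : 1 ≤ l) (f g : C(SS n, ℝ))
    (hav : ∀ B : EE n ≃L[ℝ] EE n, ∫ θ : SS n, g θ * Efun l B θ ∂(sig n) =
      ∫ θ : SS n, f θ * Ehat k B θ ∂(sig n)) (N : ℕ) (F G : C(SS n, ℝ))
    (hF : ∀ θ, F θ = ∫ η : SS n, f η * (inner ℝ (θ : EE n) (η : EE n)) ^ (2 * N) ∂(sig n))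
    (hG : ∀ θ, G θ = ∫ η : SS n, g η * (inner ℝ (θ : EE n) (η : EE n)) ^ (2 * N) ∂(sig n)) :
    (F, G) ∈ Rel n k l := by
  obtain ⟨β, hβ, hs⟩ := binom_series ((l : ℝ) / 2) (by positivity)
  have hF' : F = taskI_T f (taskI_P n N) := by
    ext θ
    rw [hF, taskI_T_apply]
    congr 1
    funext η
    show _ = f η * inner ℝ (η : EE n) (θ : EE n) ^ (2 * N)
    rw [real_inner_comm]
  have hG' : G = taskI_T g (taskI_P n N) := by
    ext θ
    rw [hG, taskI_T_apply]
    congr 1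
    funext η
    show _ = g η * inner ℝ (η : EE n) (θ : EE n) ^ (2 * N)
    rw [real_inner_comm]
  classical
  have key := coeff_mem (Rel n k l) (Submodule.isClosed_topologicalClosure _)
    (fun j => β j • (taskI_T f (taskI_P n j), taskI_T g (taskI_P n j)))
    (fun w => if hw : w ∈ Ioo (-1 : ℝ) 1 then
      (taskI_T f (taskI_K n l w hw), taskI_T g (taskI_K n l w hw)) else 0)
    (by
      intro w hw
      simp only [dif_pos hw]
      have h1 := (taskI_T f).hasSum (taskI_series (n := n) l β hβ hs hw)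
      have h2 := (taskI_T g).hasSum (taskI_series (n := n) l β hβ hs hw)
      have h3 := h1.prodMk h2
      convert! h3 using 2 with j
      simp [mul_smul])
    (by
      intro w hw
      simp only [dif_pos hw]
      exact taskI_pair_mem f g hav hw) N
  have h4 := (Rel n k l).smul_mem (β N)⁻¹ key
  rw [smul_smul, inv_mul_cancel₀ (hβ N).ne', one_smul] at h4
  rw [hF', hG']
  exact h4

end TaskI

end Pool.Agent.Lib.MP_7548d4_gt
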