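import Pool.Agent.Lib.MP_7548d4_gt.Star
import Pool.Agent.Lib.MP_7548d4_gt.Polar
import Pool.Agent.Lib.MP_7548d4_gt.Average
import Pool.Agent.Lib.MP_7548d4_gt.Peak
import Pool.Agent.Lib.MP_7548d4_gt.Zonal
import Pool.Agent.Lib.MP_7548d4_gt.GaussForm
import Pool.Agent.Lib.MP_7548d4_gt.Multilin
import Pool.Agent.Lib.MP_7548d4_gt.LamCompare

/-!
# The Busemann inequality for k-intersection bodies, k dividing n
-/

set_option autoImplicit false
open MeasureTheory Metric Set Filter Topology

namespace Pool.Agent.Lib.MP_7548d4_gt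

/-- continuous functions on the sphere built from smoothing -/
noncomputable def smoo {n : ℕ} (f : C(SS n, ℝ)) (N : ℕ) : C(SS n, ℝ) where
  toFun θ := ∫ η : SS n, f η * (inner ℝ (θ : EE n) (η : EE n)) ^ (2 * N) ∂(sig n)
  continuous_toFun := by
    have hb : ∀ θ η : SS n, |inner ℝ (θ : EE n) (η : EE n)| ≤ 1 := by
      intro θ η
      have h1 := abs_real_inner_le_norm (θ : EE n) (η : EE n)
      have h2 : ‖(θ : EE n)‖ = 1 := by simp
      have h3 : ‖(η : EE n)‖ = 1 := by simp
      rw [h2, h3, one_mul] at h1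
      exact h1
    refine continuous_of_dominated (bound := fun _ => ‖f‖) ?_ ?_ ?_ ?_
    · intro θ
      exact (f.continuous.mul ((continuous_const.inner continuous_subtype_val).pow _)).aestronglyMeasurable
    · intro θ
      refine Filter.Eventually.of_forall fun η => ?_
      rw [norm_mul, norm_pow, Real.norm_eq_abs (inner ℝ _ _)]
      calc ‖f η‖ * |inner ℝ (θ : EE n) (η : EE n)| ^ (2 * N) ≤ ‖f η‖ * 1 :=
            mul_le_mul_of_nonneg_left (pow_le_one₀ (abs_nonneg _) (hb θ η)) (norm_nonneg _)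
        _ = ‖f η‖ := mul_one _
        _ ≤ ‖f‖ := f.norm_coe_le_norm η
    · exact integrable_const _
    · refine Filter.Eventually.of_forall fun η => ?_
      exact continuous_const.mul ((continuous_subtype_val.inner continuous_const).pow _)

theorem mem_Rel {n k l : ℕ} (hn : n = k + l) (hk : 1 ≤ k) (hl : 1 ≤ l) (f g : C(SS n, ℝ))
    (hf : ∀ θ : SS n, f (-θ) = f θ) (hg : ∀ θ : SS n, g (-θ) = g θ)
    (hav : ∀ B : EE n ≃L[ℝ] EE n, ∫ θ : SS n, g θ * Efun l B θ ∂(sig n) =
      ∫ θ : SS n, f θ * Ehat k B θ ∂(sig n)) : (f, g) ∈ Rel n k l := by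
  obtain ⟨c, hc⟩ := peak_tendsto (n := n) (by omega)
  have h1 : ∀ N, (c N • smoo f N, c N • smoo g N) ∈ Rel n k l := by
    intro N
    have h2 := smooth_mem hn hk hl f g hav N (smoo f N) (smoo g N) (fun θ => rfl) (fun θ => rfl)
    exact (Rel n k l).smul_mem (c N) h2
  have h3 : Tendsto (fun N => c N • smoo f N) atTop (𝓝 f) :=
    hc f hf _ (fun N θ => by simp [smoo])
  have h4 : Tendsto (fun N => c N • smoo g N) atTop (𝓝 g) :=
    hc g hg _ (fun N θ => by simp [smoo])
  have h5 : IsClosed ((Rel n k l : Submodule ℝ (C(SS n, ℝ) × C(SS n, ℝ))) :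
      Set (C(SS n, ℝ) × C(SS n, ℝ))) := Submodule.isClosed_topologicalClosure _
  exact h5.mem_of_tendsto (h3.prodMk_nhds h4) (Filter.Eventually.of_forall h1)

theorem one_mem_Rel (n k l : ℕ) : ((1 : C(SS n, ℝ)), (1 : C(SS n, ℝ))) ∈ Rel n k l := by
  apply Submodule.le_topologicalClosure
  apply Submodule.subset_span
  refine ⟨ContinuousLinearEquiv.refl ℝ _, ?_, ?_⟩
  · intro θ
    have h2 : ‖(θ : EE n)‖ = 1 := by simp
    simp [Efun, h2]
  · intro θ
    have h2 : ‖(θ : EE n)‖ = 1 := by simp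
    simp only [Ehat]
    have h3 : ((ContinuousLinearEquiv.refl ℝ (EE n) : EE n ≃L[ℝ] EE n) : EE n →L[ℝ] EE n) =
      ContinuousLinearMap.id ℝ _ := rfl
    rw [h3]
    have h4 : ContinuousLinearMap.adjoint (ContinuousLinearMap.id ℝ (EE n)) =
        ContinuousLinearMap.id ℝ _ := by
      ext1 x
      refine ext_inner_left ℝ fun y => ?_
      rw [ContinuousLinearMap.adjoint_inner_right]
      simp
    rw [h4]
    simp [h2]

theorem integrable_base {n k m : ℕ} (hk : 1 ≤ k) (hm : 1 ≤ m) (hn : n = k * (m + 1)) :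
    Integrable (fun z : Fin m → EE n => Real.exp (-‖∑ i, z i‖ ^ 2) *
      ∏ i : Fin m, (‖z i‖ ^ (k * m))⁻¹) := by
  obtain ⟨cL, hcL, h⟩ := gauss_form hk hm hn
  have h1 := h (ContinuousLinearEquiv.refl ℝ _) (fun _ => ContinuousLinearEquiv.refl ℝ _)
  have h2 : ∀ z : Fin m → EE n, Real.exp (-‖(ContinuousLinearEquiv.refl ℝ (EE n)).symm
      (∑ i, z i)‖ ^ 2) * ∏ i, Efun (k * m) (ContinuousLinearEquiv.refl ℝ (EE n)) (z i) =
      Real.exp (-‖∑ i, z i‖ ^ 2) * ∏ i : Fin m, (‖z i‖ ^ (k * m))⁻¹ := by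
    intro z
    simp [Efun]
  simp only [h2] at h1
  have h3 : ∀ θ : SS n, Ehat k (ContinuousLinearEquiv.refl ℝ (EE n)) (θ : EE n) = 1 := by
    intro θ
    have h2 : ‖(θ : EE n)‖ = 1 := by simp
    simp only [Ehat]
    have h3 : ((ContinuousLinearEquiv.refl ℝ (EE n) : EE n ≃L[ℝ] EE n) : EE n →L[ℝ] EE n) =
      ContinuousLinearMap.id ℝ _ := rfl
    rw [h3]
    have h4 : ContinuousLinearMap.adjoint (ContinuousLinearMap.id ℝ (EE n)) =
        ContinuousLinearMap.id ℝ _ := by
      ext1 x
      refine ext_inner_left ℝ fun y => ?_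
      rw [ContinuousLinearMap.adjoint_inner_right]
      simp
    rw [h4]
    simp [h2]
  simp only [h3, Finset.prod_const_one, mul_one, ENNReal.ofReal_one, lintegral_const, one_mul] at h1
  constructor
  · refine Measurable.aestronglyMeasurable ?_
    refine Measurable.mul ?_ ?_
    · fun_prop
    · refine Finset.measurable_prod _ fun i _ => ?_
      fun_prop
  · rw [hasFiniteIntegral_iff_ofReal]
    · rw [h1]
      exact ENNReal.mul_lt_top ENNReal.ofReal_lt_top (measure_lt_top _ _)
    · refine Filter.Eventually.of_forall fun z => ?_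
      have : 0 ≤ ∏ i : Fin m, (‖z i‖ ^ (k * m))⁻¹ :=
        Finset.prod_nonneg fun i _ => by positivity
      positivity

/-- The Busemann intersection inequality for `k`-intersection bodies, `k` dividing `n` -/
theorem busemann_dvd {n k m : ℕ} (hk : 1 ≤ k) (hm : 1 ≤ m) (hn : n = k * (m + 1))
    {K L : Set (EE n)} (hK : IsStarBody K) (hL : IsStarBody L) (hKs : ∀ x ∈ K, -x ∈ K)
    (hLs : ∀ x ∈ L, -x ∈ L) (h : IsKIntersectionBody k K L) :
    (volume L).toReal ^ k ≤ kap (n - k) ^ n / (kap k ^ n * kap n ^ (n - 2 * k)) *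
      (volume K).toReal ^ (n - k) := by
  set l : ℕ := k * m with hl
  have hn' : n = k + l := by rw [hn, hl]; ring
  have hl1 : 1 ≤ l := by rw [hl]; exact Nat.mul_pos hk hm
  have hn1 : 1 ≤ n := by omega
  have hkk := kap_pos k
  have hkl := kap_pos l
  have hkn := kap_pos n
  -- the functions
  have hKc : Continuous (fun θ : SS n => radial K θ) :=
    continuousOn_iff_continuous_domRestrict.1 hK.cont
  have hLc : Continuous (fun θ : SS n => radial L θ) :=
    continuousOn_iff_continuous_domRestrict.1 hL.cont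
  set f : C(SS n, ℝ) := ⟨fun θ => radial K θ ^ l, hKc.pow l⟩ with hf
  set g : C(SS n, ℝ) := ⟨fun θ => kap k / kap l * radial L θ ^ k, (hLc.pow k).const_mul _⟩ with hg
  have hfe : ∀ θ : SS n, f (-θ) = f θ := by
    intro θ
    have h1 : ((-θ : SS n) : EE n) = -(θ : EE n) := rfl
    simp only [hf, ContinuousMap.coe_mk, h1, radial_neg hKs]
  have hge : ∀ θ : SS n, g (-θ) = g θ := by
    intro θ
    have h1 : ((-θ : SS n) : EE n) = -(θ : EE n) := rfl
    simp only [hg, ContinuousMap.coe_mk, h1, radial_neg hLs]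
  have hav : ∀ B : EE n ≃L[ℝ] EE n, ∫ θ : SS n, g θ * Efun l B θ ∂(sig n) =
      ∫ θ : SS n, f θ * Ehat k B θ ∂(sig n) := by
    intro B
    have h1 := average_identity hn' hk hl1 hK hL h B
    have h2 : ∫ θ : SS n, g θ * Efun l B θ ∂(sig n) =
        kap k / kap l * ∫ θ : SS n, radial L θ ^ k * Efun l B θ ∂(sig n) := by
      rw [← integral_const_mul]
      refine integral_congr_ae (Filter.Eventually.of_forall fun θ => ?_)
      simp only [hg, ContinuousMap.coe_mk]
      ring
    have h3 : ∫ θ : SS n, f θ * Ehat k B θ ∂(sig n) =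
        ∫ θ : SS n, radial K θ ^ l * Ehat k B θ ∂(sig n) := rfl
    rw [h2, h3]
    field_simp
    linarith
  have hRel : (f, g) ∈ Rel n k l := mem_Rel hn' hk hl1 f g hfe hge hav
  obtain ⟨cL, hcL, hLam⟩ := Lam_eq hk hm hn
  have e1 := hLam (fun _ => f) (fun _ => g) (fun _ => hRel)
  have e2 := hLam (fun _ => 1) (fun _ => 1) (fun _ => one_mem_Rel n k _)
  -- the volume radius of K
  have hVL := volume_star hn1 hL
  have hVK := volume_star hn1 hK
  have hVK0 : 0 < (volume K).toReal := by
    obtain ⟨c, C, hc, hC, hc1, hC1⟩ := IsStarBody.gau_bounds hn1 hK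
    have h1 : ∫ _θ : SS n, (C⁻¹) ^ n ∂(sig n) ≤ ∫ θ : SS n, radial K θ ^ n ∂(sig n) := by
      refine integral_mono (integrable_const _) ?_ fun θ => ?_
      · exact (hKc.pow n).integrable_of_hasCompactSupport
          (HasCompactSupport.of_compactSpace _)
      · have h2 : ‖(θ : EE n)‖ = 1 := by simp
        have h3 := hC1 (θ : EE n)
        rw [h2, mul_one] at h3
        have h4 : 0 < radial K (θ : EE n) := hK.pos _ θ.2
        have h5 : C⁻¹ ≤ radial K (θ : EE n) := by
          rw [gau] at h3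
          exact inv_le_of_inv_le₀ h4 h3
        exact pow_le_pow_left₀ (by positivity) h5 n
    rw [hVK, integral_const, smul_eq_mul, Measure.real, sig_univ hn1,
      ENNReal.toReal_ofReal (by positivity)] at h1
    have hn0 : (0 : ℝ) < n := by exact_mod_cast hn1
    have h2 : 0 < (n : ℝ) * (volume K).toReal := lt_of_lt_of_le (by positivity) h1
    exact (mul_pos_iff_of_pos_left hn0).1 h2
  set V : ℝ := (volume K).toReal with hV
  set r : ℝ := (V / kap n) ^ ((1 : ℝ) / n) with hr
  have hr0 : 0 < r := Real.rpow_pos_of_pos (div_pos hVK0 hkn) _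
  have hrn : r ^ n = V / kap n := by
    rw [hr, ← Real.rpow_natCast, ← Real.rpow_mul (div_pos hVK0 hkn).le]
    rw [one_div_mul_cancel (by positivity), Real.rpow_one]
  have hvol : volume K = volume (closedBall (0 : EE n) r) := by
    rw [volume_closedBall_kap n hn1 r hr0.le, hrn, mul_div_cancel₀ _ hkn.ne', hV,
      ENNReal.ofReal_toReal hK.compact.measure_lt_top.ne]
  have e3 := Lam_compare hk hm hn hK hKs r hr0 hvol f (fun θ => rfl) (integrable_base hk hm hn)
  rw [e1, e2] at e3
  have e4 : ∫ θ : SS n, ∏ i : Fin (m + 1), (fun _ => (1 : C(SS n, ℝ))) i θ ∂(sig n) =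
      n * kap n := by
    simp only [ContinuousMap.one_apply, Finset.prod_const_one, integral_const, smul_eq_mul,
      mul_one]
    rw [Measure.real, sig_univ hn1, ENNReal.toReal_ofReal (by positivity)]
  have e5 : ∫ θ : SS n, ∏ i : Fin (m + 1), (fun _ => g) i θ ∂(sig n) =
      (kap k / kap l) ^ (m + 1) * (n * (volume L).toReal) := by
    rw [← hVL, ← integral_const_mul]
    refine integral_congr_ae (Filter.Eventually.of_forall fun θ => ?_)
    simp only [hg, ContinuousMap.coe_mk, Finset.prod_const, Finset.card_univ, Fintype.card_fin]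
    have h1 : k * (m + 1) = n := hn.symm
    rw [mul_pow, ← pow_mul, h1]
  rw [e4, e5] at e3
  have e6 : (kap k / kap l) ^ (m + 1) * (volume L).toReal ≤ r ^ (l * (m + 1)) * kap n := by
    have hn0 : (0 : ℝ) < n := by exact_mod_cast hn1
    have h1 : cL * ((kap k / kap l) ^ (m + 1) * (n * (volume L).toReal)) =
      (cL * n) * ((kap k / kap l) ^ (m + 1) * (volume L).toReal) := by ring
    have h2 : r ^ (l * (m + 1)) * (cL * (n * kap n)) =
      (cL * n) * (r ^ (l * (m + 1)) * kap n) := by ring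
    rw [h1, h2] at e3
    exact le_of_mul_le_mul_left e3 (by positivity)
  have e7 : (volume L).toReal ≤ (kap l / kap k) ^ (m + 1) * (r ^ (l * (m + 1)) * kap n) := by
    have h1 : (volume L).toReal = (kap l / kap k) ^ (m + 1) *
        ((kap k / kap l) ^ (m + 1) * (volume L).toReal) := by
      rw [← mul_assoc, ← mul_pow, div_mul_div_comm, mul_comm (kap l) (kap k), div_self
        (by positivity), one_pow, one_mul]
    rw [h1]
    exact mul_le_mul_of_nonneg_left e6 (by positivity)
  have e8 : (volume L).toReal ^ k ≤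
      ((kap l / kap k) ^ (m + 1) * (r ^ (l * (m + 1)) * kap n)) ^ k :=
    pow_le_pow_left₀ ENNReal.toReal_nonneg e7 k
  refine e8.trans (le_of_eq ?_)
  have h9 : n - k = l := by omega
  have h10 : n - 2 * k = l - k := by omega
  rw [h9, h10]
  have h11 : k ≤ l := by rw [hl]; exact Nat.le_mul_of_pos_right k hm
  have h12 : r ^ (l * (m + 1) * k) = V ^ l / kap n ^ l := by
    have : l * (m + 1) * k = n * l := by rw [hn]; ring
    rw [this, pow_mul, hrn, div_pow]
  have h13 : ((kap l / kap k) ^ (m + 1) * (r ^ (l * (m + 1)) * kap n)) ^ k =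
      (kap l / kap k) ^ n * (r ^ (l * (m + 1) * k) * kap n ^ k) := by
    rw [mul_pow, mul_pow, ← pow_mul, ← pow_mul, hn]
    congr 2
    ring
  rw [h13, h12, div_pow]
  have h14 : kap n ^ l = kap n ^ k * kap n ^ (l - k) := by
    rw [← pow_add]; congr 1; omega
  rw [h14]
  field_simp

end Pool.Agent.Lib.MP_7548d4_gt
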