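import Mathlib

/-!
# One-dimensional monotone transport
-/

set_option autoImplicit false
open MeasureTheory Filter Set Topology

namespace Pool.Agent.Lib.MP_7548d4_gt

/-- distribution function properties -/
theorem taskM_cdf_props {f : ℝ → ℝ} (hc : Continuous f) (hp : ∀ x, 0 < f x) (hi : Integrable f) :
    (∀ x, HasStrictDerivAt (fun x => ∫ t in Iic x, f t) (f x) x) ∧
    StrictMono (fun x => ∫ t in Iic x, f t) ∧
    Tendsto (fun x => ∫ t in Iic x, f t) atBot (𝓝 0) ∧
    Tendsto (fun x => ∫ t in Iic x, f t) atTop (𝓝 (∫ t, f t)) := by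
  have key : ∀ x, (∫ t in Iic x, f t) = (∫ t in Iic 0, f t) + ∫ t in (0:ℝ)..x, f t := by
    intro x
    have := intervalIntegral.integral_Iic_sub_Iic (a := 0) (b := x) (f := f)
      hi.integrableOn hi.integrableOn
    linarith
  have hd : ∀ x, HasStrictDerivAt (fun x => ∫ t in Iic x, f t) (f x) x := by
    intro x
    have h1 : HasStrictDerivAt (fun u => ∫ t in (0:ℝ)..u, f t) (f x) x :=
      intervalIntegral.integral_hasStrictDerivAt_right (hc.intervalIntegrable _ _)
        (hc.stronglyMeasurableAtFilter _ _) hc.continuousAt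
    have h2 := h1.const_add (∫ t in Iic 0, f t)
    exact h2.congr_of_eventuallyEq (Eventually.of_forall fun y => (key y).symm)
  refine ⟨hd, ?_, ?_, ?_⟩
  · apply strictMono_of_deriv_pos
    intro x
    rw [(hd x).hasDerivAt.deriv]
    exact hp x
  · exact tendsto_integral_Iic_zero tendsto_id
  · have h := (aecover_Iic (μ := volume) (l := (atTop : Filter ℝ)) (b := id) tendsto_id).integral_tendsto_of_countably_generated hi
    exact h

theorem taskM_transport {f g : ℝ → ℝ} (hf : Continuous f) (hfp : ∀ x, 0 < f x) (hfi : Integrable f)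
    (hg : Continuous g) (hgp : ∀ x, 0 < g x) (hgi : Integrable g) :
    ∃ T : ℝ → ℝ, StrictMono T ∧
      ∀ x, HasDerivAt T ((f x / ∫ t, f t) / (g (T x) / ∫ t, g t)) x := by
  obtain ⟨hfd, hfm, hf0, hf1⟩ := taskM_cdf_props hf hfp hfi
  obtain ⟨hgd, hgm, hg0, hg1⟩ := taskM_cdf_props hg hgp hgi
  have hA : 0 < ∫ t, f t := (integral_pos_iff_support_of_nonneg (fun x => (hfp x).le) hfi).2 (by
    have : Function.support f = univ := by
      ext x; simp [(hfp x).ne']
    rw [this]; simp)
  have hB : 0 < ∫ t, g t := (integral_pos_iff_support_of_nonneg (fun x => (hgp x).le) hgi).2 (by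
    have : Function.support g = univ := by
      ext x; simp [(hgp x).ne']
    rw [this]; simp)
  set A := ∫ t, f t with hAdef
  set B := ∫ t, g t with hBdef
  set F := fun x => ∫ t in Iic x, f t with hF
  set G := fun x => ∫ t in Iic x, g t with hG
  -- range facts
  have hFpos : ∀ x, 0 < F x := by
    intro x
    have h1 : F (x-1) < F x := hfm (by linarith)
    have h2 : 0 ≤ F (x-1) := hfm.monotone.le_of_tendsto hf0 (x-1)
    linarith
  have hFlt : ∀ x, F x < A := by
    intro x
    have h1 : F x < F (x+1) := hfm (by linarith)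
    have h2 : F (x+1) ≤ A := hfm.monotone.ge_of_tendsto hf1 (x+1)
    linarith
  have hGc : Continuous G := continuous_iff_continuousAt.2 fun x => (hgd x).hasDerivAt.continuousAt
  have hex : ∀ x, ∃ y, G y = F x * (B / A) := by
    intro x
    have hlo : 0 < F x * (B / A) := mul_pos (hFpos x) (div_pos hB hA)
    have hhi : F x * (B / A) < B := by
      rw [← mul_div_assoc, div_lt_iff₀ hA]
      nlinarith [hFlt x]
    have h1 : ∃ a, G a < F x * (B / A) := by
      have := (hg0.eventually (gt_mem_nhds hlo)).exists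
      exact this
    have h2 : ∃ b, F x * (B / A) < G b := by
      have := (hg1.eventually (lt_mem_nhds hhi)).exists
      exact this
    obtain ⟨a, ha⟩ := h1
    obtain ⟨b, hb⟩ := h2
    exact mem_range_of_exists_le_of_exists_ge hGc ⟨a, ha.le⟩ ⟨b, hb.le⟩
  choose T hT using hex
  refine ⟨T, ?_, ?_⟩
  · intro x y hxy
    have : G (T x) < G (T y) := by
      rw [hT, hT]
      exact mul_lt_mul_of_pos_right (hfm hxy) (div_pos hB hA)
    exact hgm.lt_iff_lt.1 this
  · intro x
    have hne : g (T x) ≠ 0 := (hgp _).ne'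
    have hinv := (hgd (T x)).to_localInverse hne
    have hev := (hgd (T x)).eventually_right_inverse hne
    -- T = localInverse ∘ (F * (B/A)) near x
    have hFc : HasDerivAt (fun x => F x * (B / A)) (f x * (B / A)) x :=
      (hfd x).hasDerivAt.mul_const _
    have hGT : G (T x) = F x * (B / A) := hT x
    have hcomp : HasDerivAt ((hgd (T x)).localInverse G (g (T x)) (T x) hne ∘ (fun x => F x * (B / A)))
        ((g (T x))⁻¹ * (f x * (B / A))) x := by
      apply HasDerivAt.comp
      · have := hinv.hasDerivAt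
        change HasDerivAt _ _ (G (T x)) at this
        rw [hGT] at this
        exact this
      · exact hFc
    have hEq : T =ᶠ[𝓝 x] ((hgd (T x)).localInverse G (g (T x)) (T x) hne ∘ (fun x => F x * (B / A))) := by
      have h1 : ∀ᶠ y in 𝓝 (F x * (B / A)), G ((hgd (T x)).localInverse G (g (T x)) (T x) hne y) = y := by
        rw [← hGT]; exact hev
      have h2 : ∀ᶠ z in 𝓝 x, G ((hgd (T x)).localInverse G (g (T x)) (T x) hne (F z * (B / A))) = F z * (B / A) :=
        (hFc.continuousAt.tendsto).eventually h1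
      filter_upwards [h2] with z hz
      apply hgm.injective
      show G (T z) = G _
      rw [hT z]
      exact hz.symm
    have h3 := hcomp.congr_of_eventuallyEq hEq
    have h4 : f x / A / (g (T x) / B) = (g (T x))⁻¹ * (f x * (B / A)) := by
      rw [div_div_eq_mul_div, div_eq_mul_inv, div_eq_mul_inv, div_eq_mul_inv]; ring
    rw [h4]; exact h3

theorem exists_transport (F G : ℝ → ℝ) (hF : Continuous F) (hG : Continuous G)
    (hF0 : ∀ x, 0 < F x) (hG0 : ∀ x, 0 < G x) (hFi : Integrable F) (hGi : Integrable G)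
    (hFG : ∫ x, F x = ∫ x, G x) :
    ∃ T : ℝ → ℝ, StrictMono T ∧ ∀ x, HasDerivAt T (F x / G (T x)) x := by
  obtain ⟨T, hT, hd⟩ := taskM_transport hF hF0 hFi hG hG0 hGi
  refine ⟨T, hT, fun x => ?_⟩
  have hG1 : (∫ x, G x) ≠ 0 := by
    refine ((integral_pos_iff_support_of_nonneg (fun x => (hG0 x).le) hGi).2 ?_).ne'
    have : Function.support G = univ := by
      ext x; simp [(hG0 x).ne']
    rw [this]; simp
  have h := hd x
  rw [hFG] at h
  have e : F x / (∫ t, G t) / (G (T x) / ∫ t, G t) = F x / G (T x) := by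
    have := (hG0 (T x)).ne'
    field_simp
  rwa [e] at h

end Pool.Agent.Lib.MP_7548d4_gt
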