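import Pool.Agent.Lib.MP_7548d4_gt.YoungOne

/-!
# The sharp one-dimensional Young inequality (task N)
-/

set_option autoImplicit false
open MeasureTheory Filter Set Topology

namespace Pool.Agent.Lib.MP_7548d4_gt

/-- one-dimensional Gaussian integral -/
noncomputable def gN (d : ℝ) : ℝ := ∫ x : ℝ, Real.exp (-(x ^ 2 / ((1 - d) * d)))

/-- the Gaussian integral on a hyperplane -/
noncomputable def gA {m : ℕ} (d0 : ℝ) (d : Fin m → ℝ) : ENNReal :=
  ∫⁻ s : Fin m → ℝ, ENNReal.ofReal (Real.exp (-((∑ i, s i) ^ 2 / d0 + ∑ i, s i ^ 2 / d i)))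

theorem taskN_gN_pos {d : ℝ} (hd : 0 < d) (hd1 : d < 1) : 0 < gN d := by
  have h : gN d = ∫ t, Young.gau (1 / ((1 - d) * d)) t := by
    unfold gN Young.gau
    congr 1
    ext x
    congr 1
    ring
  rw [h]
  apply Young.integral_pos_of_pos (Young.gau_pos _)
  apply Young.gau_int
  have : 0 < 1 - d := by linarith
  positivity

theorem young1 {m : ℕ} (hm : 1 ≤ m) (d0 : ℝ) (d : Fin m → ℝ) (hd0 : 0 < d0) (hd : ∀ i, 0 < d i)
    (hsum : d0 + ∑ i, d i = 1) (F0 : ℝ → ℝ) (F : Fin m → ℝ → ℝ) (hF0 : Continuous F0)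
    (hF : ∀ i, Continuous (F i)) (hF0p : ∀ x, 0 < F0 x) (hFp : ∀ i x, 0 < F i x)
    (hF0i : Integrable F0) (hFi : ∀ i, Integrable (F i)) :
    (∫⁻ s : Fin m → ℝ, ENNReal.ofReal (F0 (∑ i, s i) ^ (1 - d0) * ∏ i, F i (s i) ^ (1 - d i))) *
      ENNReal.ofReal (gN d0 ^ (1 - d0) * ∏ i, gN (d i) ^ (1 - d i)) ≤
    gA d0 d * ENNReal.ofReal ((∫ x, F0 x) ^ (1 - d0) * ∏ i, (∫ x, F i x) ^ (1 - d i)) := by
  haveI : Nonempty (Fin m) := ⟨⟨0, hm⟩⟩
  -- weights
  let D : Option (Fin m) → ℝ := fun o => o.elim d0 d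
  let a : Option (Fin m) → ℝ := fun o => (D o)⁻¹
  have hD : ∀ o, 0 < D o := by
    intro o; rcases o with _ | i
    · exact hd0
    · exact hd i
  have ha : ∀ o, 0 < a o := fun o => inv_pos.2 (hD o)
  have htot : Young.tot a = 1 := by
    unfold Young.tot
    rw [Fintype.sum_option]
    simp only [a, D, inv_inv, Option.elim_none, Option.elim_some]
    exact hsum
  have hwt : ∀ o, Young.wt a o = D o := by
    intro o
    unfold Young.wt
    rw [htot]; simp [a]
  have hex : ∀ o, Young.ex a o = 1 - D o := by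
    intro o; unfold Young.ex; rw [hwt]
  have hD1 : ∀ o, D o < 1 := by
    intro o; rw [← hwt]; exact Young.wt_lt_one ha o
  let f : Option (Fin m) → ℝ → ℝ := fun o => o.elim F0 F
  have hfc : ∀ o, Continuous (f o) := by
    intro o; rcases o with _ | i
    · exact hF0
    · exact hF i
  have hfp : ∀ o x, 0 < f o x := by
    intro o; rcases o with _ | i
    · exact hF0p
    · exact hFp i
  have hfi : ∀ o, Integrable (f o) := by
    intro o; rcases o with _ | i
    · exact hF0i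
    · exact hFi i
  have key := Young.young_one ha f hfc hfp hfi
  have hg : ∀ o, ∫ t, Young.gau (a o / Young.ex a o) t = gN (D o) := by
    intro o
    unfold gN Young.gau
    congr 1
    ext x
    congr 1
    rw [hex]
    have h1 : 0 < 1 - D o := by linarith [hD1 o]
    have h2 := hD o
    simp only [a]
    field_simp
  have hgA : ∫⁻ x : Fin m → ℝ, ENNReal.ofReal (∏ o, Young.gau (a o) (Young.hext x o)) = gA d0 d := by
    unfold gA
    apply lintegral_congr
    intro x
    congr 1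
    unfold Young.gau
    rw [← Real.exp_sum, Fintype.sum_option]
    congr 1
    simp only [a, D, Option.elim_none, Option.elim_some, Young.hext_none, Young.hext_some]
    rw [neg_add, ← Finset.sum_neg_distrib]
    congr 1
    · ring
    · apply Finset.sum_congr rfl
      intro i _
      ring
  rw [hgA] at key
  have hL : ∀ x : Fin m → ℝ, ∏ o, (f o (Young.hext x o)) ^ (Young.ex a o) =
      F0 (∑ i, x i) ^ (1 - d0) * ∏ i, F i (x i) ^ (1 - d i) := by
    intro x
    rw [Fintype.prod_option]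
    simp only [hex]
    rfl
  have hR : ∏ o, ((∫ t, f o t) / (∫ t, Young.gau (a o / Young.ex a o) t)) ^ (Young.ex a o) =
      ((∫ x, F0 x) ^ (1 - d0) * ∏ i, (∫ x, F i x) ^ (1 - d i)) /
        (gN d0 ^ (1 - d0) * ∏ i, gN (d i) ^ (1 - d i)) := by
    have hint : ∀ o, 0 < ∫ t, f o t := fun o => Young.integral_pos_of_pos (hfp o) (hfi o)
    have h1 : ∀ o, ((∫ t, f o t) / (∫ t, Young.gau (a o / Young.ex a o) t)) ^ (Young.ex a o) =
        (∫ t, f o t) ^ (1 - D o) / (gN (D o)) ^ (1 - D o) := by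
      intro o
      rw [hg, hex, Real.div_rpow (hint o).le (taskN_gN_pos (hD o) (hD1 o)).le]
    rw [Finset.prod_congr rfl (fun o _ => h1 o), Finset.prod_div_distrib, Fintype.prod_option,
      Fintype.prod_option]
    rfl
  simp only [hL] at key
  rw [hR] at key
  have hG : 0 < gN d0 ^ (1 - d0) * ∏ i, gN (d i) ^ (1 - d i) := by
    apply mul_pos
    · exact Real.rpow_pos_of_pos (taskN_gN_pos (hD none) (hD1 none)) _
    · exact Finset.prod_pos fun i _ =>
        Real.rpow_pos_of_pos (taskN_gN_pos (hD (some i)) (hD1 (some i))) _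
  calc _ ≤ (ENNReal.ofReal (((∫ x, F0 x) ^ (1 - d0) * ∏ i, (∫ x, F i x) ^ (1 - d i)) /
        (gN d0 ^ (1 - d0) * ∏ i, gN (d i) ^ (1 - d i))) * gA d0 d) *
        ENNReal.ofReal (gN d0 ^ (1 - d0) * ∏ i, gN (d i) ^ (1 - d i)) :=
      mul_le_mul' key le_rfl
    _ = gA d0 d * (ENNReal.ofReal (((∫ x, F0 x) ^ (1 - d0) * ∏ i, (∫ x, F i x) ^ (1 - d i)) /
        (gN d0 ^ (1 - d0) * ∏ i, gN (d i) ^ (1 - d i))) *
        ENNReal.ofReal (gN d0 ^ (1 - d0) * ∏ i, gN (d i) ^ (1 - d i))) := by ring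
    _ = _ := by
      rw [← ENNReal.ofReal_mul' hG.le, div_mul_cancel₀ _ hG.ne']

end Pool.Agent.Lib.MP_7548d4_gt
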