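import Pool.Agent.Lib.MP_7548d4_gt.Young1

/-!
# The sharp `n`-dimensional Young inequality (task O)
-/

set_option autoImplicit false
open MeasureTheory Filter Set Topology

namespace Pool.Agent.Lib.MP_7548d4_gt

/-- positive continuous functions with Gaussian decay -/
structure GClass {n : ℕ} (F : (Fin n → ℝ) → ℝ) : Prop where
  cont : Continuous F
  pos : ∀ x, 0 < F x
  bd : ∃ C c : ℝ, 0 < C ∧ 0 < c ∧ ∀ x, F x ≤ C * Real.exp (-(c * ∑ i, x i ^ 2))

theorem taskO_int_gauss {n : ℕ} {c : ℝ} (hc : 0 < c) :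
    Integrable (fun x : Fin n → ℝ => Real.exp (-(c * ∑ i, x i ^ 2))) := by
  have h : (fun x : Fin n → ℝ => Real.exp (-(c * ∑ i, x i ^ 2))) =
      fun x : Fin n → ℝ => ∏ i, Real.exp (-c * x i ^ 2) := by
    ext x
    rw [← Real.exp_sum, Finset.mul_sum, ← Finset.sum_neg_distrib]
    congr 1
    apply Finset.sum_congr rfl
    intro i _; ring
  rw [h]
  exact Integrable.fintype_prod (f := fun _ : Fin n => fun t : ℝ => Real.exp (-c * t ^ 2))
    (fun _ => integrable_exp_neg_mul_sq hc)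

theorem GClass.integrable {n : ℕ} {F : (Fin n → ℝ) → ℝ} (hF : GClass F) : Integrable F := by
  obtain ⟨C, c, _, hc, hb⟩ := hF.bd
  refine ((taskO_int_gauss (n := n) hc).const_mul C).mono' hF.cont.aestronglyMeasurable ?_
  filter_upwards with x
  rw [Real.norm_of_nonneg (hF.pos x).le]
  exact hb x

/-- the isomorphism adding a first coordinate -/
def taskO_cons {n : ℕ} (p : ℝ × (Fin n → ℝ)) : Fin (n + 1) → ℝ := Fin.cons p.1 p.2

theorem taskO_cons_eq (n : ℕ) :
    (taskO_cons (n := n)) = (MeasurableEquiv.piFinSuccAbove (fun _ : Fin (n + 1) => ℝ) 0).symm := by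
  ext p j
  show (Fin.cons p.1 p.2 : Fin (n + 1) → ℝ) j = Fin.insertNth (α := fun _ => ℝ) 0 p.1 p.2 j
  rw [Fin.insertNth_zero']

theorem taskO_cons_mp (n : ℕ) : MeasurePreserving (taskO_cons (n := n)) := by
  have h := (volume_preserving_piFinSuccAbove (fun _ : Fin (n + 1) => ℝ) 0).symm
  rw [taskO_cons_eq]; exact h

theorem taskO_cons_cont (n : ℕ) : Continuous (taskO_cons (n := n)) := by
  unfold taskO_cons
  exact Continuous.finCons continuous_fst continuous_snd

theorem taskO_sq {n : ℕ} (s : ℝ) (y : Fin n → ℝ) :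
    ∑ i, (taskO_cons (s, y)) i ^ 2 = s ^ 2 + ∑ i, y i ^ 2 := by
  rw [Fin.sum_univ_succ]
  simp [taskO_cons]

theorem taskO_sum {m n : ℕ} (s : Fin m → ℝ) (y : Fin m → Fin n → ℝ) :
    ∑ i, taskO_cons (s i, y i) = taskO_cons (∑ i, s i, ∑ i, y i) := by
  ext j
  refine Fin.cases ?_ (fun j => ?_) j
  · simp [taskO_cons, Finset.sum_apply]
  · simp [taskO_cons, Finset.sum_apply]

theorem taskO_slice {n : ℕ} {F : (Fin (n + 1) → ℝ) → ℝ} (hF : GClass F) (y : Fin n → ℝ) :
    Continuous (fun s : ℝ => F (taskO_cons (s, y))) ∧ Integrable (fun s : ℝ => F (taskO_cons (s, y))) := by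
  have hc : Continuous (fun s : ℝ => F (taskO_cons (s, y))) :=
    hF.cont.comp ((taskO_cons_cont n).comp (by fun_prop))
  refine ⟨hc, ?_⟩
  obtain ⟨C, c, hC, hc', hb⟩ := hF.bd
  refine ((integrable_exp_neg_mul_sq hc').const_mul C).mono' hc.aestronglyMeasurable ?_
  filter_upwards with s
  rw [Real.norm_of_nonneg (hF.pos _).le]
  refine (hb _).trans ?_
  rw [taskO_sq]
  apply mul_le_mul_of_nonneg_left _ hC.le
  apply Real.exp_le_exp.2
  have : 0 ≤ c * ∑ i, y i ^ 2 := mul_nonneg hc'.le (Finset.sum_nonneg fun i _ => sq_nonneg _)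
  nlinarith

theorem taskO_marginal {n : ℕ} {F : (Fin (n + 1) → ℝ) → ℝ} (hF : GClass F) :
    GClass (fun y : Fin n → ℝ => ∫ s : ℝ, F (taskO_cons (s, y))) := by
  obtain ⟨C, c, hC, hc, hb⟩ := hF.bd
  have hb' : ∀ (s : ℝ) (y : Fin n → ℝ), F (taskO_cons (s, y)) ≤
      C * Real.exp (-(c * ∑ i, y i ^ 2)) * Real.exp (-c * s ^ 2) := by
    intro s y
    refine (hb _).trans (le_of_eq ?_)
    rw [taskO_sq, mul_assoc, ← Real.exp_add]
    congr 2
    ring
  refine ⟨?_, ?_, ?_⟩
  · apply continuous_of_dominated (bound := fun s => C * Real.exp (-c * s ^ 2))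
    · intro y; exact (taskO_slice hF y).1.aestronglyMeasurable
    · intro y
      filter_upwards with s
      rw [Real.norm_of_nonneg (hF.pos _).le]
      refine (hb' s y).trans ?_
      apply mul_le_mul_of_nonneg_right _ (Real.exp_pos _).le
      have h0 : 0 ≤ c * ∑ i, y i ^ 2 := mul_nonneg hc.le (Finset.sum_nonneg fun i _ => sq_nonneg _)
      have h1 : Real.exp (-(c * ∑ i, y i ^ 2)) ≤ 1 := Real.exp_le_one_iff.2 (by linarith)
      nlinarith [Real.exp_pos (-(c * ∑ i, y i ^ 2))]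
    · exact (integrable_exp_neg_mul_sq hc).const_mul C
    · filter_upwards with s
      exact hF.cont.comp ((taskO_cons_cont n).comp (by fun_prop))
  · intro y
    exact Young.integral_pos_of_pos (fun s => hF.pos _) (taskO_slice hF y).2
  · refine ⟨C * ∫ s : ℝ, Real.exp (-c * s ^ 2), c, ?_, hc, ?_⟩
    · apply mul_pos hC
      exact Young.integral_pos_of_pos (fun s => Real.exp_pos _) (integrable_exp_neg_mul_sq hc)
    · intro y
      calc ∫ s : ℝ, F (taskO_cons (s, y)) ≤
          ∫ s : ℝ, C * Real.exp (-(c * ∑ i, y i ^ 2)) * Real.exp (-c * s ^ 2) :=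
            integral_mono (taskO_slice hF y).2 ((integrable_exp_neg_mul_sq hc).const_mul _)
              (fun s => hb' s y)
        _ = _ := by rw [integral_const_mul]; ring

theorem taskO_integral {n : ℕ} {F : (Fin (n + 1) → ℝ) → ℝ} (hF : GClass F) :
    ∫ y : Fin n → ℝ, ∫ s : ℝ, F (taskO_cons (s, y)) = ∫ x, F x := by
  have hmp := taskO_cons_mp n
  have hemb : MeasurableEmbedding (taskO_cons (n := n)) := by
    rw [taskO_cons_eq]
    exact (MeasurableEquiv.piFinSuccAbove (fun _ : Fin (n + 1) => ℝ) 0).symm.measurableEmbedding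
  rw [← hmp.integral_comp hemb F]
  have hi : Integrable (fun p : ℝ × (Fin n → ℝ) => F (taskO_cons p)) (volume.prod volume) :=
    (hmp.integrable_comp_emb hemb).2 hF.integrable
  exact (integral_prod_symm _ hi).symm

/-- shuffling coordinates -/
def taskO_shuf {m n : ℕ} (p : (Fin m → ℝ) × (Fin m → Fin n → ℝ)) : Fin m → Fin (n + 1) → ℝ :=
  fun i => taskO_cons (p.1 i, p.2 i)

theorem taskO_shuf_mp (m n : ℕ) : MeasurePreserving (taskO_shuf (m := m) (n := n)) := by
  have h1 := (volume_measurePreserving_arrowProdEquivProdArrow ℝ (Fin n → ℝ) (Fin m)).symm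
  have h2 : MeasurePreserving (fun (a : Fin m → ℝ × (Fin n → ℝ)) (i : Fin m) => taskO_cons (a i)) :=
    volume_preserving_pi (fun _ => taskO_cons_mp n)
  exact h2.comp h1

theorem youngN {m n : ℕ} (hm : 1 ≤ m) (d0 : ℝ) (d : Fin m → ℝ) (hd0 : 0 < d0)
    (hd : ∀ i, 0 < d i) (hsum : d0 + ∑ i, d i = 1) (F0 : (Fin n → ℝ) → ℝ)
    (F : Fin m → (Fin n → ℝ) → ℝ) (hF0 : GClass F0) (hF : ∀ i, GClass (F i)) :
    (∫⁻ z : Fin m → Fin n → ℝ, ENNReal.ofReal (F0 (∑ i, z i) ^ (1 - d0) *
      ∏ i, F i (z i) ^ (1 - d i))) *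
      ENNReal.ofReal (gN d0 ^ (1 - d0) * ∏ i, gN (d i) ^ (1 - d i)) ^ n ≤
    gA d0 d ^ n * ENNReal.ofReal ((∫ x, F0 x) ^ (1 - d0) * ∏ i, (∫ x, F i x) ^ (1 - d i)) := by
  induction n with
  | zero =>
    have hv : (volume : Measure (Fin 0 → ℝ)) univ = 1 := by
      rw [volume_pi, Measure.pi_univ]; simp
    have hv' : (volume : Measure (Fin m → Fin 0 → ℝ)) univ = 1 := by
      rw [volume_pi, Measure.pi_univ]; simp [hv]
    have hint : ∀ f : (Fin 0 → ℝ) → ℝ, ∫ x, f x = f default := by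
      intro f
      rw [integral_unique]
      have h1 : (volume : Measure (Fin 0 → ℝ)).real univ = 1 := by rw [Measure.real, hv]; rfl
      rw [h1, one_smul]
      exact congrArg f (Subsingleton.elim _ _)
    simp only [hint, lintegral_unique, hv', pow_zero, mul_one, one_mul]
    apply le_of_eq
    congr 1
    congr 1
    · exact congrArg (fun z => F0 z ^ (1 - d0)) (Subsingleton.elim _ _)
    · apply Finset.prod_congr rfl
      intro i _
      exact congrArg (fun z => F i z ^ (1 - d i)) (Subsingleton.elim _ _)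
  | succ n ih =>
    have hF0' := taskO_marginal hF0
    have hF' := fun i => taskO_marginal (hF i)
    have ih' := ih (fun y => ∫ s : ℝ, F0 (taskO_cons (s, y)))
      (fun i y => ∫ s : ℝ, F i (taskO_cons (s, y))) hF0' hF'
    simp only [taskO_integral hF0, taskO_integral (hF _)] at ih'
    set c1 := ENNReal.ofReal (gN d0 ^ (1 - d0) * ∏ i, gN (d i) ^ (1 - d i)) with hc1
    have hmeas : Measurable (fun z : Fin m → Fin (n + 1) → ℝ =>
        ENNReal.ofReal (F0 (∑ i, z i) ^ (1 - d0) * ∏ i, F i (z i) ^ (1 - d i))) := by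
      apply Continuous.measurable
      apply ENNReal.continuous_ofReal.comp
      apply Continuous.mul
      · exact (hF0.cont.comp (by fun_prop)).rpow_const (fun z => Or.inl (hF0.pos _).ne')
      · apply continuous_finsetProd
        intro i _
        exact ((hF i).cont.comp (by fun_prop)).rpow_const (fun z => Or.inl ((hF i).pos _).ne')
    have h1 : ∫⁻ z : Fin m → Fin (n + 1) → ℝ,
        ENNReal.ofReal (F0 (∑ i, z i) ^ (1 - d0) * ∏ i, F i (z i) ^ (1 - d i)) =
        ∫⁻ y : Fin m → Fin n → ℝ, ∫⁻ s : Fin m → ℝ,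
          ENNReal.ofReal (F0 (taskO_cons (∑ i, s i, ∑ i, y i)) ^ (1 - d0) *
            ∏ i, F i (taskO_cons (s i, y i)) ^ (1 - d i)) := by
      rw [← (taskO_shuf_mp m n).lintegral_comp hmeas]
      have h3 := lintegral_prod_symm' (μ := (volume : Measure (Fin m → ℝ)))
        (ν := (volume : Measure (Fin m → Fin n → ℝ))) _ (hmeas.comp (taskO_shuf_mp m n).measurable)
      simp only [Function.comp_def, taskO_shuf, taskO_sum] at h3 ⊢
      exact h3
    have h2 : ∀ y : Fin m → Fin n → ℝ, (∫⁻ s : Fin m → ℝ,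
          ENNReal.ofReal (F0 (taskO_cons (∑ i, s i, ∑ i, y i)) ^ (1 - d0) *
            ∏ i, F i (taskO_cons (s i, y i)) ^ (1 - d i))) * c1 ≤
        gA d0 d * ENNReal.ofReal ((∫ s : ℝ, F0 (taskO_cons (s, ∑ i, y i))) ^ (1 - d0) *
            ∏ i, (∫ s : ℝ, F i (taskO_cons (s, y i))) ^ (1 - d i)) := by
      intro y
      exact young1 hm d0 d hd0 hd hsum (fun s => F0 (taskO_cons (s, ∑ i, y i)))
        (fun i s => F i (taskO_cons (s, y i))) (taskO_slice hF0 _).1 (fun i => (taskO_slice (hF i) _).1)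
        (fun s => hF0.pos _) (fun i s => (hF i).pos _) (taskO_slice hF0 _).2
        (fun i => (taskO_slice (hF i) _).2)
    rw [h1, pow_succ, pow_succ]
    calc (∫⁻ y : Fin m → Fin n → ℝ, ∫⁻ s : Fin m → ℝ,
          ENNReal.ofReal (F0 (taskO_cons (∑ i, s i, ∑ i, y i)) ^ (1 - d0) *
            ∏ i, F i (taskO_cons (s i, y i)) ^ (1 - d i))) * (c1 ^ n * c1)
        = (∫⁻ y : Fin m → Fin n → ℝ, (∫⁻ s : Fin m → ℝ,
          ENNReal.ofReal (F0 (taskO_cons (∑ i, s i, ∑ i, y i)) ^ (1 - d0) *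
            ∏ i, F i (taskO_cons (s i, y i)) ^ (1 - d i))) * c1) * c1 ^ n := by
          rw [lintegral_mul_const' _ _ ENNReal.ofReal_ne_top]
          ring
      _ ≤ (∫⁻ y : Fin m → Fin n → ℝ, gA d0 d * ENNReal.ofReal
            ((∫ s : ℝ, F0 (taskO_cons (s, ∑ i, y i))) ^ (1 - d0) *
            ∏ i, (∫ s : ℝ, F i (taskO_cons (s, y i))) ^ (1 - d i))) * c1 ^ n :=
          mul_le_mul' (lintegral_mono h2) le_rfl
      _ = gA d0 d * ((∫⁻ y : Fin m → Fin n → ℝ, ENNReal.ofReal
            ((∫ s : ℝ, F0 (taskO_cons (s, ∑ i, y i))) ^ (1 - d0) *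
            ∏ i, (∫ s : ℝ, F i (taskO_cons (s, y i))) ^ (1 - d i))) * c1 ^ n) := by
          rw [lintegral_const_mul, mul_assoc]
          apply Continuous.measurable
          apply ENNReal.continuous_ofReal.comp
          apply Continuous.mul
          · exact (hF0'.cont.comp (by fun_prop : Continuous fun y : Fin m → Fin n → ℝ => ∑ i, y i)).rpow_const
              (fun z => Or.inl (hF0'.pos _).ne')
          · apply continuous_finsetProd
            intro i _
            exact ((hF' i).cont.comp (continuous_apply i)).rpow_const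
              (fun z => Or.inl ((hF' i).pos _).ne')
      _ ≤ gA d0 d * (gA d0 d ^ n * ENNReal.ofReal ((∫ x, F0 x) ^ (1 - d0) *
            ∏ i, (∫ x, F i x) ^ (1 - d i))) := mul_le_mul' le_rfl ih'
      _ = _ := by ring

end Pool.Agent.Lib.MP_7548d4_gt
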