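import Pool.Agent.Lib.MP_7548d4_gt.Transport

/-!
# The sharp one-dimensional Young inequality by transport (symmetric form)
-/

set_option autoImplicit false
open MeasureTheory Filter Set Topology

namespace Pool.Agent.Lib.MP_7548d4_gt.Young

/-- the point of the hyperplane `x₀ = ∑ xᵢ` with coordinates `x`. -/
def hext {ι V : Type*} [Fintype ι] [AddCommMonoid V] (x : ι → V) (o : Option ι) : V :=
  o.elim (∑ i, x i) x

@[simp] theorem hext_none {ι V : Type*} [Fintype ι] [AddCommMonoid V] (x : ι → V) :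
    hext x none = ∑ i, x i := rfl
@[simp] theorem hext_some {ι V : Type*} [Fintype ι] [AddCommMonoid V] (x : ι → V) (i : ι) :
    hext x (some i) = x i := rfl

/-- total inverse weight -/
noncomputable def tot {ι : Type*} [Fintype ι] (a : Option ι → ℝ) : ℝ := ∑ o, (a o)⁻¹
/-- normalised inverse weights -/
noncomputable def wt {ι : Type*} [Fintype ι] (a : Option ι → ℝ) (o : Option ι) : ℝ := (a o)⁻¹ / tot a
/-- exponents -/
noncomputable def ex {ι : Type*} [Fintype ι] (a : Option ι → ℝ) (o : Option ι) : ℝ := 1 - wt a o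

section weights
variable {ι : Type*} [Fintype ι] {a : Option ι → ℝ}

theorem tot_pos (ha : ∀ o, 0 < a o) : 0 < tot a :=
  Finset.sum_pos (fun o _ => inv_pos.2 (ha o)) ⟨none, Finset.mem_univ _⟩

theorem wt_pos (ha : ∀ o, 0 < a o) (o : Option ι) : 0 < wt a o :=
  div_pos (inv_pos.2 (ha o)) (tot_pos ha)

theorem sum_wt (ha : ∀ o, 0 < a o) : ∑ o, wt a o = 1 := by
  unfold wt
  rw [← Finset.sum_div]
  exact div_self (tot_pos ha).ne'

theorem wt_lt_one [Nonempty ι] (ha : ∀ o, 0 < a o) (o : Option ι) : wt a o < 1 := by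
  classical
  rw [← sum_wt ha]
  obtain ⟨i⟩ := ‹Nonempty ι›
  have : ∃ o', o' ≠ o := by
    rcases o with _ | j
    · exact ⟨some i, by simp⟩
    · exact ⟨none, by simp⟩
  obtain ⟨o', ho'⟩ := this
  exact Finset.single_lt_sum ho' (Finset.mem_univ _) (Finset.mem_univ _) (wt_pos ha o')
    (fun k _ _ => (wt_pos ha k).le)

theorem ex_pos [Nonempty ι] (ha : ∀ o, 0 < a o) (o : Option ι) : 0 < ex a o := by
  unfold ex; linarith [wt_lt_one ha o]

theorem mul_wt (ha : ∀ o, 0 < a o) (o : Option ι) : a o * wt a o = (tot a)⁻¹ := by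
  unfold wt
  have := (ha o).ne'
  have := (tot_pos ha).ne'
  field_simp

end weights

section jac
variable {ι : Type*} [Fintype ι] [DecidableEq ι] {a : Option ι → ℝ}

/-- the Jacobian of the transport map -/
noncomputable def jac (w d : Option ι → ℝ) : (ι → ℝ) →L[ℝ] (ι → ℝ) :=
  ContinuousLinearMap.pi (fun i => (d (some i)) • ContinuousLinearMap.proj (R := ℝ) (φ := fun _ : ι => ℝ) i
    - (w (some i)) • ((∑ j, (d (some j)) • ContinuousLinearMap.proj (R := ℝ) (φ := fun _ : ι => ℝ) j)
      - (d none) • ∑ j, ContinuousLinearMap.proj (R := ℝ) (φ := fun _ : ι => ℝ) j))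

theorem jac_det (w d : Option ι → ℝ) (hw : ∑ o, w o = 1) (hd : ∀ o, 0 < d o) :
    (jac w d).det = (∏ o, d o) * ∑ o, w o * (d o)⁻¹ := by
  have h1 : LinearMap.toMatrix' (jac w d : (ι → ℝ) →ₗ[ℝ] (ι → ℝ)) =
      Matrix.diagonal (fun i => d (some i)) +
        Matrix.replicateCol Unit (fun i => - w (some i)) *
          Matrix.replicateRow Unit (fun j => d (some j) - d none) := by
    ext i j
    rw [LinearMap.toMatrix'_apply]
    simp only [jac, ContinuousLinearMap.coe_coe, ContinuousLinearMap.coe_pi', _root_.sub_apply,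
      _root_.smul_apply, ContinuousLinearMap.proj_apply, _root_.sum_apply,
      smul_eq_mul, Matrix.add_apply, Matrix.diagonal_apply, Matrix.mul_apply, Matrix.replicateCol_apply,
      Matrix.replicateRow_apply, Finset.univ_unique, Finset.sum_singleton, Pi.single_apply]
    simp only [mul_ite, mul_one, mul_zero, Finset.sum_ite_eq', Finset.mem_univ, if_true]
    by_cases hij : i = j
    · subst hij; simp; ring
    · have : ¬ (j = i) := fun h => hij h.symm
      simp [hij]
  have h2 : (jac w d).det = (LinearMap.toMatrix' (jac w d : (ι → ℝ) →ₗ[ℝ] (ι → ℝ))).det := by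
    rw [LinearMap.det_toMatrix']
  have hdet : (Matrix.diagonal (fun i => d (some i))).det = ∏ i, d (some i) := Matrix.det_diagonal
  have hne : (∏ i, d (some i)) ≠ 0 := (Finset.prod_pos fun i _ => hd (some i)).ne'
  rw [h2, h1, Matrix.det_add_replicateCol_mul_replicateRow (by rw [hdet]; exact isUnit_iff_ne_zero.2 hne),
    hdet, Matrix.det_unique]
  have h3 : (Matrix.diagonal (fun i => d (some i)))⁻¹ = Matrix.diagonal (fun i => (d (some i))⁻¹) := by
    apply Matrix.inv_eq_right_inv
    rw [Matrix.diagonal_mul_diagonal, ← Matrix.diagonal_one]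
    congr 1
    ext i
    exact mul_inv_cancel₀ (hd _).ne'
  rw [h3, Fintype.prod_option, Fintype.sum_option]
  have hw' : ∑ i, w (some i) = 1 - w none := by
    rw [Fintype.sum_option] at hw; linarith
  have h4 : ((1 : Matrix Unit Unit ℝ) + Matrix.replicateRow Unit (fun j => d (some j) - d none) *
      Matrix.diagonal (fun i => (d (some i))⁻¹) * Matrix.replicateCol Unit (fun i => - w (some i))) default default
      = w none + d none * ∑ i, w (some i) * (d (some i))⁻¹ := by
    simp only [Matrix.add_apply, Matrix.one_apply_eq, Matrix.mul_apply, Matrix.replicateCol_apply,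
      Matrix.replicateRow_apply, Matrix.diagonal_apply, mul_ite, mul_zero, Finset.sum_ite_eq', Finset.mem_univ,
      if_true]
    have : ∀ i, (d (some i) - d none) * (d (some i))⁻¹ * - w (some i) =
        - w (some i) + d none * (w (some i) * (d (some i))⁻¹) := by
      intro i
      have := (hd (some i)).ne'
      field_simp
      ring
    rw [Finset.sum_congr rfl (fun i _ => this i), Finset.sum_add_distrib, Finset.sum_neg_distrib, hw',
      ← Finset.mul_sum]
    ring
  rw [h4]
  have := (hd none).ne'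
  field_simp


/-- the transport map in hyperplane coordinates -/
noncomputable def zmap (w : Option ι → ℝ) (T : Option ι → ℝ → ℝ) (x : ι → ℝ) (i : ι) : ℝ :=
  T (some i) (x i) - w (some i) * ((∑ j, T (some j) (x j)) - T none (∑ j, x j))

theorem zmap_hasFDerivAt (w : Option ι → ℝ) (T T' : Option ι → ℝ → ℝ)
    (hT : ∀ o x, HasDerivAt (T o) (T' o x) x) (x : ι → ℝ) :
    HasFDerivAt (zmap w T) (jac w (fun o => T' o (hext x o))) x := by
  rw [hasFDerivAt_pi']
  intro i
  have hp : ∀ j : ι, HasFDerivAt (fun x : ι → ℝ => x j)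
      (ContinuousLinearMap.proj (R := ℝ) (φ := fun _ : ι => ℝ) j) x := fun j =>
    (ContinuousLinearMap.proj (R := ℝ) (φ := fun _ : ι => ℝ) j).hasFDerivAt
  have hTj : ∀ j : ι, HasFDerivAt (fun x : ι → ℝ => T (some j) (x j))
      ((T' (some j) (x j)) • ContinuousLinearMap.proj (R := ℝ) (φ := fun _ : ι => ℝ) j) x := fun j =>
    (hT (some j) (x j)).comp_hasFDerivAt x (hp j)
  have hs : HasFDerivAt (fun x : ι → ℝ => ∑ j, x j)
      (∑ j, ContinuousLinearMap.proj (R := ℝ) (φ := fun _ : ι => ℝ) j) x :=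
    HasFDerivAt.fun_sum fun j _ => hp j
  have h0 : HasFDerivAt (fun x : ι → ℝ => T none (∑ j, x j))
      ((T' none (∑ j, x j)) • ∑ j, ContinuousLinearMap.proj (R := ℝ) (φ := fun _ : ι => ℝ) j) x :=
    (hT none (∑ j, x j)).comp_hasFDerivAt x hs
  have hsT : HasFDerivAt (fun x : ι → ℝ => ∑ j, T (some j) (x j))
      (∑ j, (T' (some j) (x j)) • ContinuousLinearMap.proj (R := ℝ) (φ := fun _ : ι => ℝ) j) x :=
    HasFDerivAt.fun_sum fun j _ => hTj j
  exact (hTj i).sub ((hsT.sub h0).const_mul (w (some i)))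

theorem zmap_hext_none (w : Option ι → ℝ) (hw : ∑ o, w o = 1) (T : Option ι → ℝ → ℝ) (x : ι → ℝ) :
    hext (zmap w T x) none = T none (∑ j, x j) + w none * ((∑ j, T (some j) (x j)) - T none (∑ j, x j)) := by
  rw [Fintype.sum_option] at hw
  have : ∑ i, w (some i) = 1 - w none := by linarith
  simp only [hext_none, zmap, Finset.sum_sub_distrib, ← Finset.sum_mul, this]
  ring

theorem zmap_injective (ha : ∀ o, 0 < a o) (T : Option ι → ℝ → ℝ) (hT : ∀ o, StrictMono (T o)) :
    Function.Injective (zmap (wt a) T) := by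
  intro x x' h
  by_contra hne
  set D := (∑ j, T (some j) (x j)) - T none (∑ j, x j) with hD
  set D' := (∑ j, T (some j) (x' j)) - T none (∑ j, x' j) with hD'
  have hi : ∀ i, T (some i) (x i) - T (some i) (x' i) = wt a (some i) * (D - D') := by
    intro i
    have := congrFun h i
    simp only [zmap] at this
    rw [← hD, ← hD'] at this
    linarith
  have h0 : T none (∑ j, x j) - T none (∑ j, x' j) = - wt a none * (D - D') := by
    have h1 := zmap_hext_none (wt a) (sum_wt ha) T x
    have h2 := zmap_hext_none (wt a) (sum_wt ha) T x'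
    rw [h] at h1
    rw [← hD] at h1
    rw [← hD'] at h2
    linarith
  -- weighted sum
  have hsum : ∑ o, a o * ((T o (hext x o) - T o (hext x' o)) * (hext x o - hext x' o)) = 0 := by
    rw [Fintype.sum_option]
    simp only [hext_none, hext_some]
    rw [h0]
    have : ∀ i, a (some i) * ((T (some i) (x i) - T (some i) (x' i)) * (x i - x' i)) =
        (tot a)⁻¹ * (D - D') * (x i - x' i) := by
      intro i
      rw [hi i, ← mul_wt ha (some i)]
      ring
    rw [Finset.sum_congr rfl (fun i _ => this i), ← Finset.mul_sum, Finset.sum_sub_distrib]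
    have h3 := mul_wt ha none
    have : a none * (-wt a none * (D - D') * (∑ i, x i - ∑ i, x' i)) =
      - (a none * wt a none) * (D - D') * (∑ i, x i - ∑ i, x' i) := by ring
    rw [this, h3]
    ring
  have hnn : ∀ o, 0 ≤ a o * ((T o (hext x o) - T o (hext x' o)) * (hext x o - hext x' o)) := by
    intro o
    apply mul_nonneg (ha o).le
    rcases le_total (hext x o) (hext x' o) with hl | hl
    · exact mul_nonneg_of_nonpos_of_nonpos (sub_nonpos.2 ((hT o).monotone hl)) (sub_nonpos.2 hl)
    · exact mul_nonneg (sub_nonneg.2 ((hT o).monotone hl)) (sub_nonneg.2 hl)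
  have hz := (Finset.sum_eq_zero_iff_of_nonneg (fun o _ => hnn o)).1 hsum
  apply hne
  ext i
  by_contra hx
  have h4 := hz (some i) (Finset.mem_univ _)
  simp only [hext_some, mul_eq_zero, (ha (some i)).ne', false_or, sub_eq_zero] at h4
  rcases h4 with h4 | h4
  · exact hx ((hT (some i)).injective h4)
  · exact hx h4

theorem zmap_energy (ha : ∀ o, 0 < a o) (T : Option ι → ℝ → ℝ) (x : ι → ℝ) :
    ∑ o, a o * (hext (zmap (wt a) T x) o) ^ 2 ≤ ∑ o, a o * (T o (hext x o)) ^ 2 := by
  have h0 := zmap_hext_none (wt a) (sum_wt ha) T x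
  set D := (∑ j, T (some j) (x j)) - T none (∑ j, x j) with hD
  rw [Fintype.sum_option, Fintype.sum_option, h0]
  simp only [hext_some, hext_none, zmap]
  rw [← hD]
  have hS := tot_pos ha
  have h1 : ∀ i, a (some i) * (T (some i) (x i) - wt a (some i) * D) ^ 2 =
      a (some i) * T (some i) (x i) ^ 2 - 2 * (tot a)⁻¹ * D * T (some i) (x i)
        + (tot a)⁻¹ * D ^ 2 * wt a (some i) := by
    intro i
    rw [← mul_wt ha (some i)]; ring
  have h2 : a none * (T none (∑ j, x j) + wt a none * D) ^ 2 =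
      a none * T none (∑ j, x j) ^ 2 + 2 * (tot a)⁻¹ * D * T none (∑ j, x j)
        + (tot a)⁻¹ * D ^ 2 * wt a none := by
    rw [← mul_wt ha none]; ring
  rw [Finset.sum_congr rfl (fun i _ => h1 i), h2, Finset.sum_add_distrib, Finset.sum_sub_distrib,
    ← Finset.mul_sum, ← Finset.mul_sum]
  have hw : ∑ i, wt a (some i) = 1 - wt a none := by
    have := sum_wt ha
    rw [Fintype.sum_option] at this; linarith
  rw [hw]
  have h3 : ∑ j, T (some j) (x j) = D + T none (∑ j, x j) := by rw [hD]; ring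
  rw [h3]
  have h4 : 0 ≤ (tot a)⁻¹ * D ^ 2 := by positivity
  nlinarith [h4]

end jac

section one
variable {ι : Type*} [Fintype ι] {a : Option ι → ℝ}

/-- reference Gaussian -/
noncomputable def gau (b : ℝ) (t : ℝ) : ℝ := Real.exp (-b * t ^ 2)

theorem gau_pos (b t : ℝ) : 0 < gau b t := Real.exp_pos _
theorem gau_cont (b : ℝ) : Continuous (gau b) := by unfold gau; fun_prop
theorem gau_int {b : ℝ} (hb : 0 < b) : Integrable (gau b) := integrable_exp_neg_mul_sq hb

theorem amgm (w d : Option ι → ℝ) (hw : ∀ o, 0 ≤ w o) (hs : ∑ o, w o = 1) (hd : ∀ o, 0 < d o) :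
    ∏ o, (d o) ^ (1 - w o) ≤ (∏ o, d o) * ∑ o, w o * (d o)⁻¹ := by
  have h1 := Real.geom_mean_le_arith_mean_weighted Finset.univ w (fun o => (d o)⁻¹)
    (fun o _ => hw o) hs (fun o _ => (inv_pos.2 (hd o)).le)
  have h2 : ∏ o, (d o) ^ (1 - w o) = (∏ o, d o) * ∏ o, ((d o)⁻¹) ^ (w o) := by
    rw [← Finset.prod_mul_distrib]
    apply Finset.prod_congr rfl
    intro o _
    rw [Real.rpow_sub (hd o), Real.rpow_one, Real.inv_rpow (hd o).le, div_eq_mul_inv]
  rw [h2]
  exact mul_le_mul_of_nonneg_left h1 (Finset.prod_nonneg fun o _ => (hd o).le)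

theorem integral_pos_of_pos {f : ℝ → ℝ} (hp : ∀ x, 0 < f x) (hi : Integrable f) : 0 < ∫ t, f t :=
  (integral_pos_iff_support_of_nonneg (fun x => (hp x).le) hi).2 (by
    have : Function.support f = univ := by
      ext x; simp [(hp x).ne']
    rw [this]; simp)

theorem young_one [Nonempty ι] (ha : ∀ o, 0 < a o) (f : Option ι → ℝ → ℝ)
    (hfc : ∀ o, Continuous (f o)) (hfp : ∀ o x, 0 < f o x) (hfi : ∀ o, Integrable (f o)) :
    ∫⁻ x : ι → ℝ, ENNReal.ofReal (∏ o, (f o (hext x o)) ^ (ex a o)) ≤
      ENNReal.ofReal (∏ o, ((∫ t, f o t) / (∫ t, gau (a o / ex a o) t)) ^ (ex a o)) *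
        ∫⁻ x : ι → ℝ, ENNReal.ofReal (∏ o, gau (a o) (hext x o)) := by
  classical
  have hex := ex_pos ha
  have hb : ∀ o, 0 < a o / ex a o := fun o => div_pos (ha o) (hex o)
  have hT := fun o => taskM_transport (hfc o) (hfp o) (hfi o) (gau_cont (a o / ex a o))
    (gau_pos (a o / ex a o)) (gau_int (hb o))
  choose T hTm hTd using hT
  set A : Option ι → ℝ := fun o => ∫ t, f o t with hA
  set B : Option ι → ℝ := fun o => ∫ t, gau (a o / ex a o) t with hB
  have hApos : ∀ o, 0 < A o := fun o => integral_pos_of_pos (hfp o) (hfi o)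
  have hBpos : ∀ o, 0 < B o := fun o => integral_pos_of_pos (gau_pos _) (gau_int (hb o))
  set T' : Option ι → ℝ → ℝ := fun o x => (f o x / A o) / (gau (a o / ex a o) (T o x) / B o) with hT'
  have hT'pos : ∀ o x, 0 < T' o x := fun o x =>
    div_pos (div_pos (hfp o x) (hApos o)) (div_pos (gau_pos _ _) (hBpos o))
  have hder : ∀ x, HasFDerivAt (zmap (wt a) T) (jac (wt a) (fun o => T' o (hext x o))) x :=
    fun x => zmap_hasFDerivAt (wt a) T T' (fun o x => hTd o x) x
  have hdet : ∀ x, (jac (wt a) (fun o => T' o (hext x o))).det =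
      (∏ o, T' o (hext x o)) * ∑ o, wt a o * (T' o (hext x o))⁻¹ := fun x =>
    jac_det (wt a) _ (sum_wt ha) (fun o => hT'pos o _)
  -- pointwise inequality
  have hpt : ∀ x : ι → ℝ, ∏ o, (f o (hext x o)) ^ (ex a o) ≤
      (∏ o, (A o / B o) ^ (ex a o)) *
        (|(jac (wt a) (fun o => T' o (hext x o))).det| * ∏ o, gau (a o) (hext (zmap (wt a) T x) o)) := by
    intro x
    have h1 : ∀ o, (f o (hext x o)) ^ (ex a o) =
        (A o / B o) ^ (ex a o) * ((T' o (hext x o)) ^ (ex a o) * gau (a o) (T o (hext x o))) := by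
      intro o
      have hg : gau (a o) (T o (hext x o)) = (gau (a o / ex a o) (T o (hext x o))) ^ (ex a o) := by
        unfold gau
        rw [← Real.exp_mul]
        congr 1
        have := (hex o).ne'
        field_simp
      rw [hg, ← Real.mul_rpow (hT'pos o _).le (gau_pos _ _).le,
        ← Real.mul_rpow (div_pos (hApos o) (hBpos o)).le (mul_pos (hT'pos o _) (gau_pos _ _)).le]
      congr 1
      simp only [hT']
      have := (hApos o).ne'
      have := (hBpos o).ne'
      have := (gau_pos (a o / ex a o) (T o (hext x o))).ne'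
      field_simp
    rw [Finset.prod_congr rfl (fun o _ => h1 o), Finset.prod_mul_distrib, Finset.prod_mul_distrib]
    apply mul_le_mul_of_nonneg_left _ (Finset.prod_nonneg fun o _ => Real.rpow_nonneg (div_pos (hApos o) (hBpos o)).le _)
    have h2 : ∏ o, (T' o (hext x o)) ^ (ex a o) ≤ |(jac (wt a) (fun o => T' o (hext x o))).det| := by
      rw [hdet x]
      refine le_trans ?_ (le_abs_self _)
      exact amgm (wt a) (fun o => T' o (hext x o)) (fun o => (wt_pos ha o).le) (sum_wt ha) (fun o => hT'pos o _)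
    have h3 : ∏ o, gau (a o) (T o (hext x o)) ≤ ∏ o, gau (a o) (hext (zmap (wt a) T x) o) := by
      unfold gau
      rw [← Real.exp_sum, ← Real.exp_sum]
      apply Real.exp_le_exp.2
      have := zmap_energy ha T x
      have e1 : ∑ o, -a o * T o (hext x o) ^ 2 = - ∑ o, a o * T o (hext x o) ^ 2 := by
        rw [← Finset.sum_neg_distrib]; apply Finset.sum_congr rfl; intro o _; ring
      have e2 : ∑ o, -a o * hext (zmap (wt a) T x) o ^ 2 = - ∑ o, a o * hext (zmap (wt a) T x) o ^ 2 := by
        rw [← Finset.sum_neg_distrib]; apply Finset.sum_congr rfl; intro o _; ring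
      rw [e1, e2]
      linarith
    exact mul_le_mul h2 h3 (Finset.prod_nonneg fun o _ => (gau_pos _ _).le) (abs_nonneg _)
  have hinj := zmap_injective ha T hTm
  calc ∫⁻ x : ι → ℝ, ENNReal.ofReal (∏ o, (f o (hext x o)) ^ (ex a o))
      ≤ ∫⁻ x : ι → ℝ, ENNReal.ofReal (∏ o, (A o / B o) ^ (ex a o)) *
        (ENNReal.ofReal |(jac (wt a) (fun o => T' o (hext x o))).det| *
          ENNReal.ofReal (∏ o, gau (a o) (hext (zmap (wt a) T x) o))) := by
        apply lintegral_mono
        intro x
        dsimp only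
        rw [← ENNReal.ofReal_mul (abs_nonneg _), ← ENNReal.ofReal_mul
          (Finset.prod_nonneg fun o _ => Real.rpow_nonneg (div_pos (hApos o) (hBpos o)).le _)]
        exact ENNReal.ofReal_le_ofReal (hpt x)
    _ = ENNReal.ofReal (∏ o, (A o / B o) ^ (ex a o)) * ∫⁻ x : ι → ℝ,
        (ENNReal.ofReal |(jac (wt a) (fun o => T' o (hext x o))).det| *
          ENNReal.ofReal (∏ o, gau (a o) (hext (zmap (wt a) T x) o))) := by
        rw [lintegral_const_mul' _ _ ENNReal.ofReal_ne_top]
    _ = ENNReal.ofReal (∏ o, (A o / B o) ^ (ex a o)) * ∫⁻ y in (zmap (wt a) T) '' univ,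
          ENNReal.ofReal (∏ o, gau (a o) (hext y o)) := by
        rw [lintegral_image_eq_lintegral_abs_det_fderiv_mul volume MeasurableSet.univ
          (fun x _ => (hder x).hasFDerivWithinAt) (hinj.injOn)]
        rw [setLIntegral_univ]
    _ ≤ _ := by
        exact mul_le_mul' le_rfl (setLIntegral_le_lintegral _ _)

end one

end Pool.Agent.Lib.MP_7548d4_gt.Young
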